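import Pool.Agent.Lib.MP_30b5b4_an.S.H

/-! Two orthogonal central elements over a given first system. -/

open scoped CStarAlgebra ComplexOrder Topology
open Filter

set_option linter.unusedSectionVars false
set_option linter.style.haveILetI false
set_option linter.unusedVariables false
set_option linter.unusedSimpArgs false
set_option synthInstance.maxSize 1000000

namespace Pool.Agent.Lib.MP_30b5b4_an

universe u v

variable {J : Type*} {A : Type u} [NonUnitalCStarAlgebra J] [PartialOrder J] [StarOrderedRing J]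
  [CStarAlgebra A] [PartialOrder A] [StarOrderedRing A] {j : J →⋆ₙₐ[ℂ] A} {N : ℕ}

theorem two_alg' {κ : Type} [Fintype κ] (rk : Option κ → ℕ) (hrk : Function.Injective rk)
    (hn : ∀ i, rk i ≤ Fintype.card κ) (rk0 : rk none = 0) {r : ℕ}
    (hr : r = 4 * (Fintype.card κ + 1) ^ 2) (M : Option κ → ℕ)
    (hM : ∀ i k, rk i < rk k → (r + r) * M k ≤ M i)
    {B : Type u} [CStarAlgebra B] [PartialOrder B] [StarOrderedRing B] {e : B} {S : Set B}
    (he : e ∈ S) (d : Option κ → Bool → B)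
    (d0 : ∀ i s, d i s ∈ Cn S ∧ IsSelfAdjoint (d i s))
    (d1 : ∀ i s, Sub S e (M i • {cfc (rp (1 / 4) 2) (d i s)}) {1})
    (x : ∀ k, Fin (4 * M (some k)) → B) (x1 : (∑ k, ∑ t, star (x k t) * x k t) * e = e)
    (d2 : ∀ k t s, ∃ X ∈ Cn S, d (some k) s * X = X ∧ d (some k) (!s) * X = 0 ∧
      star X * X = star (x k t) * x k t) :
    ∃ p p' : Bool → B,
      (∀ i, p i ∈ Cn S ∧ 0 ≤ p i ∧ p i ≤ 1 ∧ p' i ∈ Cn S ∧ 0 ≤ p' i ∧ p' i ≤ 1 ∧
        p' i * p i = p i) ∧ p' true * p' false = 0 ∧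
      (∀ i, Sub S e ((r + r) • {1}) (((r + r) * ∑ k, 4 * M (some k)) • {p i} + r • {1})) ∧
      ∀ i, ∃ v ∈ Cn S, p i * v = v ∧ ∀ X, d none i * X = X → d none (!i) * X = 0 →
        star X * X ≤ (4 : ℝ) • (star (v * X) * (v * X)) := by
  classical
  set n := Fintype.card κ with hn'
  obtain ⟨l, l0, hl⟩ : ∃ l : ℝ, 0 < l ∧ l * (n + 1) ≤ 1 / 4 :=
    ⟨1 / (4 * (n + 1)), by positivity, le_of_eq (by field_simp)⟩
  obtain ⟨θ, hθ⟩ : ∃ θ, θ = l ^ (n + 1) := ⟨_, rfl⟩
  have θ0 : 0 < θ := hθ ▸ pow_pos l0 _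
  obtain ⟨a, ha⟩ : ∃ a : Bool → Option κ → B, ∀ s i, a s i = cfc (rp (1 / 4) 3) (d i s) :=
    ⟨_, fun _ _ => rfl⟩
  have a0 : ∀ s i, 0 ≤ a s i ∧ a s i ≤ 1 := fun s i => ha s i ▸ rp_mem _ _ _
  have a1 : ∀ s i, a s i ∈ Cn S := fun s i => ha s i ▸ cfc_mem_cl (Cn_closed S) _ (d0 i s).1
  obtain ⟨u, hu⟩ : ∃ u : Bool → B, ∀ s, u s = ∑ k, l ^ rk k • (a s k - a (!s) k) :=
    ⟨_, fun _ => rfl⟩
  have u0 : ∀ s, IsSelfAdjoint (u s) := fun s => by
    rw [hu, IsSelfAdjoint, star_sum]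
    exact Finset.sum_congr rfl fun k _ => by
      rw [star_smul, star_trivial, star_sub, (a0 _ k).1.star_eq, (a0 _ k).1.star_eq]
  have u1 : ∀ s, u s ∈ Cn S := fun s => hu s ▸ sum_mem fun k _ =>
    SMulMemClass.smul_mem (S := StarSubalgebra ℂ B) ((l ^ rk k : ℝ) : ℂ) (sub_mem (a1 _ _) (a1 _ _))
  obtain ⟨v, hv⟩ : ∃ v : Bool → B, ∀ s, v s = cfc (fun t => max (t - θ) 0) (u s) :=
    ⟨_, fun _ => rfl⟩
  have v0 : ∀ s, 0 ≤ v s := fun s => hv s ▸ cfc_nonneg fun t _ => le_max_right _ _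
  have v1 : ∀ s, v s ∈ Cn S := fun s => hv s ▸ cfc_mem_cl (Cn_closed S) _ (u1 s)
  have pv : ∀ s, cfc (rp (θ / 3) 2) (u s) * v s = v s := fun s => by
    rw [hv, cfc_mul' (by fun_prop) (by fun_prop)]
    refine cfc_congr fun t _ => ?_
    rcases le_total t θ with h | h
    · simp [max_eq_right (sub_nonpos.2 h)]
    · have : 3 ≤ t / (θ / 3) := by rw [le_div_iff₀ (by positivity)]; linarith
      simp only [rp]
      rw [cl_of_one_le (by push_cast; linarith), one_mul]
  have key : ∀ s i X, d i s * X = X → d i (!s) * X = 0 → (l ^ rk i / 2) • (star X * X) ≤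
      star X * v s * X + ∑ k ∈ Finset.univ.filter (fun k => rk k < rk i),
        l ^ rk k • (star X * a (!s) k * X) := fun s i X h1 h2 => by
    rw [hv]
    refine two_ineq (a s) (a (!s)) (fun k => (a0 _ k).1) (fun k => (a0 _ k).1) (fun k => (a0 _ k).2)
      (fun k => l ^ rk k) (fun k => by positivity) i _
      (hθ ▸ two_weights rk hrk hn (by simp [hn']) l0 hl i) ?_ ?_ (hu s)
    · rw [ha]
      exact cfc_mul_eq_self (d0 _ _).2 h1 (by fun_prop) (by rw [rp, cl_of_one_le (by norm_num)])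
    · rw [ha]
      exact cfc_mul_eq_zero (d0 _ _).2 h2 (by fun_prop) (rp_zero (by norm_num) (by norm_num)
        (by norm_num))
  refine ⟨fun s => cfc (rp (θ / 3) 2) (u s), fun s => cfc (rp (θ / 3) 1) (u s), fun s =>
    ⟨cfc_mem_cl (Cn_closed S) _ (u1 s), (rp_mem _ _ _).1, (rp_mem _ _ _).2,
      cfc_mem_cl (Cn_closed S) _ (u1 s), (rp_mem _ _ _).1, (rp_mem _ _ _).2,
      (rp_tier2 _ (by norm_num) _).1⟩, ?_, fun s => ?_,
    fun s => ⟨v s, v1 s, pv s, fun X h1 h2 => ?_⟩⟩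
  · have h1 : u false = -u true := by
      rw [hu, hu, ← Finset.sum_neg_distrib]
      exact Finset.sum_congr rfl fun k _ => by rw [← smul_neg, neg_sub]; rfl
    show cfc _ (u true) * cfc _ (u false) = 0
    rw [h1, ← cfc_comp_neg _ (u true), cfc_mul' (by fun_prop) (by fun_prop), ← cfc_zero ℝ (u true)]
    refine cfc_congr fun t _ => ?_
    rcases le_total t 0 with h | h
    · simp [rp_zero (δ := θ / 3) (t := t) (m := 1) (by positivity) one_pos (by linarith)]
    · simp [rp_zero (δ := θ / 3) (t := -t) (m := 1) (by positivity) one_pos (by linarith)]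
  · set p := cfc (rp (θ / 3) 2) (u s) with hp
    set L := fun k : κ => Finset.univ.filter (fun i => rk i < rk (some k)) with hL
    set q := fun i => cfc (rp (1 / 4) 2) (d i (!s)) with hq
    have h1 : ∀ k t, Cov S (star (x k t) * x k t) ({p} + ∑ i ∈ L k, {q i}) := fun k t => by
      obtain ⟨X, hX, h1, h2, h3⟩ := d2 k t s
      have p0 : 0 < l ^ rk (some k) := pow_pos l0 _
      have h4 := smul_le_smul_of_nonneg_left (key s _ X h1 h2)
        (show 0 ≤ 2 / l ^ rk (some k) by positivity)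
      rw [smul_smul, show 2 / l ^ rk (some k) * (l ^ rk (some k) / 2) = 1 by field_simp, one_smul,
        h3, smul_add, Finset.smul_sum] at h4
      refine ((Cov.term (v0 s) (v1 s) (pv s) hX (by positivity)).add
        (Cov.sum _ fun i _ => ?_)).mono h4
      rw [smul_smul]
      refine Cov.term (a0 _ _).1 (a1 _ _) ?_ hX (by positivity)
      rw [ha]
      exact (rp_tier2 _ (by norm_num) _).1
    have h2 := ((Cov.sum Finset.univ fun k _ => Cov.sum Finset.univ fun t _ => h1 k t).sub he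
      x1).nsmul (r + r)
    simp only [Finset.sum_const, Finset.card_univ, Fintype.card_fin, smul_add,
      Finset.sum_add_distrib, ← Finset.sum_smul, smul_smul] at h2
    have h3 : Sub S e ((r + r) • ∑ k, (4 * M (some k)) • ∑ i ∈ L k, {q i})
        (∑ k, ∑ i ∈ L k, 4 • {1}) := by
      rw [Finset.smul_sum]
      refine Sub.sum _ fun k _ => ?_
      rw [smul_smul, Finset.smul_sum]
      refine Sub.sum _ fun i hi => ((d1 i (!s)).nsmul 4).mono ?_ le_rfl
      rw [smul_smul]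
      refine nsmul_le_nsmul_left (Multiset.zero_le _) ?_
      have := hM i _ (Finset.mem_filter.1 hi).2
      nlinarith
    have h4 : ∑ k, ∑ i ∈ L k, (4 • {1} : Multiset B) ≤ r • {1} := by
      simp only [Finset.sum_const, smul_smul, ← Finset.sum_smul]
      refine nsmul_le_nsmul_left (Multiset.zero_le _) ?_
      refine (Finset.sum_le_card_nsmul _ _ ((n + 1) * 4) fun k _ => Nat.mul_le_mul_right _
        ((Finset.card_le_univ _).trans (by simp [hn']))).trans ?_
      rw [hr, Finset.card_univ, smul_eq_mul]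
      nlinarith
    have h5 := Sub.cut (fun x hx => Cn_comm hx he) h2 (m₄ := 0)
      (by rw [add_zero]; exact h3.mono le_rfl h4)
    rwa [add_zero] at h5
  · have h3 := key s none _ h1 h2
    rw [rk0] at h3
    simp only [Nat.not_lt_zero, Finset.filter_false, Finset.sum_empty, add_zero, pow_zero] at h3
    have h4 := star_mul_self_nonneg (v s * X - (1 / 2 : ℝ) • X)
    have h5 : star (v s * X - (1 / 2 : ℝ) • X) * (v s * X - (1 / 2 : ℝ) • X) =
        star (v s * X) * (v s * X) + (1 / 4 : ℝ) • (star X * X) - star X * v s * X := by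
      simp only [star_sub, star_smul, star_trivial (1 / 2 : ℝ), star_mul, (v0 s).star_eq, sub_mul,
        mul_sub, smul_mul_assoc, mul_smul_comm, mul_assoc]
      module
    rw [h5, sub_nonneg] at h4
    have h6 := smul_le_smul_of_nonneg_left (sub_le_iff_le_add.2 (h3.trans h4))
      (show (0 : ℝ) ≤ 4 by norm_num)
    rwa [← sub_smul, smul_smul, show (4 : ℝ) * (1 / 2 - 1 / 4) = 1 by norm_num, one_smul] at h6

theorem exists_two' (κ : Type) [Fintype κ] : ∃ r P n : ℕ, 0 < r ∧ 0 < n ∧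
    ∀ {B : Type u} [CStarAlgebra B] [PartialOrder B] [StarOrderedRing B] {e : B} {S : Set B},
      DivP κ e → S.Finite → e ∈ S → ∀ {Φ : Fin n → Fin n → B} {w : B}, Sys Φ w →
      (∀ l m, Φ l m ∈ Cn S) → ∃ p p' : Bool → B,
        (∀ i, p i ∈ Cn S ∧ 0 ≤ p i ∧ p i ≤ 1 ∧ p' i ∈ Cn S ∧ 0 ≤ p' i ∧ p' i ≤ 1 ∧
          p' i * p i = p i) ∧ p' true * p' false = 0 ∧
        (∀ i, Sub S e ((r + r) • {1}) (P • {p i} + r • {1})) ∧
        ∀ i, ∃ l, ∃ v ∈ Cn S, p i * v = v ∧ ∀ X, Φ l l * X = X →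
          star X * X ≤ (4 : ℝ) • (star (v * X) * (v * X)) := by
  obtain ⟨r, hr⟩ : ∃ r, r = 4 * (Fintype.card κ + 1) ^ 2 := ⟨_, rfl⟩
  have r0 : 0 < r := by rw [hr]; positivity
  obtain ⟨rk, rk0, rk1⟩ : ∃ rk : Option κ → ℕ, rk none = 0 ∧
      ∀ k, rk (some k) = Fintype.equivFin κ k + 1 :=
    ⟨fun i => i.elim 0 fun k => Fintype.equivFin κ k + 1, rfl, fun _ => rfl⟩
  have hrk : Function.Injective rk := by
    rintro (_ | k) (_ | k') h
    · rfl
    · rw [rk0, rk1] at h; omega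
    · rw [rk0, rk1] at h; omega
    · rw [rk1, rk1] at h
      exact congrArg some ((Fintype.equivFin κ).injective (Fin.ext (by omega)))
  have hn : ∀ i, rk i ≤ Fintype.card κ := by
    rintro (_ | k)
    · rw [rk0]; exact Nat.zero_le _
    · rw [rk1]; exact (Fintype.equivFin κ k).2
  obtain ⟨M, hM⟩ : ∃ M : Option κ → ℕ, ∀ i, M i = 2 * (r + r) ^ (Fintype.card κ - rk i) :=
    ⟨_, fun _ => rfl⟩
  have M2 : ∀ i, 1 < M i := fun i => by
    have := pow_pos (show 0 < r + r by omega) (Fintype.card κ - rk i)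
    rw [hM]; omega
  refine ⟨r, (r + r) * ∑ k, 4 * M (some k), M none, r0, (M2 none).trans' one_pos, ?_⟩
  intro B _ _ _ e S hd hS he Φ₀ w₀ h₀ m₀
  obtain ⟨c, γ, x, c0, x0, c1, c2, c3, x1, x2⟩ :=
    hd (fun k => M (some k)) (fun k => (M2 _).trans' one_pos) S hS
  obtain ⟨o, ho⟩ : ∃ o : ∀ i, Bool → Fin (M i), ∀ i s, o i (!s) ≠ o i s :=
    ⟨fun i s => if s then ⟨0, (M2 i).trans' one_pos⟩ else ⟨1, M2 i⟩, fun i s => by
      cases s <;> simp⟩
  have hs := fun k => Sys.of (c k) (c1 k) (c2 k) (c3 k)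
  have hm : ∀ k l m, c k l * star (c k m) ∈ Cn S := fun k l m =>
    mul_mem (c0 k l) (star_mem (c0 k m))
  refine (two_alg' rk hrk hn rk0 hr M (fun i k h => ?_) he
    (fun i s => i.rec (Φ₀ (o none s) (o none s)) fun k => c k (o _ s) * star (c k (o _ s)))
    ?_ ?_ x x2 (fun k t s => ⟨c k (o _ s) * x k t, mul_mem (c0 _ _) (x0 _ _), ?_, ?_, ?_⟩)).imp
    fun p => Exists.imp fun p' h => ⟨h.1, h.2.1, h.2.2.1, fun s => ⟨o none s,
      (h.2.2.2 s).imp fun v hv => ⟨hv.1, hv.2.1, fun X hX => hv.2.2 X hX ?_⟩⟩⟩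
  · have := hn k
    rw [hM, hM, mul_left_comm, ← pow_succ']
    exact Nat.mul_le_mul_left _ (Nat.pow_le_pow_right (by omega) (by omega))
  · rintro (_ | k) s
    · exact ⟨m₀ _ _, h₀.st _ _⟩
    · exact ⟨hm _ _ _, (hs k).st _ _⟩
  · rintro (_ | k) s
    · simpa using h₀.many m₀ he (o none s)
    · simpa using (hs k).many (hm k) he (o _ s)
  · show c k _ * star (c k _) * _ = _
    rw [mul_assoc, ← mul_assoc (star _), c1, x1]
  · show c k _ * star (c k _) * _ = _
    rw [mul_assoc, ← mul_assoc (star _), c2 k _ _ (ho _ s), zero_mul, mul_zero]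
  · rw [star_mul, mul_assoc, ← mul_assoc (star (c k _)), c1, x1]
  · show Φ₀ _ _ * _ = _
    rw [← hX, ← mul_assoc, h₀.zero _ _ _ _ (ho _ s), zero_mul]

end Pool.Agent.Lib.MP_30b5b4_an
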