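import Pool.Agent.Lib.MP_30b5b4_an.T.GH
import Pool.Agent.Lib.MP_30b5b4_an.T.H2
import Pool.Agent.Lib.MP_30b5b4_an.T.Blk
import Pool.Agent.Lib.MP_30b5b4_an.S.L3

/-! Slots in nowhere scattered ideals of topological dimension zero. -/

open scoped CStarAlgebra ComplexOrder Topology
open Filter

set_option linter.unusedSectionVars false
set_option linter.style.haveILetI false
set_option linter.unusedVariables false
set_option linter.unusedSimpArgs false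
set_option synthInstance.maxSize 1000000

namespace Pool.Agent.Lib.MP_30b5b4_an

universe u v

variable {J : Type*} {A : Type u} [NonUnitalCStarAlgebra J] [PartialOrder J] [StarOrderedRing J]
  [CStarAlgebra A] [PartialOrder A] [StarOrderedRing A] {j : J →⋆ₙₐ[ℂ] A} {N : ℕ}

lemma Big.of_gen2 {u y : A} {Y : UA A} (h : Big y Y) (hg : Gen u y) : Big u Y := by
  obtain ⟨r, hr, z, h1, h2⟩ := h
  exact ⟨r, hr, z, h1, h2.mono fun k hk p hp => hk p fun h0 => hp (hg p h0)⟩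

/-- The hypothesis of the comparison theorem. -/
lemma TD.two_blocks (hT : TD j) (hj : Idl j) {N' : ℕ} (hA : ApA A N') {κ : Type} [Fintype κ]
    (hd : ∀ e ∈ Iw j, DivP κ e) : ∃ R, ∀ δ : ℝ, 0 < δ → ∀ T D : Finset A,
      (∀ d ∈ D, d ∈ Set.range j ∧ 0 ≤ d ∧ d ≤ 1) →
      ∃ x : Option Bool → UA A, (∀ l, ‖x l‖ ≤ 1) ∧ Two x ∧ (∀ l, x l ∈ Cn (dg '' (T : Set A))) ∧
        ∀ d ∈ D, ∀ b, BL δ (dg d) (x none) (x (some b)) R := by
  obtain ⟨r, P, n, hr, hn, h⟩ := exists_two'.{u} κ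
  refine ⟨N' * (4 * P + 2), fun δ hδ T D hD => ?_⟩
  obtain ⟨m, ⟨f⟩⟩ := Finite.exists_equiv_fin D
  choose u u1 u2 u3 u4 u5 using fun b : Fin m =>
    hT.between hj hδ (hD _ (f.symm b).2).1 (hD _ (f.symm b).2).2.1
  have q : (0 : ℝ) < 1 / 9 := by norm_num
  have us : ∀ b, IsSelfAdjoint (dg (u b) : UA A) := fun b => (u2 b).1.isSelfAdjoint.map dg
  have hc : ∀ k b, (dg (cfc (rp (1 / 9) k) (u b)) : UA A) = cfc (rp (1 / 9) k) (dg (u b)) :=
    fun k b => hom_cfc dg (rp_cont _ _) (u2 b).1.isSelfAdjoint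
  obtain ⟨e, -, e1, -, -, e2⟩ := hj.tier (ι := Empty) Empty.elim
    (fun b => (dg (u b) : UA A)) fun b => by
      obtain ⟨c, h⟩ := u1 b
      rw [← h]
      exact dg_mem_Iw c
  have e3 : ∀ k, 0 < k → ∀ b, e * cfc (rp (1 / 9) k) (dg (u b)) = cfc (rp (1 / 9) k) (dg (u b)) :=
    fun k hk b => by
      obtain ⟨a, ha⟩ := rp_fac q hk (us b)
      rw [ha, ← mul_assoc, e2]
  let y : Fin m → A := fun b => cfc (rp (1 / 9) 8) (u b)
  have y1 := fun b => (u2 b).tiers q (m := 8) (by norm_num)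
  let S : Set (UA A) := insert e (dg '' (T : Set A) ∪ Set.range (fun b => dg (u b)) ∪
    Set.range fun b => dg (y b))
  have hS : S.Finite := (((T.finite_toSet.image _).union (Set.finite_range _)).union
    (Set.finite_range _)).insert e
  have yS : ∀ b, dg (y b) ∈ S := fun b => Or.inr (Or.inr ⟨b, rfl⟩)
  obtain ⟨Φ, w, s1, s2, s3⟩ := hT.nv hj (hd e e1) hn hS y
    (fun b => hj.cfc_mem (u1 b) (rp_cont _ _) (rp_zero q (by norm_num) q.le)) (fun b => (y1 b).1)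
    yS fun b => by rw [hc, e3 8 (by norm_num)]
  obtain ⟨p, p', p1, p2, p3, p4⟩ := h (hd e e1) hS (Set.mem_insert _ _) s1 s2
  refine ⟨fun o => o.elim 1 p', ?_, ⟨rfl, fun b => ⟨(p1 b).2.2.2.2.1, (p1 b).2.2.2.2.2.1⟩, p2⟩, ?_,
    fun d hd i => ?_⟩
  · rintro (_ | b)
    exacts [norm_one_le' _, (CStarAlgebra.norm_le_one_iff_of_nonneg _ (p1 b).2.2.2.2.1).2
      (p1 b).2.2.2.2.2.1]
  · rintro (_ | b)
    exacts [one_mem _, Cn_mono (fun x hx => Or.inr (Or.inl (Or.inl hx))) (p1 b).2.2.2.1]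
  · obtain ⟨b, hb⟩ := f.symm.surjective ⟨d, hd⟩
    have h4 := congrArg (dg : A → UA A) (u4 b)
    have h5 := congrArg (dg : A → UA A) (u5 b)
    rw [hb, map_mul, hom_cfc dg (rp_cont _ _) (hD d hd).2.1.isSelfAdjoint] at h4 h5
    obtain ⟨l, v, v1, v2, v3⟩ := p4 i
    obtain ⟨z, z1, z2⟩ := s3 b l
    have h6 := z1.mono (T := Unit) (fun _ => v * (dg (y b) * z)) four_pos
      (by rw [Fintype.sum_unique]; exact v3 _ z2)
    rw [Fintype.sum_unique] at h6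
    refine BL.shift (us b) h4 h5 (Bub.block hj (fun a b c d _ _ _ e f g => hA.cmp0 a b c d e f g)
      (u1 b) (u2 b) (S := S) (Or.inr (Or.inl (Or.inr ⟨b, rfl⟩))) (Set.mem_insert _ _)
      (e3 1 one_pos b) (p1 i).1 (p1 i).2.2.2.1 (p1 i).2.1 (p1 i).2.2.1 (p1 i).2.2.2.2.2.2 hr (p3 i)
      ⟨_, h6.of_gen2 (y1 b).2.1, ?_, ?_⟩)
    · rw [← mul_assoc, ← mul_assoc, v2]
    · rw [← mul_assoc v, (Cn_comm v1 (yS b)).eq, hc, ← mul_assoc, ← mul_assoc, ← mul_assoc,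
        rp_tier (by norm_num)]

theorem TD.full2 (hT : TD j) (hN : NS j) (hj : Idl j) (hI : Ap j N False) {N' : ℕ}
    (hA : ApA A N') : ∃ C, ∀ e ∈ Iw j, Full2 e C := by
  obtain ⟨R, h⟩ := hT.two_blocks hj hA fun e he => hI.divP hj (hT.ndiv hN hj hA) he
  obtain ⟨δ, hδ, h9⟩ := exists_del N
  refine ⟨N * R, fun e he => full2_of fun hS he' => ?_⟩
  obtain ⟨x, -, hx⟩ := hI.cmp hj hδ h9 Two (fun _ : Bool => none) some _ (h δ hδ) hS he' he
  exact ⟨x, hx⟩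

theorem TD.slots (hT : TD j) (hN : NS j) (hj : Idl j) (hI : Ap j N False) (hA : ApA A N)
    {e : UA A} (he : e ∈ Iw j) : Slots e := by
  obtain ⟨C, hC⟩ := hT.full2 hN hj hI hA
  exact hI.slots hj hA (fun K _ _ =>
    ⟨_, fun e he => (hI.divP hj (hT.ndiv hN hj hA) he).weak (hC e he) K⟩) he

end Pool.Agent.Lib.MP_30b5b4_an
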