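import Pool.Agent.Lib.MP_30b5b4_an.T.Bub
import Pool.Agent.Lib.MP_30b5b4_an.S.Defs

/-! A wall in which no block is born. -/

open scoped CStarAlgebra ComplexOrder Topology
open Filter

set_option linter.unusedSectionVars false
set_option linter.style.haveILetI false
set_option linter.unusedVariables false
set_option linter.unusedSimpArgs false
set_option synthInstance.maxSize 1000000

namespace Pool.Agent.Lib.MP_30b5b4_an

universe u v

variable {J : Type*} {A : Type u} [NonUnitalCStarAlgebra J] [PartialOrder J] [StarOrderedRing J]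
  [CStarAlgebra A] [PartialOrder A] [StarOrderedRing A] {j : J →⋆ₙₐ[ℂ] A} {N : ℕ}

open Classical in
/-- one stage of the extension of a wall -/
lemma TD.wall_stage (hT : TD j) (hj : Idl j) {β : Type} [Fintype β] (a a' s y : β → A)
    (aa : ∀ b, a' b * a b = a b) (hs : ∀ b, (∃ c, j c = s b) ∧ 0 ≤ s b)
    (hy : ∀ b, (∃ c, j c = y b) ∧ 0 ≤ y b) {r : ℕ}
    (H : ∀ p : Pt A, Prm p → (Finset.univ.filter fun b => p.π (a b) ≠ 0).card < r →
      ∀ b, 1 / 4 ≤ ‖p.π (s b)‖ → p.π (y b) ≠ 0) :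
    ∃ (V : A) (Y : β → A), (∃ c, j c = V) ∧
      (∀ b, ‖Y b‖ ≤ 1 ∧ Gen (Y b) V ∧ a' b * Y b = Y b) ∧
      ∀ p : Pt A, (Finset.univ.filter fun b => p.π (a b) ≠ 0).card ≤ r →
        (p.π V = 0 → ∀ b, 1 / 4 ≤ ‖p.π (s b)‖ → p.π (y b) ≠ 0) ∧
        (p.π V ≠ 0 → ∀ b, p.π (a b) ≠ 0 → 1 ≤ ‖p.π (Y b)‖) := by
  let Λ := {q : A × Finset β // ((∃ c, j c = q.1) ∧ 0 ≤ q.1) ∧ r ≤ q.2.card ∧
    ∀ c ∈ q.2, Gen q.1 (a c)}
  choose F v v1 v2 using fun b => hT.cover (Λ := Option Λ) (fun o => o.elim (y b) fun l => l.1.1)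
    (by rintro (_ | l); exacts [hy b, l.2.1]) (hs b).2 (η := 1 / 4) (by norm_num) fun p hp h => by
      by_cases h0 : p.π (y b) = 0
      · obtain ⟨w, w1, w2, w3, w4⟩ := hp.prod hj (hs b).1 (norm_pos_iff.1 (by linarith))
          (Finset.univ.filter fun b => p.π (a b) ≠ 0) a fun i hi => (Finset.mem_filter.1 hi).2
        exact ⟨some ⟨(w, _), ⟨w1, w2⟩, not_lt.1 fun h1 => H p hp h1 b h h0, w4⟩, w3⟩
      · exact ⟨none, h0⟩
  have hZ : ∀ (i : β × Λ) (c : β), ∃ Z, Bub Z ∧ Gen Z (v i.1 (some i.2)) ∧ (1 - a' c) * Z = 0 ∧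
      (c ∈ i.2.1.2 → Gen (v i.1 (some i.2)) Z) := fun i c => by
    by_cases h : c ∈ i.2.1.2
    · obtain ⟨Z, z1, -, z2, z3, -, z4⟩ := (v1 i.1 (some i.2)).1.her
        ((v1 i.1 (some i.2)).2.trans (i.2.2.2.2 c h))
      exact ⟨Z, z1, z2, z4 _ (by rw [sub_mul, aa, one_mul, sub_self]), fun _ => z3⟩
    · exact ⟨0, Bub.zero, fun p _ => map_zero _, mul_zero _, fun h' => (h h').elim⟩
  choose Z Z1 Z2 Z3 Z4 using hZ
  let G : Finset (β × Λ) := Finset.univ ×ˢ Finset.univ.biUnion fun b => (F b).eraseNone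
  obtain ⟨V1, V2⟩ := Bub.sum G (v := fun i => v i.1 (some i.2)) fun i _ => (v1 _ _).1
  have Y1 := fun c => Bub.sum G (v := fun i => Z i c) fun i _ => Z1 i c
  have Y2 := fun c => (Y1 c).1.tiers one_pos (m := 0) (by simp)
  refine ⟨∑ i ∈ G, v i.1 (some i.2), fun c => cfc (rp 1 0) (∑ i ∈ G, Z i c), ?_,
    fun c => ⟨norm_le_one_of (rp_unit _ _ _).1 (rp_unit _ _ _).2, (Y2 c).2.2.trans fun p hp => ?_,
      ?_⟩, fun p hp => ⟨fun h0 b hb => ?_, fun h0 b hb => ?_⟩⟩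
  · exact sum_mem (S := NonUnitalStarAlgHom.range j) fun i _ => (v1 _ _).2.mem hj i.2.2.1.1
  · rw [map_sum]
    exact Finset.sum_eq_zero fun i hi => Z2 i c p (V2 i hi p hp)
  · have := mul_cfc_eq_zero (Y1 c).1.1.isSelfAdjoint (y := 1 - a' c) (by
      rw [Finset.mul_sum]; exact Finset.sum_eq_zero fun i _ => Z3 i c) (rp_cont 1 0)
      (by simp [rp, cl])
    rw [sub_mul, one_mul, sub_eq_zero] at this
    exact this.symm
  · obtain ⟨_ | l, l1, l2⟩ := v2 b p hb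
    · exact fun h => l2 ((v1 b none).2 p h)
    · exact (l2 (V2 (b, l) (Finset.mem_product.2 ⟨Finset.mem_univ _, Finset.mem_biUnion.2
        ⟨b, Finset.mem_univ _, Finset.mem_eraseNone.2 l1⟩⟩) p h0)).elim
  · rw [map_sum] at h0
    obtain ⟨i, i1, i2⟩ := Finset.exists_ne_zero_of_sum_ne_zero h0
    have e : i.2.1.2 = Finset.univ.filter fun b => p.π (a b) ≠ 0 :=
      Finset.eq_of_subset_of_card_le (fun c hc => Finset.mem_filter.2 ⟨Finset.mem_univ _,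
        fun h => i2 ((v1 _ _).2 p (i.2.2.2.2 c hc p h))⟩) (hp.trans i.2.2.2.1)
    exact (Y2 b).1.2 p fun h => i2 (Z4 i b (e ▸ Finset.mem_filter.2 ⟨Finset.mem_univ _, hb⟩) p
      ((Y1 b).2 i i1 p ((Y2 b).2.1 p h)))

/-- `a` cut down by a tier of `t` -/
noncomputable def cutT {B : Type*} [CStarAlgebra B] (m : ℕ) (t a : B) : B :=
  cfc (rp (1 / 16) m) t * a * cfc (rp (1 / 16) m) t

lemma hom_cutT {B B' : Type*} [CStarAlgebra B] [CStarAlgebra B'] (π : B →⋆ₐ[ℂ] B') (m : ℕ) {t : B}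
    (ht : IsSelfAdjoint t) (a : B) : π (cutT m t a) = cutT m (π t) (π a) := by
  simp only [cutT, map_mul, hom_cfc π (rp_cont _ _) ht]

lemma cutT_nonneg (m : ℕ) (t : A) {a : A} (a0 : 0 ≤ a) : 0 ≤ cutT m t a := by
  simpa only [cutT, IsSelfAdjoint.cfc.star_eq] using
    star_left_conjugate_nonneg a0 (cfc (rp (1 / 16) m) t)

lemma Idl.cutT_mem (hj : Idl j) {m : ℕ} (hm : 0 < m) {t : A} (ht : ∃ c, j c = t) (a : A) :
    ∃ c, j c = cutT m t a := by
  obtain ⟨c, hc⟩ := hj.cfc_mem ht (rp_cont (1 / 16) m) (rp_zero (by norm_num) hm (by norm_num))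
  rw [cutT, ← hc]
  exact hj.left _ c

open Classical in
lemma TD.wall_ind (hT : TD j) (hj : Idl j) {β ι ρ : Type} [Fintype β] [Finite ι] [Finite ρ]
    (a a' : β → A) (a0 : ∀ b, 0 ≤ a b) (a1 : ∀ b, 0 ≤ a' b) (aa : ∀ b, a' b * a b = a b)
    (T : ι → UA A) (R : ρ → UA A) (hR : ∀ r, R r ∈ Iw j) (n : ℕ) :
    ∃ t ∈ Lf j, 0 ≤ t ∧ t ≤ 1 ∧ Ult.mk t ∈ Cn (Set.range T) ∧ (∀ r, Ult.mk t * R r = R r) ∧
      ∀ᶠ k in (om : Filter ℕ), ∀ p : Pt A, Prm p →
        (Finset.univ.filter fun b => p.π (a b) ≠ 0).card < n →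
        ∀ b, 1 / 4 ≤ ‖p.π (cutT 2 (Bdd.ev k t) (a b))‖ →
          p.π (cfc (rp (1 / 4) 2) (cutT 15 (Bdd.ev k t) (a' b))) ≠ 0 := by
  have q0 : (0 : ℝ) < 1 / 4 := by norm_num
  induction n with
  | zero =>
    obtain ⟨t, t1, t2, t0, t3, t4⟩ := hj.tier T R hR
    obtain ⟨t, a1, a2, a3, rfl⟩ := hj.unit_lift t2 t0 (le_one_of_norm t0 t1)
    exact ⟨t, a1, a2, a3, t3, t4, Eventually.of_forall fun k p _ h => (Nat.not_lt_zero _ h).elim⟩
  | succ n ih =>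
    obtain ⟨t, t1, t0, t2, t3, t4, t5⟩ := ih
    have st : ∀ k, ∃ (V : A) (Y : β → A), (∃ c, j c = V) ∧
        (∀ b, ‖Y b‖ ≤ 1 ∧ Gen (Y b) V ∧ a' b * Y b = Y b) ∧ ((∀ p : Pt A, Prm p →
        (Finset.univ.filter fun b => p.π (a b) ≠ 0).card < n →
        ∀ b, 1 / 4 ≤ ‖p.π (cutT 2 (Bdd.ev k t) (a b))‖ →
          p.π (cfc (rp (1 / 4) 2) (cutT 15 (Bdd.ev k t) (a' b))) ≠ 0) →
        ∀ p : Pt A, (Finset.univ.filter fun b => p.π (a b) ≠ 0).card ≤ n →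
        (p.π V = 0 → ∀ b, 1 / 4 ≤ ‖p.π (cutT 2 (Bdd.ev k t) (a b))‖ →
          p.π (cfc (rp (1 / 4) 2) (cutT 15 (Bdd.ev k t) (a' b))) ≠ 0) ∧
        (p.π V ≠ 0 → ∀ b, p.π (a b) ≠ 0 → 1 ≤ ‖p.π (Y b)‖)) := fun k => by
      refine (_root_.em _).elim (fun H => ?_) fun H => ⟨0, 0, ⟨0, map_zero _⟩,
        fun b => ⟨by simp, Gen.refl _, mul_zero _⟩, fun h => (H h).elim⟩
      obtain ⟨V, Y, h1, h2, h3⟩ := hT.wall_stage hj a a' _ _ aa
        (fun b => ⟨hj.cutT_mem two_pos (t1 k) _, cutT_nonneg _ _ (a0 b)⟩)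
        (fun b => ⟨hj.cfc_mem (hj.cutT_mem (by norm_num) (t1 k) _) (rp_cont _ _)
          (rp_zero q0 two_pos q0.le), (rp_unit _ _ _).1⟩) H
      exact ⟨V, Y, h1, h2, fun _ => h3⟩
    choose V Y V1 Y1 Y2 using st
    let Y' : β → BA A := fun b => Bdd.of (fun k => Y k b) 1 fun k => (Y1 k b).1
    obtain ⟨σ, σ0, σ1, σ2, σ3, σ4⟩ := tierG V (fun o : Option ι => o.elim (Ult.mk t) T) Y'
      fun b k => (Y1 k b).2.1
    have u0 : 0 ≤ 1 - t := sub_nonneg.2 t2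
    have U0 : 0 ≤ 1 - Ult.mk t := by simpa using hom_nonneg Ult.mk u0
    have c0 : 0 ≤ sq (1 - t) * σ * sq (1 - t) := by
      simpa only [sq_star] using star_left_conjugate_nonneg σ0 (sq (1 - t))
    have e1 : Ult.mk (t + sq (1 - t) * σ * sq (1 - t)) =
        Ult.mk t + (1 - Ult.mk t) * Ult.mk σ := by
      have c : Commute (sq (1 - Ult.mk t)) (Ult.mk σ) :=
        ((Commute.one_left _).sub_left (Cn_comm σ3 ⟨none, rfl⟩).symm).cfc_real _
      rw [map_add, map_mul, map_mul, sq, hom_cfc _ Real.continuous_sqrt u0.isSelfAdjoint, map_sub,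
        map_one, ← sq, mul_assoc, ← c.eq, ← mul_assoc, sq_mul_sq U0]
    have s0 := add_nonneg t0 c0
    have e2 : ∀ b, Ult.mk (cutT 15 (t + sq (1 - t) * σ * sq (1 - t)) (cst (a' b)) * Y' b - Y' b) =
        0 := fun b => by
      have h1 : cfc (rp (1 / 16) 15) (Ult.mk (t + sq (1 - t) * σ * sq (1 - t))) * Ult.mk (Y' b) =
          Ult.mk (Y' b) := cfc_mul_eq_self (hom_nonneg _ s0).isSelfAdjoint (by
        rw [e1, add_mul, mul_assoc, σ4, ← add_mul, add_sub_cancel, one_mul]) (rp_cont _ _)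
        (cl_of_one_le (by norm_num))
      have h2 : cst (a' b) * Y' b = Y' b := Bdd.ext fun k => by simpa [Y'] using (Y1 k b).2.2
      rw [map_sub, map_mul, hom_cutT _ _ s0.isSelfAdjoint, cutT, mul_assoc, h1, mul_assoc,
        ← map_mul, h2, h1, sub_self]
    have e4 := eventually_all.2 fun b => Ult.eventually_lt (r := 1 / 2)
      (((congrArg norm (e2 b)).trans norm_zero).trans_lt one_half_pos)
    refine ⟨t + sq (1 - t) * σ * sq (1 - t), add_mem t1 (hj.Lf_both _ _ fun k =>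
      (σ2 k).mem hj (V1 k)), s0, ?_, ?_, fun r => ?_, (t5.and e4).mono
        fun k ⟨h1, h2⟩ p hp h3 b hb => ?_⟩
    · have := star_left_conjugate_le_conjugate σ1 (sq (1 - t))
      rw [sq_star, mul_one, sq_mul_sq u0] at this
      exact le_sub_iff_add_le'.1 this
    · rw [e1]
      exact add_mem t3 (mul_mem (sub_mem (one_mem _) t3) (Cn_mono (by
        rintro _ ⟨i, rfl⟩; exact ⟨some i, rfl⟩) σ3))
    · have c : Commute (1 - Ult.mk t) (Ult.mk σ) :=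
        (Commute.one_left _).sub_left (Cn_comm σ3 ⟨none, rfl⟩).symm
      rw [e1, c.eq, add_mul, mul_assoc, sub_mul, t4, one_mul, sub_self, mul_zero, add_zero]
    · obtain ⟨k1, k2⟩ := Y2 k h1 p (Nat.lt_succ_iff.1 h3)
      have s1 := (hom_nonneg (Bdd.ev k) s0).isSelfAdjoint
      have s2 := (hom_nonneg (Bdd.ev k) t0).isSelfAdjoint
      by_cases h0 : p.π (V k) = 0
      · have e3 : p.π (Bdd.ev k (t + sq (1 - t) * σ * sq (1 - t))) = p.π (Bdd.ev k t) := by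
          simp only [map_add, map_mul, σ2 k p h0, mul_zero, zero_mul, add_zero]
        have := k1 h0 b (by rwa [hom_cutT _ _ s1, e3, ← hom_cutT _ _ s2] at hb)
        rwa [hom_cfc _ (rp_cont _ _) (cutT_nonneg _ _ (a1 b)).isSelfAdjoint, hom_cutT _ _ s1, e3,
          ← hom_cutT _ _ s2, ← hom_cfc _ (rp_cont _ _) (cutT_nonneg _ _ (a1 b)).isSelfAdjoint]
      · have k3 := k2 h0 b fun h => by
          rw [cutT, map_mul, map_mul, h, mul_zero, zero_mul, norm_zero] at hb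
          linarith
        rw [Ne, p.rp_eq_zero q0 2 (cutT_nonneg _ _ (a1 b))]
        intro h
        have k4 := (hom_norm_le p.π _).trans_lt (h2 b)
        rw [map_sub, map_mul, hom_cutT _ _ s0.isSelfAdjoint, map_sub, map_mul] at k4
        simp only [Y', Bdd.ev_of, ev_cst] at k4
        generalize p.π (cutT 15 _ (a' b)) = z at h k4
        have k5 := norm_sub_norm_le (p.π (Y k b)) (z * p.π (Y k b))
        have k6 := norm_mul_le_of_le h (le_refl ‖p.π (Y k b)‖)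
        rw [norm_sub_rev] at k5
        push_cast at k6
        linarith

theorem TD.wall (hT : TD j) (hj : Idl j) {β ι ρ : Type} [Finite β] [Finite ι] [Finite ρ]
    (a a' : β → A) (a0 : ∀ b, 0 ≤ a b) (a1 : ∀ b, 0 ≤ a' b) (aa : ∀ b, a' b * a b = a b)
    (T : ι → UA A) (hT' : ∀ b, dg (a' b) ∈ Set.range T) (R : ρ → UA A) (hR : ∀ r, R r ∈ Iw j) :
    ∃ t ∈ Lf j, 0 ≤ t ∧ t ≤ 1 ∧ Ult.mk t ∈ Cn (Set.range T) ∧ (∀ r, Ult.mk t * R r = R r) ∧
      ∀ᶠ k in (om : Filter ℕ), ∀ b,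
        Gen (cfc (rp (1 / 4) 1) (cfc (rp (1 / 16) 2) (Bdd.ev k t) * a b *
            cfc (rp (1 / 16) 2) (Bdd.ev k t)))
          (cfc (rp (1 / 4) 2) (cfc (rp (1 / 16) 15) (Bdd.ev k t) * a' b *
            cfc (rp (1 / 16) 15) (Bdd.ev k t))) := by
  classical
  haveI := Fintype.ofFinite β
  obtain ⟨t, t1, t0, t2, t3, t4, t5⟩ := hT.wall_ind hj a a' a0 a1 aa T R hR (Fintype.card β + 1)
  refine ⟨t, t1, t0, t2, t3, t4, t5.mono fun k hk b => Gen.of_prm fun p hp h => ?_⟩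
  refine (p.rp_eq_zero (by norm_num) 1 (cutT_nonneg 2 _ (a0 b))).2 (le_of_not_ge fun h' => ?_)
  exact hk p hp (Nat.lt_succ_of_le (Finset.card_le_univ _)) b (by simpa using h') h

end Pool.Agent.Lib.MP_30b5b4_an
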