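import Pool.Agent.Lib.MP_30b5b4_an.T.In
import Pool.Agent.Lib.MP_30b5b4_an.T.TB
import Pool.Agent.Lib.MP_30b5b4_an.S2

/-! The middle layer. -/

open scoped CStarAlgebra ComplexOrder Topology
open Filter

set_option linter.unusedSectionVars false
set_option linter.style.haveILetI false
set_option linter.unusedVariables false
set_option linter.unusedSimpArgs false
set_option synthInstance.maxSize 1000000

namespace Pool.Agent.Lib.MP_30b5b4_an

universe u v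

variable {J : Type*} {A : Type u} [NonUnitalCStarAlgebra J] [PartialOrder J] [StarOrderedRing J]
  [CStarAlgebra A] [PartialOrder A] [StarOrderedRing A] {j : J →⋆ₙₐ[ℂ] A} {N : ℕ}

theorem TD.mid (hT : TD j) (hj : Idl j) {n : ℕ}
    (hA : Ap (NonUnitalStarAlgHom.id ℂ A) (n + 1) False)
    (hs : ∀ a : A, (∃ c, j c = a) → 0 ≤ a → a ≤ 1 → HS (dg a)) {σ ρ : Type} [Finite σ] [Finite ρ]
    {N N' M : ℕ} (hN : 2 ≤ N) (hM : 0 < M) {δ η : ℝ} (hδ : 0 < δ) (hη : 0 < η) (S : σ → A)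
    (S1 : ∀ l, ‖S l‖ ≤ 1) (e : Fin N → CA A) (f : Fin (N' + 1) → CA A) (R : ρ → A)
    (hR : ∀ r, ∃ c, j c = R r) : MidP M δ (5 * η) (fun l => dg (S l)) (fun i _ => e i)
      (fun i _ => f i) fun r => dg (R r) := by
  classical
  let P := Fin N × Fin M × Fin (N' + 1)
  haveI : Nonempty P := ⟨(⟨0, by omega⟩, ⟨0, hM⟩, 0)⟩
  have U : ∀ i, MU (f i).F := fun i => (exists_MU _).some
  let φ : ∀ i, (f i).F →ₗ[ℂ] UA A := fun i => lin dg ∘ₗ (f i).φ
  have φ0 : ∀ i, OZ (φ i) := fun i => (f i).oz.map dg fun _ => rfl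
  let D : (Σ i, Fin (U i).N) → A := fun b => (U b.1).blk (f b.1).φ b.2
  have D0 : ∀ b, IsSelfAdjoint (D b) := fun b => (MU.blk_nonneg (f b.1).oz b.2).isSelfAdjoint
  have D1 : ∀ b m, dg (cfc (rp δ m) (D b)) = cfc (rp δ m) ((U b.1).blk (φ b.1) b.2) := fun b m =>
    hom_cfc dg (rp_cont _ _) (D0 b)
  have hδ' : 0 < δ / 2 := by positivity
  let a : (Σ i, Fin (U i).N) → A := fun b => cfc (rp (δ / 2) 5) (D b)
  let a' : (Σ i, Fin (U i).N) → A := fun b => cfc (rp (δ / 2) 4) (D b)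
  let T0 : σ ⊕ (Σ i, Fin (Module.finrank ℂ (e i).F)) ⊕ (Σ i, Fin (Module.finrank ℂ (f i).F)) →
      UA A := Sum.elim (fun l => dg (S l)) (Sum.elim
    (fun p => dg ((e p.1).φ (Module.finBasis ℂ _ p.2))) fun p => φ p.1 (Module.finBasis ℂ _ p.2))
  have key : ∀ Q : StarSubalgebra ℂ (UA A), (∀ l, T0 l ∈ Q) → (∀ l, dg (S l) ∈ Q) ∧
      (∀ i y, dg ((e i).φ y) ∈ Q) ∧ ∀ i y, φ i y ∈ Q := fun Q h => ⟨fun l => h (.inl l),
    fun i => mem_of_basis (lin dg ∘ₗ (e i).φ) fun l => h (.inr (.inl ⟨i, l⟩)),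
    fun i => mem_of_basis (φ i) fun l => h (.inr (.inr ⟨i, l⟩))⟩
  have key' : ∀ {x : UA A}, x ∈ Cn (Set.range T0) → x ∈ Cn (Set.range fun l => dg (S l)) ∧
      (∀ i y, Commute x (dg ((e i).φ y))) ∧ ∀ i y, Commute x (φ i y) := fun {x} h => by
    obtain ⟨-, h2, h3⟩ := key (Cn {x}) fun l => mem_Cn.2 (by
      simpa using ⟨Cn_comm h ⟨l, rfl⟩, Cn_comm (star_mem h) ⟨l, rfl⟩⟩)
    exact ⟨Cn_mono (by rintro _ ⟨l, rfl⟩; exact ⟨.inl l, rfl⟩) h,
      fun i y => (Cn_comm (h2 i y) rfl).symm, fun i y => (Cn_comm (h3 i y) rfl).symm⟩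
  obtain ⟨t', t2, t0', t1', t3', t4, hw⟩ := hT.wall hj a a' (fun b => (rp_unit _ _ _).1)
    (fun b => (rp_unit _ _ _).1) (fun b => rp_tier (by norm_num) _)
    (Sum.elim T0 fun b => dg (a' b)) (fun b => ⟨.inr b, rfl⟩) (fun r => dg (R r)) fun r => by
      obtain ⟨c, hc⟩ := hR r
      simpa only [← hc] using dg_mem_Iw c
  obtain ⟨s, s1, w, w1, G, G1, G3, G4, G5⟩ := innerQ_seq hj hA hs P
    (fun o : Option _ => o.elim (Ult.mk t') T0) t2 t0' t1' a a' (fun b => (rp_unit _ _ _).1)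
    (fun b => (rp_unit _ _ _).1) hw
  have t0 : 0 ≤ Ult.mk t' := hom_nonneg _ t0'
  generalize Ult.mk t' = t at *
  have t3 : t ∈ Cn (Set.range T0) := Cn_mono (by rintro _ ⟨l, rfl⟩; exact ⟨.inl l, rfl⟩) t3'
  have ts := t0.isSelfAdjoint
  have t6 : ∀ g : ℝ → ℝ, cfc g t ∈ Cn (Set.range T0) := fun g => cfc_mem_cl (Cn_closed _) g t3
  have t7' : ∀ (g : ℝ → ℝ) b δ' m, Commute (cfc g t) (dg (cfc (rp δ' m) (D b))) :=
    fun g b δ' m => by
      rw [hom_cfc dg (rp_cont _ _) (D0 b)]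
      exact (((key' (t6 g)).2.2 _ _).symm.cfc_real _).symm
  have t7 : ∀ (g : ℝ → ℝ) b m, Commute (cfc g t) (dg (cfc (rp δ m) (D b))) := fun g b m =>
    t7' g b δ m
  let y : (Σ i, Fin (U i).N) → UA A := fun b =>
    cfc (rp (1 / 16) 15) t * dg (a' b) * cfc (rp (1 / 16) 15) t
  let z : (Σ i, Fin (U i).N) → UA A := fun b =>
    cfc (rp (1 / 16) 2) t * dg (a b) * cfc (rp (1 / 16) 2) t
  have sa : ∀ {c d : UA A}, IsSelfAdjoint c → IsSelfAdjoint d → IsSelfAdjoint (c * d * c) :=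
    fun hc hd => by rw [IsSelfAdjoint, star_mul, star_mul, hc.star_eq, hd.star_eq, mul_assoc]
  have y0 : ∀ b, IsSelfAdjoint (y b) := fun b =>
    sa IsSelfAdjoint.cfc (hom_nonneg dg (rp_unit _ _ _).1).isSelfAdjoint
  have z0' : ∀ b, IsSelfAdjoint (z b) := fun b =>
    sa IsSelfAdjoint.cfc (hom_nonneg dg (rp_unit _ _ _).1).isSelfAdjoint
  set q := uT G 1 with hq
  set x := cfc (rp (1 / 16) 3) t with hx
  have q0 : 0 ≤ q := (uT_cp G).one_nonneg
  have q1 : q ≤ 1 := (uT_one_le G).trans (uφ_one G)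
  have cq : ∀ {b}, b ∈ VS G → Commute q b := fun hb =>
    (Vis.of_VS hb).1.symm.trans (Vis.of_VS hb).2
  have q2 : q ∈ Cn (Set.range T0) := mem_Cn.2 (by
    rintro _ ⟨l, rfl⟩
    exact ⟨(cq (G1 (some l))).symm, (cq (star_mem (G1 (some l)))).symm⟩)
  have vt : ∀ g : ℝ → ℝ, cfc g t ∈ VS G := fun g => cfc_mem_cl (VS_closed _) g (G1 none)
  obtain ⟨v1, v2, v3⟩ := key (VS G) fun l => G1 (some l)
  have s2 : ∀ p, s p ∈ Cn (insert t (Set.range T0)) := fun p => Cn_mono (by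
    rintro _ (rfl | ⟨l, rfl⟩)
    exacts [⟨none, rfl⟩, ⟨some l, rfl⟩]) (G3 p).2.2
  obtain ⟨μ, μ0, μ1, μ2⟩ := weights (M := M) (N' := N' + 1) hN
  let i₀ : Fin N := ⟨0, by omega⟩
  let u : Fin N → UA A := fun i => ∑ p, μ i p • s p + if i = i₀ then 1 - ∑ p, s p else 0
  have u0 : ∀ i, 0 ≤ u i := fun i => add_nonneg
    (Finset.sum_nonneg fun p _ => smul_nonneg (μ0 i p) (G3 p).2.1) (by
      split_ifs
      exacts [sub_nonneg.2 G4, le_rfl])
  have u1 : ∑ i, u i = 1 := by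
    simp only [u, Finset.sum_add_distrib]
    rw [Finset.sum_comm]
    simp only [← Finset.sum_smul, μ1, one_smul, Finset.sum_ite_eq', Finset.mem_univ, if_true]
    exact add_sub_cancel _ _
  have u2 : ∀ i, u i ≤ 1 := fun i => u1 ▸ Finset.single_le_sum (fun i _ => u0 i) (Finset.mem_univ i)
  have u3 : ∀ Q : StarSubalgebra ℂ (UA A), (∀ p, s p ∈ Q) → ∀ i, u i ∈ Q := fun Q h i =>
    add_mem (sum_mem fun p _ => by rw [← Complex.coe_smul]; exact SMulMemClass.smul_mem _ (h p)) (by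
      split_ifs
      exacts [sub_mem (one_mem _) (sum_mem fun p _ => h p), zero_mem _])
  have u4 := fun i => key' (Cn_mono (Set.subset_insert _ _) (u3 _ s2 i))
  have u5 : ∀ i, Commute t (u i) := fun i => (Cn_comm (u3 _ s2 i) (Or.inl rfl)).symm
  have u6 := u3 _ fun p => (G3 p).1
  let w' : (Σ i, Fin (U i).N) → P → UA A := w
  have x1 := key' (mul_mem (sub_mem (one_mem _) q2) (t6 (rp (1 / 16) 3)))
  have w2 : ∀ b p, ‖w' b p‖ ≤ 1 ∧ q * w' b p = w' b p ∧ cfc fa t * w' b p = w' b p ∧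
      dg (cfc (rp δ 1) (D b)) * w' b p = w' b p ∧
      (∀ p', s p' * w' b p = if p' = p then w' b p else 0) ∧
      star (w' b p) * w' b p * ((1 - q) * x * dg (cfc (rp δ 3) (D b))) =
        (1 - q) * x * dg (cfc (rp δ 3) (D b)) := fun b p => by
    obtain ⟨a1, a2, a3, a4⟩ := G5 b p
    have a5 : ∀ c, c * y b = y b → c * w b p = w b p := fun c hc => by
      rw [← a2, ← mul_assoc, unit_cfc (y0 b) hc (rp_cont _ _)
        (rp_zero (by norm_num) one_pos (by norm_num))]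
    have a6 : z b * (x * dg (cfc (rp δ 3) (D b))) = x * dg (cfc (rp δ 3) (D b)) := by
      simp only [z, a, hx]
      rw [mul_assoc, ← mul_assoc (cfc _ t), rp_tier (by norm_num), mul_assoc, ← mul_assoc (dg _),
        ← (t7' _ _ _ _).eq, mul_assoc, ← map_mul, rp_mix hδ' hδ (by push_cast; linarith),
        ← mul_assoc, rp_tier (by norm_num)]
    have a7 := cfc_mul_eq_self (z0' b) a6 (rp_cont (1 / 4) 3) (cl_of_one_le (by norm_num))
    refine ⟨w1 _ _, a1, a5 _ (by simp only [y]; rw [← mul_assoc, ← mul_assoc, fr_y]), a5 _ ?_, a4,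
      ?_⟩
    · simp only [y, a']
      rw [← mul_assoc, ← mul_assoc, ← (t7 _ _ _).eq, mul_assoc (cfc _ t), ← map_mul,
        rp_mix hδ hδ' (by push_cast; linarith)]
    · rw [mul_assoc (1 - q), ← a7, ← mul_assoc (1 - q), ← mul_assoc _ (_ * _), a3]
  let ω : ∀ p : P, Fin (U p.2.2).N → UA A := fun p b =>
    w' ⟨_, b⟩ p * dg (cfc (rp δ 2) (D ⟨_, b⟩))
  have r0 : ∀ t, t ≤ δ → rp δ 1 t = 0 := fun t ht => rp_zero hδ one_pos ht
  have L1 : ∀ p, (U p.2.2).Loc (φ _) δ (ω p) := fun p =>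
    (MU.Loc.of (φ0 _) hδ (rp_cont δ 1) r0 fun b => by
      rw [← D1 ⟨_, b⟩]; exact (w2 ⟨_, b⟩ p).2.2.2.1).mul
  have L2 : ∀ p, (U p.2.2).Loc (φ _) δ fun b => star (ω p b) := fun p =>
    MU.Loc.of (φ0 _) hδ (rp_cont δ 1) r0 fun b => by
      simp only [ω, star_mul, D1, IsSelfAdjoint.cfc.star_eq]
      rw [← mul_assoc, rp_tier (by norm_num)]
  let W : P → UA A := fun p => (U p.2.2).amp (φ _) δ (ω p)
  have W1 : ∀ {c : UA A} (r : ℝ) p, (∀ y, Commute c (φ p.2.2 y)) →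
      (∀ b, c * w' b p = r • w' b p) → c * W p = r • W p := fun r p h1 h2 => by
    simp only [W, ω]
    rw [MU.mul_amp h1, ← MU.amp_smul]
    simp only [← mul_assoc, h2, smul_mul_assoc]
  have W2 : ∀ p p', s p' * W p = (if p' = p then (1 : ℝ) else 0) • W p := fun p p' =>
    W1 _ p ((key' (Cn_mono (Set.subset_insert _ _) (s2 p'))).2.2 _) fun b => by
      rw [(w2 b p).2.2.2.2.1]; split_ifs <;> simp
  have W3 : ∀ p (a : A), Commute (W p) (cf (Gf δ) (uφ (fun _ => f p.2.2) 1) *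
      uT (fun _ => f p.2.2) (dg a)) := fun p a => by
    rw [cf_eq _ (uφ_oz _).cp.one_nonneg.isSelfAdjoint, uφ_const_one, uT_const]
    exact MU.amp_comm (φ0 _) (L1 p) (L2 p) _
  choose d hd using fun i => merge_one (e i) G ts (u0 i) (u2 i) (G1 none) (u6 i)
    (v2 i) ((key' t3).2.1 i) ((u4 i).2.1 i) (u5 i) hη
  have K0 := fr_sum ts
  have a0 : 0 ≤ cfc fa t * cfc fa t := sq_nonneg_sa (cfc_nonneg fun _ _ => Real.sqrt_nonneg _)
  have m0 : 0 ≤ cfc fm t * cfc fm t := sq_nonneg_sa (cfc_nonneg fun _ _ => Real.sqrt_nonneg _)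
  have b0 : 0 ≤ cfc fb t * cfc fb t := sq_nonneg_sa (cfc_nonneg fun _ _ => Real.sqrt_nonneg _)
  have K1 := (le_add_of_nonneg_right b0).trans_eq K0
  have c0 : ∀ (g : ℝ → ℝ) {z}, Commute t z → Commute (cfc g t * cfc g t) z := fun g _ h =>
    (h.cfc_real g).mul_left (h.cfc_real g)
  have h0 : ∀ i, uT (fun _ => e i) 1 = dg ((e i).φ ((e i).ψ 1)) := fun i => by
    rw [← map_one dg, uT_const]; rfl
  have z0 := mul_unit (sub_nonneg.2 q1) (sub_le_self _ q0) (rp_unit (1 / 16) 3 t).1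
    (rp_unit _ _ _).2 ((Commute.one_left _).sub_left (cq (vt _)))
  refine ⟨cfc fa t * cfc fa t, norm_le_one_of a0 ((le_add_of_nonneg_right m0).trans K1),
    cfc fm t * cfc fm t, norm_le_one_of m0 ((le_add_of_nonneg_left a0).trans K1), q,
    norm_le_one_of q0 q1, (1 - q) * x, norm_le_one_of z0.1 z0.2, u,
    fun i => norm_le_one_of (u0 i) (u2 i), W, fun p => MU.amp_norm (φ0 _) hδ (L1 p) zero_le_one
      fun b => (norm_mul_le _ _).trans (mul_le_one₀ (w2 _ p).1 (norm_nonneg _) ((norm_dg _).trans_le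
        (norm_le_one_of (rp_unit _ _ _).1 (rp_unit _ _ _).2))), d,
    ⟨a0, m0, K1, q0, c0 _ (c0 _ (Commute.refl t)).symm, cq (mul_mem (vt _) (vt _)),
      cq (mul_mem (vt _) (vt _))⟩,
    ⟨(key' (mul_mem (t6 _) (t6 _))).1, (key' (mul_mem (t6 _) (t6 _))).1, (key' q2).1⟩,
    fun i => ?_, u1, fun r => ?_, ⟨?_, ?_, fun i => ?_⟩, fun p => ⟨?_, ?_, ?_, fun p' hp => ?_, ?_,
      by simpa only [map_one] using W3 p 1, fun l => ⟨W3 p _,
        by simpa only [map_star] using W3 p (star (S l))⟩⟩, fun i l => ?_⟩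
  · rw [h0]
    exact ⟨u0 i, (u4 i).1, c0 _ (u5 i), c0 _ (u5 i), cq (u6 i), c0 _ ((key' t3).2.1 i _),
      c0 _ ((key' t3).2.1 i _), cq (v2 i _), (u4 i).2.1 i _⟩
  · have a1 := cfc_mul_eq_self ts (t4 r) fa_cont (f_high (by norm_num)).1
    have a2 := cfc_mul_eq_zero' ts (t4 r) fm_cont (f_high (by norm_num)).2
    exact ⟨by rw [mul_assoc, a1, a1], by rw [mul_assoc, a2, mul_zero]⟩
  · rw [mul_assoc, ← mul_assoc x, (fr_x t).1]
  · rw [mul_assoc, ← mul_assoc x, (fr_x t).2]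
  · have := uT_const (f i) 1
    rw [map_one] at this
    rw [this]
    exact (x1.2.2 i _).symm
  · simpa using W1 1 p ((key' q2).2.2 _) fun b => by rw [(w2 b p).2.1, one_smul]
  · simpa using W1 1 p ((key' (mul_mem (t6 fa) (t6 fa))).2.2 _) fun b => by
      rw [mul_assoc, (w2 b p).2.2.1, (w2 b p).2.2.1, one_smul]
  · rw [← μ2]
    have a1 : ∀ ν : P → ℝ, (∑ p', ν p' • s p') * W p = ν p • W p := fun ν => by
      rw [Finset.sum_mul, Finset.sum_eq_single p (fun p' _ hp => by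
        rw [smul_mul_assoc, W2, if_neg hp, zero_smul, smul_zero]) (by simp), smul_mul_assoc, W2,
        if_pos rfl, one_smul]
    have a2 := a1 fun _ => 1
    simp only [one_smul] at a2
    simp only [u, add_mul, a1, ite_mul, sub_mul, a2, one_mul, sub_self, zero_mul, ite_self,
      add_zero]
    convert a1 _
  · have a1 := congrArg star (W2 p p)
    have a2 := W2 p' p
    rw [if_pos rfl, one_smul, star_mul, (G3 p).2.1.star_eq] at a1
    rw [← a1, mul_assoc, a2, if_neg hp, zero_smul, mul_zero]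
  · rw [cf_eq _ (uφ_oz _).cp.one_nonneg.isSelfAdjoint, uφ_const_one]
    have a1 := MU.amp_cfc (M := U p.2.2) (φ0 _) hδ (rp_cont δ 3) fun t ht =>
      rp_zero hδ (by norm_num) ht
    have a2 : ∀ b, Commute ((1 - q) * x) (dg (cfc (rp δ 3) (D ⟨p.2.2, b⟩))) := fun b => by
      rw [D1]; exact ((x1.2.2 _ _).symm.cfc_real _).symm
    change _ * (_ * cfc (rp δ 3) (φ p.2.2 1)) = _ * cfc (rp δ 3) (φ p.2.2 1)
    simp only [W]
    rw [← a1, MU.mul_amp (x1.2.2 _), MU.amp_star, MU.amp_mul (φ0 _) _ (L1 p), MU.amp_mul (φ0 _) _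
      (MU.Loc.of (φ0 _) hδ (rp_cont δ 1) r0 fun b => by
        rw [← D1 ⟨_, b⟩, ← D1 ⟨_, b⟩, (a2 b).eq, ← mul_assoc, ← map_mul, rp_tier (by norm_num)])]
    congr 1
    funext b
    have a3 : dg (cfc (rp δ 2) (D ⟨p.2.2, b⟩)) * ((1 - q) * x * dg (cfc (rp δ 3) (D ⟨p.2.2, b⟩))) =
        (1 - q) * x * dg (cfc (rp δ 3) (D ⟨p.2.2, b⟩)) := by
      rw [(a2 b).eq, ← mul_assoc, ← map_mul, rp_tier (by norm_num)]
    rw [← D1 ⟨_, b⟩]
    simp only [ω]
    rw [star_mul, ← map_star dg, IsSelfAdjoint.cfc.star_eq, mul_assoc, mul_assoc (w' _ _), a3,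
      mul_assoc (dg _), ← mul_assoc (star _), (w2 _ p).2.2.2.2.2, a3]
  · have := hd i (S l) (v1 l) (Cn_comm (key' t3).1 ⟨l, rfl⟩) (Cn_comm (u4 i).1 ⟨l, rfl⟩)
    rw [uT_const, show 1 - cfc fa t * cfc fa t - cfc fm t * cfc fm t = cfc fb t * cfc fb t by
      rw [← K0]; abel]
    exact this.trans (mul_le_of_le_one_right (by positivity) (S1 l))

end Pool.Agent.Lib.MP_30b5b4_an
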