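import Pool.Agent.Lib.MP_30b5b4_an.S3

/-! The outer layer, from the middle layer. -/

open scoped CStarAlgebra ComplexOrder Topology
open Filter

set_option linter.unusedSectionVars false
set_option linter.style.haveILetI false
set_option linter.unusedVariables false
set_option linter.unusedSimpArgs false
set_option synthInstance.maxSize 1000000

namespace Pool.Agent.Lib.MP_30b5b4_an

universe u v

variable {J : Type*} {A : Type u} [NonUnitalCStarAlgebra J] [PartialOrder J] [StarOrderedRing J]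
  [CStarAlgebra A] [PartialOrder A] [StarOrderedRing A] {j : J →⋆ₙₐ[ℂ] A} {N : ℕ}

theorem Idl.outer {A' : Type v} [CStarAlgebra A'] [PartialOrder A'] [StarOrderedRing A']
    (hj : Idl j) (π : A →⋆ₐ[ℂ] A') (hπ : ∀ a, π a = 0 → ∃ b, j b = a)
    (hπ' : Function.Surjective π) {n : ℕ} (hA : Ap (NonUnitalStarAlgHom.id ℂ A) (n + 1) False)
    (hN : 2 ≤ N) {p : Prop} (hD : Ap (NonUnitalStarAlgHom.id ℂ A') N p)
    (hm : ∀ {σ ρ : Type} [Finite σ] [Finite ρ] {M : ℕ}, 0 < M → ∀ {δ η : ℝ}, 0 < δ → 0 < η →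
      ∀ (S : σ → A), (∀ l, ‖S l‖ ≤ 1) → ∀ (e : Fin N → CA A) (f : Fin (n + 1) → CA A) (R : ρ → A),
      (∀ r, ∃ c, j c = R r) → MidP M δ (5 * η) (fun l => dg (S l)) (fun i _ => e i)
        (fun i _ => f i) fun r => dg (R r)) :
    Ap (NonUnitalStarAlgHom.id ℂ A) N False := by
  classical
  refine Ap.of_ball fun S ε hε hS1 => ?_
  let s : Fin S.card → A := fun l => S.equivFin.symm l
  have s1 : ∀ l, ‖s l‖ ≤ 1 := fun l => hS1 _ (S.equivFin.symm l).2
  obtain ⟨e, e1, e2⟩ := hj.quot_cols π hπ hπ' hD s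
  obtain ⟨f, f1, f2⟩ := hA.vs fun l => dg (s l)
  let R : Option (Fin N × Fin S.card × Bool) → UA A := fun o => o.elim (∑ i, uT (e i) 1 - 1)
    fun p => uT (e p.1) (dg (s p.2.1)) -
      cond p.2.2 (uT (e p.1) 1 * dg (s p.2.1)) (dg (s p.2.1) * uT (e p.1) 1)
  have R0 : ∀ r, R r ∈ Iw j := by
    rintro (_ | ⟨i, l, _ | _⟩)
    exacts [e1, (e2 i l).2, (e2 i l).1]
  choose R' R1 R2 using fun r => mem_Iw.1 (R0 r)
  have N0 : (0 : ℝ) < N := by exact_mod_cast (by omega : 0 < N)
  obtain ⟨M, hM⟩ := exists_nat_gt (24 * N / ε)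
  have M0 : (0 : ℝ) < M := lt_trans (by positivity) hM
  have M1 : 0 < M := by exact_mod_cast M0
  obtain ⟨δ, hδ, δ1⟩ : ∃ δ : ℝ, 0 < δ ∧ Fintype.card (Fin (n + 1)) * (4 * δ) ≤ 1 / 4 :=
    ⟨1 / (16 * (n + 1)), by positivity, by
      rw [Fintype.card_fin]; push_cast; exact le_of_eq (by field_simp; ring)⟩
  have hη : 0 < ε / (10 * N) := by positivity
  haveI := MidP.clo (A := A) (σ := Fin S.card) (ρ := Option (Fin N × Fin S.card × Bool)) (N := N)
    (N' := n + 1) M hδ (5 * (ε / (10 * N)))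
  have h : MidP M δ (5 * (ε / (10 * N))) (fun l => dg (s l)) e f fun r => Ult.mk (R' r) :=
    transfer (fun g : ((Fin S.card → UA A) × (Fin N → ℕ → CA A)) × (Fin (n + 1) → ℕ → CA A) ×
      (Option (Fin N × Fin S.card × Bool) → UA A) =>
        MidP M δ (5 * (ε / (10 * N))) g.1.1 g.1.2 g.2.1 g.2.2)
    (((Stage.pi fun l => Stage.mk (cst (s l))).prod (Stage.pi fun i => Stage.col (e i))).prod
      ((Stage.pi fun i => Stage.col (f i)).prod (Stage.pi fun r => Stage.mk (R' r))))
    (Eventually.of_forall fun k => hm M1 hδ hη s s1 (fun i => e i k)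
      (fun i => f i k) (fun r => Bdd.ev k (R' r)) fun r => R1 r k)
  simp only [R2] at h
  obtain ⟨a, -, m, -, q, q1, z, -, u, -, W, -, d, ⟨a0, m0, am, q0, c1, c2, c3⟩, ⟨n1, n2, n3⟩, hu,
    u1, hR, ⟨z1, z2, z3⟩, hW, hd⟩ := h
  obtain ⟨y, -, y1, y2, y3, y4⟩ := parts f (e := 1) (.one _) (by rw [f1, one_mul])
    (fun i => Commute.one_right _) (by positivity) δ1
  rw [mul_one] at y1
  have i0 := fun i => (uφ_oz (f i)).cp.one_nonneg.isSelfAdjoint
  simp only [cf_eq _ (i0 _)] at hW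
  have y5 : ∀ i, cfc (rp δ 3) (uφ (f i) 1) * y i = y i := fun i => (y2 _ (rp_cont δ 3)
    (fun t ht => cl_of_one_le (by
      have := (le_div_iff₀ hδ).2 ht
      push_cast; linarith)) i).1
  have h0 : ∀ i, 0 ≤ uT (e i) 1 := fun i => (uT_cp _).one_nonneg
  obtain ⟨b, hb⟩ : ∃ b, b = 1 - a - m := ⟨_, rfl⟩
  have b0 : 0 ≤ b := by rw [hb, sub_sub]; exact sub_nonneg.2 am
  have b1 : ∀ {x}, Commute a x → Commute m x → Commute b x := fun h1 h2 =>
    hb ▸ ((Commute.one_left _).sub_left h1).sub_left h2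
  have b2 : b ∈ Cn (Set.range fun l => dg (s l)) := hb ▸ sub_mem (sub_mem (one_mem _) n1) n2
  have b3 : ∀ r, b * R r = 0 := fun r => by
    rw [hb, sub_mul, sub_mul, (hR r).1, (hR r).2, one_mul, sub_self, sub_self]
  have cs : ∀ {c}, c ∈ Cn (Set.range fun l => dg (s l)) → (∀ r, c * R r = 0) → ∀ i l,
      c * uT (e i) (dg (s l)) = c * uT (e i) 1 * dg (s l) ∧ Commute (c * uT (e i) 1) (dg (s l)) :=
    fun {c} h1 h2 i l => by
      have a1 := h2 (some (i, l, true))
      have a2 := h2 (some (i, l, false))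
      simp only [R, Option.elim_some, cond, mul_sub, sub_eq_zero, ← mul_assoc] at a1 a2
      exact ⟨a1, by rw [Commute, SemiconjBy, ← a1, a2, (Cn_comm h1 ⟨l, rfl⟩).eq, mul_assoc]⟩
  let X : Fin N → UA A := fun i => a * u i + m * uT (e i) 1
  have X0 : ∀ i, 0 ≤ X i := fun i => add_nonneg ((hu i).2.2.1.mul_nonneg a0 (hu i).1)
    ((hu i).2.2.2.2.2.2.1.mul_nonneg m0 (h0 i))
  have bh : ∀ i, 0 ≤ b * uT (e i) 1 := fun i =>
    (b1 (hu i).2.2.2.2.2.1 (hu i).2.2.2.2.2.2.1).mul_nonneg b0 (h0 i)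
  have g1 : ∑ i, (X i + b * uT (e i) 1) = 1 := by
    have a1 := (hR none).1
    simp only [R, Option.elim_none, mul_sub, mul_one, sub_eq_iff_eq_add] at a1
    simp only [X, Finset.sum_add_distrib, ← Finset.mul_sum, u1]
    rw [hb, sub_mul, sub_mul, a1, one_mul, mul_one]
    abel
  have key : ∀ i, ∃ d' : ℕ → CA A, ∀ l, ‖uT d' (dg (s l)) - (X i + b * uT (e i) 1) * dg (s l)‖ ≤
      5 * (ε / (10 * N)) + 12 / M := fun i => by
    obtain ⟨u0, u2, au, mu, qu, ah, mh, qh, uh⟩ := hu i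
    have qX : Commute q (X i) := (c2.mul_right qu).add_right (c3.mul_right qh)
    have Xb : Commute (X i) (b * uT (e i) 1) :=
      (((b1 (.refl _) c1.symm).symm.mul_right ah).mul_left
        ((b1 au mu).symm.mul_right uh)).add_left (((b1 c1 (.refl _)).symm.mul_right mh).mul_left
          ((b1 ah mh).symm.mul_right (.refl _)))
    have qb : Commute q (b * uT (e i) 1) := (b1 c2.symm c3.symm).symm.mul_right qh
    have d1 : X i + b * uT (e i) 1 - (q * X i + b * uT (e i) 1) = (1 - q) * X i := by noncomm_ring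
    have d2 : (1 - q) * X i = z * X i := by simp only [X, mul_add, ← mul_assoc, z1, z2]
    have sX : ∀ l, Commute (X i) (dg (s l)) := fun l =>
      (Cn_comm (mul_mem n1 u2) ⟨l, rfl⟩).add_left (cs n2 (fun r => (hR r).2) i l).2
    obtain ⟨U, U1, U2, U3⟩ := levelF (a := q * X i + b * uT (e i) 1) (b := X i + b * uT (e i) 1)
      (add_nonneg (qX.mul_nonneg q0 (X0 i)) (bh i))
      (by
        rw [← sub_nonneg, d1]
        exact ((Commute.one_left _).sub_left qX).mul_nonneg
          (sub_nonneg.2 (le_one_of_norm q0 q1)) (X0 i))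
      ((Finset.single_le_sum (f := fun i => X i + b * uT (e i) 1)
        (fun i _ => add_nonneg (X0 i) (bh i)) (Finset.mem_univ i)).trans_eq g1)
      (((qX.add_right qb).mul_left ((Commute.refl _).add_right Xb)).add_left
        (Xb.symm.add_right (.refl _))) M1 (fun k => ∑ i', W (i, k, i') * y i')
      (fun k => by
        rw [d1, ((Commute.one_left _).sub_left qX).eq, mul_assoc, Finset.mul_sum,
          Finset.sum_eq_zero fun i' _ => ?_, mul_zero]
        rw [← mul_assoc, sub_mul, (hW _).1, one_mul, sub_self, zero_mul])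
      (fun k => by
        rw [d1, d2, ← mul_assoc, star_sum, Finset.sum_mul_sum]
        congr 1
        conv_rhs => rw [← one_mul z, ← y1]
        rw [Finset.sum_mul, Finset.sum_mul]
        refine Finset.sum_congr rfl fun i' _ => ?_
        rw [Finset.sum_eq_single i' (fun i'' _ hi => ?_) (by simp)]
        · rw [star_mul, mul_assoc, mul_assoc, mul_assoc, mul_assoc, (y3 z z3 i').eq, ← y5,
            ← mul_assoc z, ← mul_assoc (W _), ← mul_assoc (star (W _)), ← mul_assoc (star (W _)),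
            (hW (i, k, i')).2.2.2.2.1, y5]
        · rw [star_mul, mul_assoc, ← mul_assoc (star (W _)),
            (hW _).2.2.2.1 _ (by simpa using hi.symm), zero_mul, mul_zero])
      (fun k l hk => by
        rw [star_sum, Finset.sum_mul_sum]
        refine Finset.sum_eq_zero fun i' _ => Finset.sum_eq_zero fun i'' _ => ?_
        rw [star_mul, mul_assoc, ← mul_assoc (star (W _)), (hW _).2.2.2.1 _ (by simp [hk]),
          zero_mul, mul_zero])
      (fun k => by
        rw [Finset.mul_sum, Finset.smul_sum]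
        refine Finset.sum_congr rfl fun i' _ => ?_
        have a1 : X i + b * uT (e i) 1 = u i * a + uT (e i) 1 * (1 - a) := by
          simp only [X, hb, ← au.eq, ← ((Commute.one_left _).sub_left ah).eq]
          noncomm_ring
        rw [← mul_assoc, a1, add_mul, mul_assoc, mul_assoc, sub_mul, (hW _).2.1, one_mul, sub_self,
          mul_zero, add_zero, (hW (i, k, i')).2.2.1, smul_mul_assoc])
    obtain ⟨d', hd'⟩ := uconj (d i) U1.1
    refine ⟨d', fun l => ?_⟩
    have v0 : ∀ i', Vis (f i') (dg (s l)) := fun i' => .of_VS (f2 i' l)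
    have a1 := U2 (dg (s l)) (((Cn_comm n3 ⟨l, rfl⟩).mul_left (sX l)).add_left (cs b2 b3 i l).2)
      ((sX l).add_left (cs b2 b3 i l).2) fun k => ⟨Commute.sum_left _ _ _ fun i' _ =>
        y4 δ hδ _ v0 i' _ (hW _).2.2.2.2.2.1 (by
          rw [sh, mul_assoc, ← (v0 i').1]; exact ((hW (i, k, i')).2.2.2.2.2.2 l).1),
        Commute.sum_left _ _ _ fun i' _ => y4 δ hδ _ (fun i' => (v0 i').star) i' _
          (hW _).2.2.2.2.2.1 (by
            rw [sh, mul_assoc, ← (v0 i').star.1]; exact ((hW (i, k, i')).2.2.2.2.2.2 l).2)⟩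
    have a2 := hd i l
    rw [← hb, (cs n2 (fun r => (hR r).2) i l).1, (cs b2 b3 i l).1, ← add_mul, ← mul_assoc,
      ← add_mul] at a2
    beta_reduce at a2
    have a3 : ‖dg (s l)‖ ≤ 1 := (norm_dg _).trans_le (s1 l)
    generalize dg (s l) = x at a1 a2 a3 ⊢
    have a4 : x * star U = star U * x := by
      rw [← one_mul (x * _), ← U1.1, mul_assoc, ← mul_assoc U, a1.eq, mul_assoc, U1.2, mul_one]
    have a5 : uT d' x - (X i + b * uT (e i) 1) * x =
        U * (uT (d i) x - (q * X i + b * uT (e i) 1) * x) * star U +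
          (U * (q * X i + b * uT (e i) 1) - (X i + b * uT (e i) 1) * U) * star U * x := by
      rw [hd', mul_sub, sub_mul, sub_mul, sub_mul, mul_assoc _ U, U1.2, mul_one,
        mul_assoc _ (star U), ← a4]
      simp only [mul_assoc]
      abel
    rw [a5]
    refine norm_add_le_of_le ?_ ((norm_mul_le_of_le
      ((CStarRing.norm_mul_mem_unitary _ (Unitary.star_mem U1)).trans_le U3) a3).trans_eq (mul_one _))
    rw [CStarRing.norm_mul_mem_unitary _ (Unitary.star_mem U1), CStarRing.norm_mem_unitary_mul _ U1]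
    exact a2
  choose d' hd' using key
  refine sT_finish d' S fun x hx => ?_
  obtain ⟨l, rfl⟩ : ∃ l, s l = x := ⟨S.equivFin ⟨x, hx⟩, by simp [s]⟩
  have a1 : ∑ i, sT (d' i) (s l) - dg (NonUnitalStarAlgHom.id ℂ A (s l)) =
      ∑ i, (uT (d' i) (dg (s l)) - (X i + b * uT (e i) 1) * dg (s l)) := by
    rw [Finset.sum_sub_distrib, ← Finset.sum_mul, g1, one_mul]
    simp only [sT_eq]
    rfl
  rw [a1]
  refine ((norm_sum_le _ _).trans (Finset.sum_le_sum fun i _ => hd' i l)).trans_lt ?_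
  rw [Finset.sum_const, Finset.card_univ, Fintype.card_fin, nsmul_eq_mul, mul_add,
    show (N : ℝ) * (5 * (ε / (10 * N))) = ε / 2 by field_simp; ring]
  rw [div_lt_iff₀ hε] at hM
  have : (N : ℝ) * (12 / M) < ε / 2 := by
    rw [← mul_div_assoc, div_lt_iff₀ M0]; linarith
  linarith

end Pool.Agent.Lib.MP_30b5b4_an
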