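import Pool.Agent.Lib.MP_30b5b4_an.T.St
import Pool.Agent.Lib.MP_30b5b4_an.T.Full
import Pool.Agent.Lib.MP_30b5b4_an.T.Mid
import Pool.Agent.Lib.MP_30b5b4_an.T.Out
import Pool.Agent.Lib.MP_30b5b4_an.S.Q4

/-! The formula for extensions whose ideal is assembled from good pieces. -/

open scoped CStarAlgebra ComplexOrder Topology
open Filter

set_option linter.unusedSectionVars false
set_option linter.style.haveILetI false
set_option linter.unusedVariables false
set_option linter.unusedSimpArgs false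
set_option synthInstance.maxSize 1000000

namespace Pool.Agent.Lib.MP_30b5b4_an

universe u v

variable {J : Type*} {A : Type u} [NonUnitalCStarAlgebra J] [PartialOrder J] [StarOrderedRing J]
  [CStarAlgebra A] [PartialOrder A] [StarOrderedRing A] {j : J →⋆ₙₐ[ℂ] A} {N : ℕ}

theorem TD.good (hT : TD j) (hN : NS j) (hj : Idl j) : Good j := by
  intro A' _ _ _ π hπ hk n hI hD
  have h := (idl_self A).main_sum hj (fun x => ⟨j x, rfl⟩) (idl_self A') π (fun a => (hk a).1) hπ
    (fun a => ⟨π a, rfl⟩) hI hD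
  rcases n with _ | n
  · exact h
  rw [Nat.add_right_comm] at h
  refine hj.outer π (fun a => (hk a).1) hπ h (by omega) hD
    fun hM _ _ hδ hη S S1 e f R hR => hT.mid hj h ?_ (by omega) hM hδ hη S S1 e f R hR
  rintro _ ⟨b, rfl⟩ - -
  exact hT.slots hN hj (hI.mono (by omega)) h (dg_mem_Iw b)

theorem Assembled.good {J : Type v} [NonUnitalCStarAlgebra J] (h : Assembled J) :
    ∀ [PartialOrder J] [StarOrderedRing J] {A : Type u} [CStarAlgebra A] [PartialOrder A]
      [StarOrderedRing A] {j : J →⋆ₙₐ[ℂ] A}, Idl j → Good j := by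
  induction h with
  | fin J h => exact fun hj => h.good' quotSt (smpSt_of slotSt) hj
  | rr J h => exact fun hj => (h.rr _).good hj
  | zero J h1 h2 => exact fun hj => (h1.td hj).good (h2.ns hj) hj
  | ext I J D ι p a1 a2 a3 _ _ ih1 ih2 =>
    intro _ _ A _ _ _ j hj
    letI := CStarAlgebra.spectralOrder I
    haveI := CStarAlgebra.spectralOrderedRing I
    letI := CStarAlgebra.spectralOrder D
    haveI := CStarAlgebra.spectralOrderedRing D
    exact Good.trans quotSt ⟨a1, a2, a3⟩ hj ih1 fun B _ _ _ j' => ih2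

theorem Ext.assembled {I E D : Type*} [NonUnitalCStarAlgebra I] [PartialOrder I]
    [StarOrderedRing I] [NonUnitalCStarAlgebra E] [PartialOrder E] [StarOrderedRing E]
    [NonUnitalCStarAlgebra D] [PartialOrder D] [StarOrderedRing D]
    {ι : I →⋆ₙₐ[ℂ] E} {π : E →⋆ₙₐ[ℂ] D} (h : Ext ι π) (hI : Assembled I) :
    nucDim E = Max.max (nucDim I) (nucDim D) :=
  h.eq_of_good (hI.good h.idl)

end Pool.Agent.Lib.MP_30b5b4_an
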