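import Pool.Agent.Lib.MP_30b5b4_an.T.Defs
import Pool.Agent.Lib.MP_30b5b4_an.S.Q1

/-! Quotients of an algebra: primes, compactness, domination. -/

open scoped CStarAlgebra ComplexOrder Topology
open Filter

set_option linter.unusedSectionVars false
set_option linter.style.haveILetI false
set_option linter.unusedVariables false
set_option linter.unusedSimpArgs false
set_option synthInstance.maxSize 1000000

namespace Pool.Agent.Lib.MP_30b5b4_an

universe u v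

variable {J : Type*} {A : Type u} [NonUnitalCStarAlgebra J] [PartialOrder J] [StarOrderedRing J]
  [CStarAlgebra A] [PartialOrder A] [StarOrderedRing A] {j : J →⋆ₙₐ[ℂ] A} {N : ℕ}

lemma exists_idl (M : TwoSidedIdeal A) (hM : IsClosed (M : Set A)) :
    ∃ (I : Type u) (_ : NonUnitalCStarAlgebra I) (_ : PartialOrder I) (_ : StarOrderedRing I)
      (i : I →⋆ₙₐ[ℂ] A), Idl i ∧ ∀ x, (∃ c, i c = x) ↔ x ∈ M := by
  obtain ⟨I, D, _, _, ι, p, a1, -, -, a4⟩ := exists_ext hM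
  exact ⟨I, inferInstance, CStarAlgebra.spectralOrder I, CStarAlgebra.spectralOrderedRing I, ι,
    ⟨a1, fun a b => (a4 _).2 (M.mul_mem_left _ _ ((a4 _).1 ⟨b, rfl⟩))⟩, a4⟩

lemma Idl.exists_pt (hj : Idl j) : ∃ p : Pt A, ∀ a, p.π a = 0 ↔ ∃ b, j b = a := by
  obtain ⟨Q, _, π, h1, h2⟩ := hj.exists_quot
  letI := CStarAlgebra.spectralOrder Q
  haveI := CStarAlgebra.spectralOrderedRing Q
  exact ⟨⟨Q, π, h1⟩, h2⟩

theorem exists_pt (M : TwoSidedIdeal A) (hM : IsClosed (M : Set A)) :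
    ∃ p : Pt A, ∀ a, p.π a = 0 ↔ a ∈ M := by
  obtain ⟨I, _, _, _, i, hi, h⟩ := exists_idl M hM
  obtain ⟨p, hp⟩ := hi.exists_pt
  exact ⟨p, fun a => (hp a).trans (h a)⟩

lemma Pt.mono (p : Pt A) {a b : A} (a0 : 0 ≤ a) (h : a ≤ b) : ‖p.π a‖ ≤ ‖p.π b‖ :=
  CStarAlgebra.norm_le_norm_of_nonneg_of_le (hom_nonneg _ a0) (hom_mono _ h)

lemma Pt.rp_eq_zero (p : Pt A) {δ : ℝ} (hδ : 0 < δ) (m : ℕ) {x : A} (x0 : 0 ≤ x) :
    p.π (cfc (rp δ m) x) = 0 ↔ ‖p.π x‖ ≤ m * δ := by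
  rw [hom_cfc _ (rp_cont _ _) x0.isSelfAdjoint]
  refine ⟨fun h => not_lt.1 fun h' => rp_ne_zero hδ (hom_nonneg _ x0) h' h, fun h => ?_⟩
  rw [← cfc_zero ℝ (p.π x)]
  refine cfc_congr fun t ht => ?_
  have h1 : t ≤ m * δ := by
    rcases subsingleton_or_nontrivial p.Q with h0 | h0
    · simp [spectrum.of_subsingleton] at ht
    · exact ((le_abs_self t).trans (spectrum.norm_le_norm_of_mem ht)).trans h
  exact cl_of_nonpos (sub_nonpos.2 ((div_le_iff₀ hδ).2 h1))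

lemma Pt.rp_one (p : Pt A) {δ : ℝ} (hδ : 0 < δ) (m : ℕ) {x : A} (x0 : 0 ≤ x)
    (h : (m + 1) * δ ≤ ‖p.π x‖) : 1 ≤ ‖p.π (cfc (rp δ m) x)‖ := by
  rw [hom_cfc _ (rp_cont _ _) x0.isSelfAdjoint]
  have y0 := hom_nonneg p.π x0
  have h1 : 0 < ‖p.π x‖ := lt_of_lt_of_le (by positivity) h
  haveI : Nontrivial p.Q := nontrivial_of_ne _ 0 (norm_pos_iff.1 h1)
  have := norm_apply_le_norm_cfc (rp δ m) (p.π x) (CStarAlgebra.norm_mem_spectrum_of_nonneg y0)
    (rp_cont _ _).continuousOn y0.isSelfAdjoint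
  rwa [rp, cl_of_one_le (by linarith [(le_div_iff₀ hδ).2 h]), norm_one] at this

lemma Gen.refl (x : A) : Gen x x := fun _ h => h

lemma Gen.trans {x y z : A} (h : Gen x y) (h' : Gen y z) : Gen x z := fun p hp => h p (h' p hp)

lemma Gen.of_cfc {x : A} (hx : IsSelfAdjoint x) {f : ℝ → ℝ} (hf : Continuous f) (f0 : f 0 = 0) :
    Gen (cfc f x) x := fun p hp => by
  rw [hom_cfc _ hf hx, hp, cfc_apply_zero, f0, map_zero]

lemma Gen.mem (hj : Idl j) {x y : A} (h : Gen x y) (hy : ∃ c, j c = y) : ∃ c, j c = x := by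
  obtain ⟨p, hp⟩ := hj.exists_pt
  exact (hp x).1 (h p ((hp y).2 hy))

/-- the elements killed by all quotients with a property -/
lemma exists_ker (P : Pt A → Prop) : ∃ M : TwoSidedIdeal A, IsClosed (M : Set A) ∧
    ∀ x, x ∈ M ↔ ∀ p, P p → p.π x = 0 := by
  let M : TwoSidedIdeal A := TwoSidedIdeal.mk' {x | ∀ p, P p → p.π x = 0}
    (fun p _ => map_zero _) (fun hx hy p hp => by rw [map_add, hx p hp, hy p hp, add_zero])
    (fun hx p hp => by rw [map_neg, hx p hp, neg_zero])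
    (fun hx p hp => by rw [map_mul, hx p hp, mul_zero])
    (fun hx p hp => by rw [map_mul, hx p hp, zero_mul])
  have hM : ∀ x, x ∈ M ↔ ∀ p, P p → p.π x = 0 := fun x => TwoSidedIdeal.mem_mk' ..
  refine ⟨M, ?_, hM⟩
  have : (M : Set A) = ⋂ p, ⋂ _ : P p, p.π ⁻¹' {0} := Set.ext fun x => by simp [hM]
  rw [this]
  exact isClosed_iInter fun p => isClosed_iInter fun _ => isClosed_singleton.preimage (hom_cont _)

/-- the closed ideal generated by `y`, as the range of an ideal -/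
theorem exists_idl_gen (y : A) : ∃ (I : Type u) (_ : NonUnitalCStarAlgebra I) (_ : PartialOrder I)
    (_ : StarOrderedRing I) (i : I →⋆ₙₐ[ℂ] A), Idl i ∧ ∀ x, (∃ c, i c = x) ↔ Gen x y := by
  obtain ⟨M, h1, h2⟩ := exists_ker fun p : Pt A => p.π y = 0
  obtain ⟨I, _, _, _, i, hi, h⟩ := exists_idl M h1
  exact ⟨I, inferInstance, inferInstance, inferInstance, i, hi, fun x => (h x).trans (h2 x)⟩

lemma exists_closure (U : Set A) (h0 : 0 ∈ U) (h1 : ∀ x ∈ U, ∀ y ∈ U, x + y ∈ U)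
    (h2 : ∀ a b, ∀ x ∈ U, a * x * b ∈ U) :
    ∃ M : TwoSidedIdeal A, IsClosed (M : Set A) ∧ ∀ x, x ∈ M ↔ x ∈ closure U := by
  have h3 : ∀ a b, ∀ x ∈ closure U, a * x * b ∈ closure U := fun a b x hx =>
    map_mem_closure (f := fun x => a * x * b) (by fun_prop) hx (h2 a b)
  let M : TwoSidedIdeal A := TwoSidedIdeal.mk' (closure U) (subset_closure h0)
    (fun hx hy => map_mem_closure₂ continuous_add hx hy h1)
    (fun {x} hx => by simpa using h3 (-1) 1 x hx) (fun {a x} hx => by simpa using h3 a 1 x hx)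
    (fun {x a} hx => by simpa using h3 1 a x hx)
  have hM : ∀ x, x ∈ M ↔ x ∈ closure U := fun x => TwoSidedIdeal.mem_mk' ..
  exact ⟨M, by rw [show (M : Set A) = closure U from Set.ext hM]; exact isClosed_closure, hM⟩

lemma exists_dir {ι : Type*} [Nonempty ι] (K : ι → TwoSidedIdeal A) (hK : Directed (· ≤ ·) K) :
    ∃ M : TwoSidedIdeal A, IsClosed (M : Set A) ∧ ∀ x, x ∈ M ↔ x ∈ closure {x | ∃ i, x ∈ K i} :=
  exists_closure _ ⟨Classical.arbitrary ι, zero_mem _⟩ (fun x ⟨i, hi⟩ y ⟨k, hk⟩ => by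
      obtain ⟨l, h1, h2⟩ := hK i k
      exact ⟨l, add_mem (h1 hi) (h2 hk)⟩)
    fun a b x ⟨i, hi⟩ => ⟨i, (K i).mul_mem_right _ _ ((K i).mul_mem_left _ _ hi)⟩

lemma Pt.near (p : Pt A) {x : A} (x0 : 0 ≤ x) : ∃ m, p.π m = 0 ∧ ‖x - m‖ ≤ ‖p.π x‖ := by
  have xs := x0.isSelfAdjoint
  refine ⟨cfc (fun t => max (t - ‖p.π x‖) 0) x, ?_, ?_⟩
  · rw [hom_cfc _ (by fun_prop) xs, ← cfc_zero ℝ (p.π x)]
    refine cfc_congr fun t ht => ?_
    rcases subsingleton_or_nontrivial p.Q with h0 | h0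
    · simp [spectrum.of_subsingleton] at ht
    · exact max_eq_right (sub_nonpos.2 ((le_abs_self t).trans (spectrum.norm_le_norm_of_mem ht)))
  · conv_lhs => enter [1, 1]; rw [← cfc_id' ℝ x]
    rw [← cfc_sub _ _ x]
    refine norm_cfc_le (norm_nonneg _) fun t ht => ?_
    have := spectrum_nonneg_of_nonneg x0 ht
    rcases le_total (t - ‖p.π x‖) 0 with h | h
    · rw [max_eq_right h, sub_zero, Real.norm_of_nonneg this]; linarith
    · rw [max_eq_left h, sub_sub_cancel, norm_norm]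

lemma exists_prm' (M : TwoSidedIdeal A) (hM : IsClosed (M : Set A)) {x : A} (x0 : 0 ≤ x) {η : ℝ}
    (hη : 0 < η) (h : ∀ m ∈ M, η ≤ ‖x - m‖) :
    ∃ q : Pt A, Prm q ∧ (∀ a ∈ M, q.π a = 0) ∧ η ≤ ‖q.π x‖ := by
  obtain ⟨K, hK, ⟨K1, K2⟩, K3⟩ := zorn_le_nonempty₀
    {K : TwoSidedIdeal A | IsClosed (K : Set A) ∧ ∀ m ∈ K, η ≤ ‖x - m‖} (fun c hc h1 y hy => by
      haveI : Nonempty c := ⟨⟨y, hy⟩⟩
      obtain ⟨U, U1, U2⟩ := exists_dir (fun i : c => i.1) (directedOn_iff_directed.1 h1.directedOn)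
      refine ⟨U, ⟨U1, fun m hm => ?_⟩, fun z hz a ha => (U2 a).2 (subset_closure ⟨⟨z, hz⟩, ha⟩)⟩
      exact closure_minimal (s := {x | ∃ i : c, x ∈ i.1}) (t := {m | η ≤ ‖x - m‖})
        (fun m hm => hm.elim fun i hi => (hc i.2).2 m hi)
        (isClosed_le continuous_const (by fun_prop)) ((U2 m).1 hm)) M ⟨hM, h⟩
  obtain ⟨q, hq⟩ := exists_pt K K1
  have q1 : η ≤ ‖q.π x‖ := by
    obtain ⟨m, m1, m2⟩ := q.near x0
    exact (K2 m ((hq m).1 m1)).trans m2
  have key : ∀ (f : A → A → A) (a : A), (∀ c, Continuous (f c)) →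
      (∀ c y z, f c (y + z) = f c y + f c z) → (∀ c y, q.π y = 0 → q.π (f c y) = 0) →
      (∀ c y r s, ∃ r' s' c', f c (r * y * s) = r' * f c' y * s') → q.π a ≠ 0 →
      (∀ c, q.π (f c a) = 0) → ∃ e, 0 < e ∧ e < η ∧ ∀ c, q.π (f c (cfc (rp e 1) x)) = 0 :=
    fun f a f1 f2 f3 f4 a0 a1 => by
      have cl : IsClosed {y | ∀ c, q.π (f c y) = 0} := by
        rw [Set.setOf_forall]
        exact isClosed_iInter fun c => isClosed_eq ((hom_cont _).comp (f1 c)) continuous_const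
      obtain ⟨L, L1, L2⟩ := exists_closure {y | ∀ c, q.π (f c y) = 0}
        (fun c => f3 c 0 (map_zero _))
        (fun y hy z hz c => by rw [f2, map_add, hy c, hz c, add_zero]) fun r s y hy c => by
          obtain ⟨r', s', c', h⟩ := f4 c y r s
          rw [h, map_mul, map_mul, hy c', mul_zero, zero_mul]
      rw [cl.closure_eq] at L2
      have KL : K ≤ L := fun y hy => (L2 y).2 fun c => f3 c y ((hq y).2 hy)
      obtain ⟨m, m1, m2⟩ : ∃ m ∈ L, ‖x - m‖ < η := by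
        by_contra h0
        push Not at h0
        exact a0 ((hq a).2 (K3 ⟨L1, h0⟩ KL ((L2 a).2 a1)))
      obtain ⟨p, hp⟩ := exists_pt L L1
      obtain ⟨e, e1, e2⟩ := exists_between (max_lt m2 hη)
      refine ⟨e, (le_max_right _ _).trans_lt e1, e2, (L2 _).1 ((hp _).1
        ((p.rp_eq_zero ((le_max_right _ _).trans_lt e1) 1 x0).2 ?_))⟩
      have := hom_norm_le p.π (x - m)
      rw [map_sub, (hp m).2 m1, sub_zero] at this
      push_cast
      linarith [le_max_left ‖x - m‖ 0]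
  refine ⟨q, fun a b hab => ?_, fun a ha => (hq a).2 (hK ha), q1⟩
  by_contra h0
  obtain ⟨a0, b0⟩ := not_or.1 h0
  obtain ⟨e, e0, e1, e2⟩ := key (fun c y => y * c * b) a (fun c => by fun_prop)
    (fun c y z => by rw [add_mul, add_mul]) (fun c y hy => by simp [hy])
    (fun c y r s => ⟨r, 1, s * c, by simp only [mul_assoc, mul_one]⟩) a0 hab
  obtain ⟨e', e0', e1', e2'⟩ := key (fun c y => cfc (rp e 1) x * c * y) b (fun c => by fun_prop)
    (fun c y z => by rw [mul_add]) (fun c y hy => by simp [hy])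
    (fun c y r s => ⟨1, s, c * r, by simp only [mul_assoc, one_mul]⟩) b0 e2
  have h1 := e2' 1
  have y0 := hom_nonneg q.π x0
  have xs := x0.isSelfAdjoint
  haveI : Nontrivial q.Q := nontrivial_of_ne _ 0 (norm_pos_iff.1 (hη.trans_le q1))
  rw [mul_one, cfc_mul' (rp_cont _ _) (rp_cont _ _), hom_cfc _ (by fun_prop) xs] at h1
  have h2 := norm_apply_le_norm_cfc (fun s => rp e 1 s * rp e' 1 s) (q.π x)
    (CStarAlgebra.norm_mem_spectrum_of_nonneg y0) (by fun_prop) y0.isSelfAdjoint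
  have pos : ∀ e, 0 < e → e < η → rp e 1 ‖q.π x‖ ≠ 0 := fun e e0 e1 => by
    have := (one_lt_div e0).2 (e1.trans_le q1)
    exact (lt_max_of_lt_right (lt_min one_pos (by push_cast; linarith))).ne'
  rw [h1, norm_zero, norm_le_zero_iff] at h2
  exact mul_ne_zero (pos e e0 e1) (pos e' e0' e1') h2

theorem exists_prm (p : Pt A) {x : A} (x0 : 0 ≤ x) {η : ℝ} (hη : 0 < η) (h : η ≤ ‖p.π x‖) :
    ∃ q : Pt A, Prm q ∧ (∀ a, p.π a = 0 → q.π a = 0) ∧ η ≤ ‖q.π x‖ := by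
  obtain ⟨M, M1, M2⟩ := exists_ker fun q : Pt A => q = p
  obtain ⟨q, q1, q2, q3⟩ := exists_prm' M M1 x0 hη fun m hm => by
    have := hom_norm_le p.π (x - m)
    rw [map_sub, (M2 m).1 hm p rfl, sub_zero] at this
    exact h.trans this
  exact ⟨q, q1, fun a ha => q2 a ((M2 a).2 fun _ h => h ▸ ha), q3⟩

theorem Gen.of_prm {x y : A} (h : ∀ p : Pt A, Prm p → p.π y = 0 → p.π x = 0) : Gen x y :=
  fun p hp => by
    by_contra h0
    have h1 : 0 < ‖p.π (star x * x)‖ := by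
      rw [map_mul, map_star, CStarRing.norm_star_mul_self]
      exact mul_pos (norm_pos_iff.2 h0) (norm_pos_iff.2 h0)
    obtain ⟨q, q1, q2, q3⟩ := exists_prm p (star_mul_self_nonneg x) h1 le_rfl
    rw [map_mul q.π, h q q1 (q2 y hp), mul_zero, norm_zero] at q3
    exact h1.not_ge q3

theorem Gen.approx {x y : A} (h : Gen x y) {ε : ℝ} (hε : 0 < ε) :
    ∃ (K : ℕ) (a b : Fin K → A), ‖x - ∑ t, a t * y * b t‖ ≤ ε := by
  obtain ⟨M, M1, M2⟩ := exists_closure {z | ∃ (K : ℕ) (a b : Fin K → A), ∑ t, a t * y * b t = z}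
    ⟨0, 0, 0, by simp⟩ (by
      rintro _ ⟨K, a, b, rfl⟩ _ ⟨K', a', b', rfl⟩
      exact ⟨K + K', Fin.append a a', Fin.append b b', by
        simp only [Fin.sum_univ_add, Fin.append_left, Fin.append_right]⟩) (by
      rintro r s _ ⟨K, a, b, rfl⟩
      exact ⟨K, fun t => r * a t, fun t => b t * s, by
        simp only [Finset.mul_sum, Finset.sum_mul, mul_assoc]⟩)
  obtain ⟨p, hp⟩ := exists_pt M M1
  obtain ⟨_, ⟨K, a, b, rfl⟩, h2⟩ := Metric.mem_closure_iff.1 ((M2 x).1 ((hp x).1 (h p ((hp y).2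
    ((M2 y).2 (subset_closure ⟨1, 1, 1, by simp⟩)))))) ε hε
  exact ⟨K, a, b, by rw [← dist_eq_norm]; exact h2.le⟩

/-- cutting off the bottom of the spectrum -/
lemma norm_sub_mul_rp (w : A) {e : ℝ} (he : 0 < e) :
    ‖w - w * cfc (rp e 1) (star w * w)‖ ^ 2 ≤ 2 * e := by
  have w0 := star_mul_self_nonneg w
  have ws := w0.isSelfAdjoint
  have h1 : w - w * cfc (rp e 1) (star w * w) = w * cfc (fun t => 1 - rp e 1 t) (star w * w) := by
    rw [cfc_sub _ _ _, cfc_const_one ℝ _, mul_sub, mul_one]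
  rw [h1, pow_two, ← CStarRing.norm_star_mul_self, star_mul, IsSelfAdjoint.cfc.star_eq, mul_assoc,
    ← mul_assoc (star w), id_mul_cfc (by fun_prop) ws, cfc_mul' (by fun_prop) (by fun_prop)]
  refine norm_cfc_le (by positivity) fun t ht => ?_
  have t0 := spectrum_nonneg_of_nonneg w0 ht
  have a0 : 0 ≤ rp e 1 t := cl_nonneg _
  have a1 : rp e 1 t ≤ 1 := cl_le_one _
  rw [Real.norm_of_nonneg (mul_nonneg (by linarith) (mul_nonneg t0 (by linarith)))]
  rcases le_total t (2 * e) with h | h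
  · nlinarith [mul_nonneg t0 a0, mul_nonneg (mul_nonneg t0 a0) (sub_nonneg.2 a1)]
  · rw [rp, cl_of_one_le (by push_cast; linarith [(le_div_iff₀ he).2 h]), sub_self, zero_mul]
    positivity

/-- compactness of the set of quotients in which `x` has norm at least `η` -/
theorem cpt {Λ : Type*} (w : Λ → A) {x : A} (x0 : 0 ≤ x) {η : ℝ} (hη : 0 < η)
    (h : ∀ p : Pt A, Prm p → η ≤ ‖p.π x‖ → ∃ l, p.π (w l) ≠ 0) :
    ∃ (F : Finset Λ) (γ : ℝ), 0 < γ ∧ ∀ p : Pt A, η ≤ ‖p.π x‖ → ∃ l ∈ F, γ ≤ ‖p.π (w l)‖ := by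
  classical
  choose K K1 K2 using fun i : Finset Λ × {γ : ℝ // 0 < γ} =>
    exists_ker fun p : Pt A => ∀ l ∈ i.1, ‖p.π (w l)‖ < i.2.1
  haveI : Nonempty {γ : ℝ // 0 < γ} := ⟨⟨1, one_pos⟩⟩
  obtain ⟨M, M1, M2⟩ := exists_dir K fun i k =>
    ⟨(i.1 ∪ k.1, ⟨min i.2.1 k.2.1, lt_min i.2.2 k.2.2⟩),
      fun y hy => (K2 _ y).2 fun p hp => (K2 _ y).1 hy p fun l hl =>
        (hp l (Finset.mem_union_left _ hl)).trans_le (min_le_left _ _),
      fun y hy => (K2 _ y).2 fun p hp => (K2 _ y).1 hy p fun l hl =>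
        (hp l (Finset.mem_union_right _ hl)).trans_le (min_le_right _ _)⟩
  obtain ⟨m, m1, m2⟩ : ∃ m ∈ M, ‖x - m‖ < η := by
    by_contra h0
    push Not at h0
    obtain ⟨q, q1, q2, q3⟩ := exists_prm' M M1 x0 hη h0
    obtain ⟨l, hl⟩ := h q q1 q3
    refine hl (q2 _ ((M2 _).2 (Metric.mem_closure_iff.2 fun ε hε => ?_)))
    have e0 : 0 < ε ^ 2 / 4 := by positivity
    refine ⟨_, ⟨({l}, ⟨ε / 2, half_pos hε⟩), (K2 _ (w l * cfc (rp (ε ^ 2 / 4) 1)
      (star (w l) * w l))).2 fun p hp => ?_⟩, ?_⟩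
    · rw [map_mul, (p.rp_eq_zero e0 1 (star_mul_self_nonneg _)).2, mul_zero]
      have := hp l (Finset.mem_singleton_self l)
      rw [map_mul, map_star, CStarRing.norm_star_mul_self]
      push_cast
      nlinarith [norm_nonneg (p.π (w l))]
    · rw [dist_eq_norm]
      refine lt_of_pow_lt_pow_left₀ 2 hε.le ((norm_sub_mul_rp _ e0).trans_lt ?_)
      linarith
  obtain ⟨m', ⟨i, hi⟩, h2⟩ := Metric.mem_closure_iff.1 ((M2 m).1 m1) _ (sub_pos.2 m2)
  refine ⟨i.1, i.2.1, i.2.2, fun p hp => ?_⟩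
  by_contra h0
  push Not at h0
  have h3 := hom_norm_le p.π (x - m')
  rw [map_sub, (K2 i m').1 hi p h0, sub_zero] at h3
  rw [dist_eq_norm] at h2
  linarith [norm_sub_le_norm_sub_add_norm_sub x m m']

theorem Prm.prod (hj : Idl j) {p : Pt A} (hp : Prm p) {c : A} (hc : ∃ b, j b = c)
    (c0 : p.π c ≠ 0) {ι : Type*} (s : Finset ι) (a : ι → A) (ha : ∀ i ∈ s, p.π (a i) ≠ 0) :
    ∃ w, (∃ b, j b = w) ∧ 0 ≤ w ∧ p.π w ≠ 0 ∧ ∀ i ∈ s, Gen w (a i) := by
  classical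
  have key : ∀ y, (∃ b, j b = y) → p.π y ≠ 0 → (∃ b, j b = star y * y) ∧ 0 ≤ star y * y ∧
      p.π (star y * y) ≠ 0 := by
    rintro _ ⟨b, rfl⟩ h
    exact ⟨hj.left _ b, star_mul_self_nonneg _, by
      rwa [map_mul, map_star, Ne, CStarRing.star_mul_self_eq_zero_iff]⟩
  induction s using Finset.induction_on with
  | empty => exact ⟨_, (key c hc c0).1, (key c hc c0).2.1, (key c hc c0).2.2, by simp⟩
  | insert i s _ ih =>
    obtain ⟨_, ⟨b, rfl⟩, -, w2, w3⟩ := ih fun l hl => ha l (Finset.mem_insert_of_mem hl)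
    obtain ⟨r, hr⟩ := not_forall.1 fun h0 => (hp (j b) (a i) h0).elim w2
      (ha i (Finset.mem_insert_self _ _))
    obtain ⟨k1, k2, k3⟩ := key _ (by rw [mul_assoc]; exact hj.right _ b) hr
    refine ⟨_, k1, k2, k3, fun l hl q hq => ?_⟩
    rcases Finset.mem_insert.1 hl with rfl | hl
    · simp [hq]
    · simp [w3 l hl q hq]

theorem Gen.sub {x g g' z y : A} (h : Gen g' z) (g0 : 0 ≤ g) (hg : g' * g = g) (hx : g * x = x)
    (hy : y * z = z) :
    ∃ (K : ℕ) (V : Fin K → A), (∑ t, star (V t) * V t) * x = x ∧ ∀ t, y * V t = V t := by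
  obtain ⟨K, a, b, h1⟩ := Gen.approx (x := g') (y := star z * z) (fun p hp => h p (by
    rwa [map_mul, map_star, CStarRing.star_mul_self_eq_zero_iff] at hp)) one_half_pos
  let r : Fin (K + K) → A := Fin.append (fun t => star (a t)) b
  obtain ⟨ζ, hζ⟩ := polarF (H := ∑ t, star (z * r t) * (z * r t)) g0
    (Finset.sum_nonneg fun t _ => star_mul_self_nonneg _) one_pos (by
      set s := ∑ t, a t * (star z * z) * b t with hs
      have e1 : s + star s ≤ ∑ t, star (z * r t) * (z * r t) := by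
        simp only [hs, r, star_sum, Fin.sum_univ_add, Fin.append_left, Fin.append_right,
          ← Finset.sum_add_distrib]
        refine Finset.sum_le_sum fun t _ => ?_
        simpa [mul_assoc] using cross_le (z * star (a t)) (z * b t)
      have e2 : g' - s + star (g' - s) ≤ (1 : ℝ) • 1 := sa_le_of_norm (IsSelfAdjoint.add_star_self _)
        ((norm_add_le_of_le h1 ((norm_star _).trans_le h1)).trans (add_halves 1).le)
      have e3 := star_left_conjugate_le_conjugate (add_le_add e1 e2) g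
      have e4 : g * star g' = g := by simpa [g0.star_eq] using congrArg star hg
      rw [g0.star_eq, show s + star s + (g' - s + star (g' - s)) = g' + star g' by
        rw [star_sub]; abel, mul_add, add_mul, mul_assoc g g', hg, e4, mul_add, add_mul, one_smul,
        mul_one] at e3
      rw [one_smul]
      exact le_of_add_le_add_right e3)
  refine ⟨K + K, fun t => z * (r t * ζ), ?_, fun t => by rw [← mul_assoc, hy]⟩
  have : ∑ t, star (z * (r t * ζ)) * (z * (r t * ζ)) = g * g := by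
    rw [← hζ, Finset.mul_sum, Finset.sum_mul]
    simp only [star_mul, mul_assoc]
  rw [this, mul_assoc, hx, hx]

end Pool.Agent.Lib.MP_30b5b4_an
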