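import Pool.Agent.Lib.MP_30b5b4_an.T.Bub
import Pool.Agent.Lib.MP_30b5b4_an.DefsC

/-! From the lattice of ideals to the internal conditions. -/

open scoped CStarAlgebra ComplexOrder Topology
open Filter

set_option linter.unusedSectionVars false
set_option linter.style.haveILetI false
set_option linter.unusedVariables false
set_option linter.unusedSimpArgs false
set_option synthInstance.maxSize 1000000

namespace Pool.Agent.Lib.MP_30b5b4_an

universe u v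

variable {J : Type*} {A : Type u} [NonUnitalCStarAlgebra J] [PartialOrder J] [StarOrderedRing J]
  [CStarAlgebra A] [PartialOrder A] [StarOrderedRing A] {j : J →⋆ₙₐ[ℂ] A} {N : ℕ}

lemma exists_kerJ (j : J →⋆ₙₐ[ℂ] A) (P : Pt A → Prop) : ∃ M : TwoSidedIdeal J,
    IsClosed (M : Set J) ∧ ∀ c, c ∈ M ↔ ∀ p, P p → p.π (j c) = 0 := by
  obtain ⟨M, h1, h2⟩ := exists_ker P
  refine ⟨TwoSidedIdeal.comap j M, ?_, fun c => (TwoSidedIdeal.mem_comap j).trans (h2 _)⟩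
  rw [show (TwoSidedIdeal.comap j M : Set J) = j ⁻¹' M from
    Set.ext fun _ => TwoSidedIdeal.mem_comap j]
  exact h1.preimage (AddMonoidHomClass.continuous_of_bound j 1 fun a => by
    rw [one_mul]; exact NonUnitalStarAlgHom.norm_apply_le j a)

lemma Pt.kill (p : Pt A) (j : J →⋆ₙₐ[ℂ] A) {S : Set (TwoSidedIdeal J)}
    (h : ∀ T ∈ S, ∀ c ∈ T, p.π (j c) = 0) {c : J}
    (hc : c ∈ closure ((sSup S : TwoSidedIdeal J) : Set J)) : p.π (j c) = 0 := by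
  obtain ⟨M, h1, h2⟩ := exists_kerJ j fun q => q = p
  have h3 : sSup S ≤ M := sSup_le fun T hT c hc => (h2 c).2 fun q hq => hq ▸ h T hT c hc
  exact (h2 c).1 (closure_minimal (fun _ hx => h3 hx) h1 hc) p rfl

/-- a compact ideal is generated by a bubble -/
lemma CompactIdeal.bub {K : TwoSidedIdeal J} (hK : CompactIdeal K) (hj : Idl j) :
    ∃ v, Bub v ∧ ∀ p : Pt A, p.π v = 0 ↔ ∀ k ∈ K, p.π (j k) = 0 := by
  classical
  choose M M1 M2 using fun i : J × ℝ => exists_kerJ j fun p : Pt A =>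
    p.π (cfc (rp i.2 1) (star (j i.1) * j i.1)) = 0
  obtain ⟨t, t1, t2, t3⟩ := Set.exists_subset_image_finite_and.1
    (hK.2 (M '' {i | i.1 ∈ K ∧ 0 < i.2}) fun k hk => Metric.mem_closure_iff.2 fun ε hε => by
      have e0 : 0 < ε ^ 2 / 4 := by positivity
      obtain ⟨c, hc⟩ := hj.right (cfc (rp (ε ^ 2 / 4) 1) (star (j k) * j k)) k
      have hm : M (k, ε ^ 2 / 4) ≤ sSup (M '' {i | i.1 ∈ K ∧ 0 < i.2}) :=
        le_sSup (Set.mem_image_of_mem M ⟨hk, e0⟩)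
      refine ⟨c, hm ((M2 _ c).2 fun p hp => ?_), ?_⟩
      · rw [hc, map_mul, hp, mul_zero]
      · rw [dist_eq_norm, ← NonUnitalStarAlgHom.norm_map j hj.inj, map_sub, hc]
        refine lt_of_pow_lt_pow_left₀ 2 hε.le ((norm_sub_mul_rp _ e0).trans_lt ?_)
        linarith [sq_pos_of_pos hε])
  lift t to Finset (J × ℝ) using t2
  let u : J × ℝ → A := fun i => cfc (rp i.2 0) (star (j i.1) * j i.1)
  have u0 : ∀ i, 0 ≤ u i := fun i => (rp_unit _ _ _).1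
  have u1 : ∀ p : Pt A, ∀ i ∈ t, ‖p.π (u i)‖ ≤ ‖p.π (∑ i ∈ t, u i)‖ := fun p i hi =>
    p.mono (u0 i) (Finset.single_le_sum (fun i _ => u0 i) hi)
  have u2 : ∀ p : Pt A, ‖p.π (∑ i ∈ t, u i)‖ < 1 → ∀ k ∈ K, p.π (j k) = 0 := fun p hp k hk => by
    refine p.kill j ?_ (t3 hk)
    rintro _ ⟨i, hi, rfl⟩ c hc
    refine (M2 i c).1 hc p ((p.rp_eq_zero (t1 hi).2 1 (star_mul_self_nonneg _)).2 ?_)
    refine not_lt.1 fun h0 => ((u1 p i hi).trans_lt hp).not_ge ?_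
    exact p.rp_one (t1 hi).2 0 (star_mul_self_nonneg _) (by simpa using h0.le)
  have u3 : ∀ p : Pt A, (∀ k ∈ K, p.π (j k) = 0) → p.π (∑ i ∈ t, u i) = 0 := fun p hp => by
    rw [map_sum]
    refine Finset.sum_eq_zero fun i hi => (p.rp_eq_zero (t1 hi).2 0 (star_mul_self_nonneg _)).2 ?_
    rw [map_mul, hp _ (t1 hi).1]
    simp
  exact ⟨_, ⟨Finset.sum_nonneg fun i _ => u0 i, fun p hp => not_lt.1 fun h0 => hp (u3 p (u2 p h0))⟩,
    fun p => ⟨fun h0 => u2 p (by rw [h0, norm_zero]; exact one_pos), u3 p⟩⟩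

theorem TopDimZero.td (h : TopDimZero J) (hj : Idl j) : TD j := by
  rintro _ ⟨c, rfl⟩ w0 γ hγ
  obtain ⟨L, L1, L2⟩ := exists_kerJ j fun p : Pt A => p.π (j c) = 0
  choose v v1 v2 using fun K : {K : TwoSidedIdeal J // CompactIdeal K ∧ K ≤ L} => K.2.1.bub hj
  obtain ⟨F, δ, hδ, hF⟩ := cpt v w0 hγ fun p _ hp => by
    by_contra h0
    push Not at h0
    rw [p.kill j (fun T hT => (v2 ⟨T, hT⟩ p).1 (h0 _)) (h L L1 ((L2 c).2 fun _ h => h)),
      norm_zero] at hp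
    exact hγ.not_ge hp
  obtain ⟨b1, b2⟩ := Bub.sum F fun i _ => v1 i
  refine ⟨_, b1, fun p hp => ?_, fun p hp h0 => ?_⟩
  · rw [map_sum]
    exact Finset.sum_eq_zero fun K _ => (v2 K p).2 fun k hk => (L2 k).1 (K.2.2 hk) p hp
  · obtain ⟨l, hl, h1⟩ := hF p hp
    rw [b2 l hl p h0, norm_zero] at h1
    exact hδ.not_ge h1

theorem NowhereScattered.ns (h : NowhereScattered J) (hj : Idl j) : NS j := by
  intro p
  obtain ⟨K, K1, K2⟩ := exists_kerJ j fun q => q = p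
  replace K2 : ∀ c, c ∈ K ↔ p.π (j c) = 0 := fun c =>
    (K2 c).trans ⟨fun h => h p rfl, fun h q hq => hq ▸ h⟩
  obtain ⟨I, D, _, _, ι, q, -, a2, a3, a4⟩ := exists_ext K1
  letI := CStarAlgebra.spectralOrder D
  haveI := CStarAlgebra.spectralOrderedRing D
  obtain ⟨ρ, hρ⟩ := exists_induced' q a2 ((p.π : A →⋆ₙₐ[ℂ] p.Q).comp j) fun a ha =>
    (K2 a).1 ((a4 a).1 ((a3 a).1 ha))
  have i1 : Idl ρ := by
    refine ⟨(injective_iff_map_eq_zero ρ).2 fun y hy => ?_, fun a y => ?_⟩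
    · obtain ⟨x, rfl⟩ := a2 y
      exact (a3 x).2 ((a4 x).2 ((K2 x).2 ((hρ x).symm.trans hy)))
    · obtain ⟨x, rfl⟩ := a2 y
      obtain ⟨a, rfl⟩ := p.surj a
      obtain ⟨c, hc⟩ := hj.left a x
      refine ⟨q c, ?_⟩
      rw [hρ, hρ]
      change p.π (j c) = p.π a * p.π (j x)
      rw [hc, map_mul]
  have e : ∀ b, (∃ c, ((p.π : A →⋆ₙₐ[ℂ] p.Q).comp j) c = b) ↔ ∃ c, ρ c = b := fun b =>
    ⟨fun ⟨c, hc⟩ => ⟨q c, (hρ c).trans hc⟩, fun ⟨y, hy⟩ => by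
      obtain ⟨x, rfl⟩ := a2 y
      exact ⟨x, (hρ x).symm.trans hy⟩⟩
  by_contra h0
  obtain ⟨P, hP, p0, p1, p2⟩ := exists_minimal_of_not_hv i1 fun h1 =>
    h0 (by simpa only [Hv, e] using h1)
  obtain ⟨c, hc⟩ := (e P).2 hP
  replace hc : p.π (j c) = P := hc
  obtain ⟨z, hz⟩ := p2 1
  rw [mul_one] at hz
  have z0 : z ≠ 0 := fun h1 => p0 ((CStarRing.star_mul_self_eq_zero_iff _).1 (by
    rw [p1, hz, h1, zero_smul]))
  have z1 : star z = z := smul_left_injective ℂ p0 (by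
    have := congrArg star hz
    rw [star_mul, star_smul, p1, hz] at this
    exact this.symm)
  have c1 : p.π (j (z⁻¹ • c)) = z⁻¹ • P := by rw [map_smul, map_smul, hc]
  refine smul_ne_zero (inv_ne_zero z0) p0 (c1 ▸ (K2 _).1 (h K K1 _ ((K2 _).2 ?_) ((K2 _).2 ?_)
    fun x => ?_))
  · rw [map_sub, map_sub, map_mul, map_mul, c1, smul_mul_smul_comm, hz, smul_smul,
      inv_mul_cancel_right₀ z0, sub_self]
  · rw [map_sub, map_sub, map_star, map_star, c1, star_smul, star_inv₀, z1, p1, sub_self]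
  · obtain ⟨y, hy⟩ := p2 (p.π (j x))
    refine ⟨z⁻¹ * y, (K2 _).2 ?_⟩
    rw [map_sub, map_sub, map_mul, map_mul, map_mul, map_mul, map_smul j (z⁻¹ * y),
      map_smul p.π (z⁻¹ * y), c1, smul_mul_assoc, smul_mul_smul_comm, hy, smul_smul, smul_smul,
      mul_right_comm, sub_self]

end Pool.Agent.Lib.MP_30b5b4_an
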