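import Pool.Agent.Lib.MP_30b5b4_an.T.Pt

/-! Elements that generate compact ideals. -/

open scoped CStarAlgebra ComplexOrder Topology
open Filter

set_option linter.unusedSectionVars false
set_option linter.style.haveILetI false
set_option linter.unusedVariables false
set_option linter.unusedSimpArgs false
set_option synthInstance.maxSize 1000000

namespace Pool.Agent.Lib.MP_30b5b4_an

universe u v

variable {J : Type*} {A : Type u} [NonUnitalCStarAlgebra J] [PartialOrder J] [StarOrderedRing J]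
  [CStarAlgebra A] [PartialOrder A] [StarOrderedRing A] {j : J →⋆ₙₐ[ℂ] A} {N : ℕ}

lemma Gen.of_le {a b : A} (a0 : 0 ≤ a) (h : a ≤ b) : Gen a b := fun p hp => by
  have := p.mono a0 h
  rwa [hp, norm_zero, norm_le_zero_iff] at this

lemma rp_at_zero (δ : ℝ) (m : ℕ) : rp δ m 0 = 0 := cl_of_nonpos (by simp)

lemma Pt.ne_zero (p : Pt A) {x : A} (h : 1 ≤ ‖p.π x‖) : p.π x ≠ 0 :=
  norm_pos_iff.1 (one_pos.trans_le h)

lemma Bub.zero : Bub (0 : A) := ⟨le_rfl, fun p h => (h (map_zero _)).elim⟩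

lemma Bub.add {v w : A} (hv : Bub v) (hw : Bub w) :
    Bub (v + w) ∧ Gen v (v + w) ∧ Gen w (v + w) := by
  have h1 : v ≤ v + w := le_add_of_nonneg_right hw.1
  have h2 : w ≤ v + w := le_add_of_nonneg_left hv.1
  refine ⟨⟨hv.1.trans h1, fun p hp => ?_⟩, .of_le hv.1 h1, .of_le hw.1 h2⟩
  by_cases h : p.π v = 0
  · exact (hw.2 p fun h' => hp (by rw [map_add, h, h', add_zero])).trans (p.mono hw.1 h2)
  · exact (hv.2 p h).trans (p.mono hv.1 h1)

lemma Bub.sum {ι : Type*} (s : Finset ι) {v : ι → A} (hv : ∀ i ∈ s, Bub (v i)) :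
    Bub (∑ i ∈ s, v i) ∧ ∀ i ∈ s, Gen (v i) (∑ i ∈ s, v i) := by
  have h1 : ∀ i ∈ s, v i ≤ ∑ i ∈ s, v i := fun i hi =>
    Finset.single_le_sum (fun i hi => (hv i hi).1) hi
  refine ⟨⟨Finset.sum_nonneg fun i hi => (hv i hi).1, fun p hp => ?_⟩,
    fun i hi => .of_le (hv i hi).1 (h1 i hi)⟩
  rw [map_sum] at hp
  obtain ⟨i, hi, h2⟩ := Finset.exists_ne_zero_of_sum_ne_zero hp
  exact ((hv i hi).2 p h2).trans (p.mono (hv i hi).1 (h1 i hi))

/-- all tiers that are still alive at `1` generate the same ideal -/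
lemma Bub.tiers {v : A} (hv : Bub v) {δ : ℝ} (hδ : 0 < δ) {m : ℕ} (hm : (m + 1) * δ ≤ 1) :
    Bub (cfc (rp δ m) v) ∧ Gen v (cfc (rp δ m) v) ∧ Gen (cfc (rp δ m) v) v := by
  have g : Gen (cfc (rp δ m) v) v := .of_cfc hv.1.isSelfAdjoint (rp_cont _ _) (rp_at_zero _ _)
  have h : ∀ p : Pt A, p.π v ≠ 0 → 1 ≤ ‖p.π (cfc (rp δ m) v)‖ := fun p hp =>
    p.rp_one hδ m hv.1 (hm.trans (hv.2 p hp))
  exact ⟨⟨(rp_unit _ _ _).1, fun p hp => h p (mt (g p) hp)⟩,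
    fun p hp => not_not.1 fun h0 => p.ne_zero (h p h0) hp, g⟩

theorem Bub.her {v a : A} (hv : Bub v) (h : Gen v a) :
    ∃ Y, Bub Y ∧ Y ≤ 1 ∧ Gen Y v ∧ Gen v Y ∧ Gen Y a ∧ ∀ z, z * a = 0 → z * Y = 0 := by
  obtain ⟨F, γ, hγ, hF⟩ := cpt (fun c => a * c * v * star (a * c * v)) hv.1 one_pos
    fun p hp h1 => by
      obtain ⟨c, hc⟩ := not_forall.1 fun h2 =>
        (hp a v h2).elim (mt (h p) (p.ne_zero h1)) (p.ne_zero h1)
      exact ⟨c, by rwa [map_mul, map_star, Ne, CStarRing.mul_star_self_eq_zero_iff]⟩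
  have w0 : ∀ c ∈ F, 0 ≤ a * c * v * star (a * c * v) := fun c _ => mul_star_self_nonneg _
  have y0 := Finset.sum_nonneg w0
  have g := Gen.of_cfc y0.isSelfAdjoint (rp_cont γ 0) (rp_at_zero _ _)
  have gv : Gen (∑ c ∈ F, a * c * v * star (a * c * v)) v := fun p hp => by simp [map_sum, hp]
  have ga : Gen (∑ c ∈ F, a * c * v * star (a * c * v)) a := fun p hp => by simp [map_sum, hp]
  have h1 : ∀ p : Pt A, p.π v ≠ 0 →
      1 ≤ ‖p.π (cfc (rp γ 0) (∑ c ∈ F, a * c * v * star (a * c * v)))‖ := fun p hp => by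
    obtain ⟨c, c1, c2⟩ := hF p (hv.2 p hp)
    refine p.rp_one hγ 0 y0 ?_
    rw [Nat.cast_zero, zero_add, one_mul]
    exact c2.trans (p.mono (w0 c c1) (Finset.single_le_sum w0 c1))
  refine ⟨_, ⟨(rp_unit _ _ _).1, fun p hp => h1 p (mt (g.trans gv p) hp)⟩, (rp_unit _ _ _).2,
    g.trans gv, fun p hp => not_not.1 fun h0 => p.ne_zero (h1 p h0) hp, g.trans ga, fun z hz =>
    mul_cfc_eq_zero y0.isSelfAdjoint ?_ (rp_cont _ _) (rp_at_zero _ _)⟩
  rw [Finset.mul_sum]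
  exact Finset.sum_eq_zero fun c _ => by simp only [← mul_assoc, hz, zero_mul]

theorem TD.cover (hT : TD j) {Λ : Type*} (w : Λ → A) (hw : ∀ l, (∃ c, j c = w l) ∧ 0 ≤ w l)
    {x : A} (x0 : 0 ≤ x) {η : ℝ} (hη : 0 < η)
    (h : ∀ p : Pt A, Prm p → η ≤ ‖p.π x‖ → ∃ l, p.π (w l) ≠ 0) :
    ∃ (F : Finset Λ) (v : Λ → A), (∀ l, Bub (v l) ∧ Gen (v l) (w l)) ∧
      ∀ p : Pt A, η ≤ ‖p.π x‖ → ∃ l ∈ F, p.π (v l) ≠ 0 := by
  obtain ⟨F, γ, hγ, hF⟩ := cpt w x0 hη h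
  choose v v1 v2 v3 using fun l => hT (w l) (hw l).1 (hw l).2 γ hγ
  exact ⟨F, v, fun l => ⟨v1 l, v2 l⟩, fun p hp => (hF p hp).imp fun l hl => ⟨hl.1, v3 l p hl.2⟩⟩

theorem TD.between (hT : TD j) (hj : Idl j) {δ : ℝ} (hδ : 0 < δ) {d : A} (hd : ∃ c, j c = d)
    (d0 : 0 ≤ d) : ∃ u, (∃ c, j c = u) ∧ Bub u ∧ u ≤ 1 ∧
      u * cfc (rp δ 8) d = cfc (rp δ 8) d ∧ cfc (rp δ 1) d * u = u := by
  have am := hj.cfc_mem hd (rp_cont δ 2) (rp_at_zero _ _)
  obtain ⟨v0, b0, g0, h0⟩ := hT _ am (rp_unit _ _ _).1 1 one_pos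
  obtain ⟨v, b1, -, -, g2, g3, hz⟩ := b0.her g0
  have t12 := rp_tier (δ := δ) (show 1 < 2 by norm_num) d
  have t15 := rp_tier (δ := δ) (show 1 < 5 by norm_num) d
  have t25 := rp_tier (δ := δ) (show 2 < 5 by norm_num) d
  have t58 := rp_tier (δ := δ) (show 5 < 8 by norm_num) d
  have t78 := rp_tier (δ := δ) (show 7 < 8 by norm_num) d
  have cm : Commute (cfc (rp δ 1) d) (1 - cfc (rp δ 7) d) :=
    (Commute.one_right _).sub_right (cfc_commute_cfc _ _ _)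
  have s7 : IsSelfAdjoint (1 - cfc (rp δ 7) d) := (IsSelfAdjoint.one A).sub IsSelfAdjoint.cfc
  have ev : cfc (rp δ 1) d * v = v := by
    have := hz (1 - cfc (rp δ 1) d) (by rw [sub_mul, one_mul, t12, sub_self])
    rw [sub_mul, one_mul, sub_eq_zero] at this
    exact this.symm
  have X0 : 0 ≤ (1 - cfc (rp δ 7) d) * v * (1 - cfc (rp δ 7) d) := s7.conjugate_nonneg b1.1
  have u5 := (rp_unit δ 5 d).1
  set X := (1 - cfc (rp δ 7) d) * v * (1 - cfc (rp δ 7) d) with hX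
  have bu : Bub (cfc (rp δ 5) d + X) := ⟨add_nonneg u5 X0, fun p hp => by
    rcases le_total (6 * δ) ‖p.π d‖ with h | h
    · exact (p.rp_one hδ 5 d0 (by norm_num; exact h)).trans
        (p.mono u5 (le_add_of_nonneg_right X0))
    · have h7 := (p.rp_eq_zero hδ 7 d0).2 (by norm_num; linarith)
      have hv : p.π X = p.π v := by simp [hX, h7]
      refine ((b1.2 p fun h1 => ?_).trans_eq (by rw [hv])).trans
        (p.mono X0 (le_add_of_nonneg_left u5))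
      rw [map_add, hv, h1, add_zero, Ne, p.rp_eq_zero hδ 5 d0, not_le] at hp
      refine h0 p (p.rp_one hδ 2 d0 ?_) (g2 p h1)
      norm_num at hp ⊢
      linarith⟩
  obtain ⟨c1, -, c3⟩ := bu.tiers one_pos (m := 0) (by norm_num)
  have us := bu.1.isSelfAdjoint
  refine ⟨_, (c3.trans fun p hp => ?_).mem hj am, c1, (rp_unit _ _ _).2, ?_, ?_⟩
  · rw [map_add, ← t25, map_mul, hp, zero_mul, zero_add, hX, map_mul, map_mul, g3 p hp, mul_zero,
      zero_mul]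
  · have := cfc_mul_eq_zero' us (y := cfc (rp δ 8) d) (by
      rw [add_mul, t58, hX, mul_assoc, sub_mul _ _ (cfc (rp δ 8) d), one_mul, t78, sub_self,
        mul_zero, add_zero]) (f := fun t => rp 1 0 t - 1) (by fun_prop)
      (by rw [rp, cl_of_one_le (by norm_num), sub_self])
    rwa [cfc_sub _ _ _ (rp_cont _ _).continuousOn, cfc_const_one ℝ _, sub_mul, one_mul,
      sub_eq_zero] at this
  · have := mul_cfc_eq_zero us (y := 1 - cfc (rp δ 1) d) (by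
      rw [sub_mul, one_mul, mul_add, t15, hX, ← mul_assoc, ← mul_assoc, cm.eq, mul_assoc _ _ v, ev,
        sub_self]) (rp_cont 1 0) (rp_at_zero _ _)
    rw [sub_mul, one_mul, sub_eq_zero] at this
    exact this.symm

lemma Idl.qc_eps (h : Idl j) {κ κ' : Type*} [Finite κ] [Finite κ'] (s : κ → A) (c : κ' → A)
    (hc : ∀ i, ∃ b, j b = c i) {ε : ℝ} (hε : 0 < ε) : ∃ t, (∃ b, j b = t) ∧ 0 ≤ t ∧ t ≤ 1 ∧
      (∀ i, ‖s i * t - t * s i‖ ≤ ε) ∧ ∀ i, ‖t * c i - c i‖ ≤ ε := by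
  haveI := Fintype.ofFinite κ
  haveI := Fintype.ofFinite κ'
  choose b hb using hc
  obtain ⟨t, t1, t2, t3, t4, t5⟩ := h.exists_qc s b
  have e1 : ∀ i, ∀ᶠ k in (om : Filter ℕ), ‖Bdd.ev k (cst (s i) * t - t * cst (s i))‖ < ε :=
    fun i => Ult.eventually_lt (by
      rw [map_sub, map_mul, map_mul, ← dg_apply, (t4 i).eq, sub_self, norm_zero]; exact hε)
  have e2 : ∀ i, ∀ᶠ k in (om : Filter ℕ), ‖Bdd.ev k (t * cst (c i) - cst (c i))‖ < ε :=
    fun i => Ult.eventually_lt (by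
      rw [map_sub, map_mul, ← dg_apply, ← hb, t5, sub_self, norm_zero]; exact hε)
  obtain ⟨k, k1, k2⟩ := ((eventually_all.2 e1).and (eventually_all.2 e2)).exists
  exact ⟨Bdd.ev k t, t1 k, hom_nonneg _ t2, by simpa using hom_mono (Bdd.ev k) t3,
    fun i => by simpa using (k1 i).le, fun i => by simpa using (k2 i).le⟩

/-- quasicentral units of the ideals generated by the terms of a sequence -/
theorem tierG (Y : ℕ → A) {ι κ : Type*} [Finite ι] [Finite κ] (s : ι → UA A) (b : κ → BA A)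
    (hb : ∀ i k, Gen (Bdd.ev k (b i)) (Y k)) :
    ∃ t : BA A, 0 ≤ t ∧ t ≤ 1 ∧ (∀ k, Gen (Bdd.ev k t) (Y k)) ∧ Ult.mk t ∈ Cn (Set.range s) ∧
      ∀ i, Ult.mk t * Ult.mk (b i) = Ult.mk (b i) := by
  choose s' hs using fun i => Ult.surj (s i)
  have key : ∀ k : ℕ, ∃ t, Gen t (Y k) ∧ 0 ≤ t ∧ t ≤ 1 ∧
      (∀ i : ι × Bool, ‖Bdd.ev k (cond i.2 (s' i.1) (star (s' i.1))) * t -
        t * Bdd.ev k (cond i.2 (s' i.1) (star (s' i.1)))‖ ≤ 1 / ((k : ℝ) + 1)) ∧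
      ∀ i, ‖t * Bdd.ev k (b i) - Bdd.ev k (b i)‖ ≤ 1 / ((k : ℝ) + 1) := fun k => by
    obtain ⟨I, _, _, _, i, h1, h2⟩ := exists_idl_gen (Y k)
    obtain ⟨t, t1, t2⟩ := h1.qc_eps
      (fun i : ι × Bool => Bdd.ev k (cond i.2 (s' i.1) (star (s' i.1)))) (fun i => Bdd.ev k (b i))
      (fun i => (h2 _).2 (hb i k)) (show (0 : ℝ) < 1 / ((k : ℝ) + 1) by positivity)
    exact ⟨t, (h2 t).1 t1, t2⟩
  choose t t0 t1 t2 t3 t4 using key
  let T : BA A := Bdd.of t 1 fun k => norm_le_one_of (t1 k) (t2 k)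
  have cm : ∀ i : ι × Bool, Commute (Ult.mk (cond i.2 (s' i.1) (star (s' i.1)))) (Ult.mk T) :=
    fun i => by
      change _ * _ = _ * _
      rw [← map_mul, ← map_mul]
      exact Ult.mk_eq_of_le 1 fun k => by rw [one_mul, map_mul, map_mul]; exact t3 k i
  refine ⟨T, Bdd.nonneg t1, Bdd.le fun k => by rw [map_one]; exact t2 k, t0, mem_Cn.2 ?_,
    fun i => ?_⟩
  · rintro _ ⟨i, rfl⟩
    exact ⟨by simpa only [cond, hs] using cm (i, true),
      by simpa only [cond, map_star, hs] using cm (i, false)⟩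
  · rw [← map_mul]
    exact Ult.mk_eq_of_le 1 fun k => by rw [one_mul, map_mul]; exact t4 k i

end Pool.Agent.Lib.MP_30b5b4_an
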