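import Pool.Agent.Lib.MP_30b5b4_an.Simp
import Pool.Agent.Lib.MP_30b5b4_an.Amp

/-! Ideals of topological dimension zero: internal definitions. -/

open scoped CStarAlgebra ComplexOrder Topology
open Filter

set_option linter.unusedSectionVars false
set_option linter.style.haveILetI false
set_option linter.unusedVariables false

namespace Pool.Agent.Lib.MP_30b5b4_an

universe u v

/-- A quotient of `A`. -/
structure Pt (A : Type u) [CStarAlgebra A] : Type (u + 1) where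
  Q : Type u
  [alg : CStarAlgebra Q]
  [ord : PartialOrder Q]
  [sor : StarOrderedRing Q]
  π : A →⋆ₐ[ℂ] Q
  surj : Function.Surjective π

section
variable {A : Type u} [CStarAlgebra A]

noncomputable instance (p : Pt A) : CStarAlgebra p.Q := p.alg
instance (p : Pt A) : PartialOrder p.Q := p.ord
instance (p : Pt A) : StarOrderedRing p.Q := p.sor

/-- The quotient is prime. -/
def Prm (p : Pt A) : Prop := ∀ a b, (∀ c, p.π (a * c * b) = 0) → p.π a = 0 ∨ p.π b = 0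

/-- `x` lies in the closed ideal generated by `y`. -/
def Gen (x y : A) : Prop := ∀ p : Pt A, p.π y = 0 → p.π x = 0

variable [PartialOrder A] [StarOrderedRing A]

/-- `v` has norm at least one in every quotient in which it survives. -/
def Bub (v : A) : Prop := 0 ≤ v ∧ ∀ p : Pt A, p.π v ≠ 0 → 1 ≤ ‖p.π v‖

/-- `Y` survives, uniformly along the sequence, in all quotients in which `u` survives. -/
def Big (u : A) (Y : UA A) : Prop :=
  ∃ r : ℝ, 0 < r ∧ ∃ y : BA A, Ult.mk y = Y ∧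
    ∀ᶠ k in (om : Filter ℕ), ∀ p : Pt A, p.π u ≠ 0 → r ≤ ‖p.π (Bdd.ev k y)‖

lemma rp_mix {δ δ' : ℝ} (hδ : 0 < δ) (hδ' : 0 < δ') {m m' : ℕ} (h : (m + 1) * δ ≤ m' * δ')
    (x : A) : cfc (rp δ m) x * cfc (rp δ' m') x = cfc (rp δ' m') x := by
  rw [cfc_mul' (rp_cont _ _) (rp_cont _ _)]
  refine congrArg (cfc · x) (funext fun t => ?_)
  rcases le_total t (m' * δ') with h1 | h1
  · rw [rp, rp, cl_of_nonpos (sub_nonpos.2 ((div_le_iff₀ hδ').2 h1)), mul_zero]
  · rw [rp, cl_of_one_le (by linarith [(le_div_iff₀ hδ).2 (h.trans h1)]), one_mul]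

variable {J : Type*} [NonUnitalCStarAlgebra J]

/-- The ideal has topological dimension zero. -/
def TD (j : J →⋆ₙₐ[ℂ] A) : Prop :=
  ∀ w : A, (∃ c, j c = w) → 0 ≤ w → ∀ γ : ℝ, 0 < γ →
    ∃ v, Bub v ∧ Gen v w ∧ ∀ p : Pt A, γ ≤ ‖p.π w‖ → p.π v ≠ 0

/-- The ideal is nowhere scattered. -/
def NS (j : J →⋆ₙₐ[ℂ] A) : Prop := ∀ p : Pt A, Hv ((p.π : A →⋆ₙₐ[ℂ] p.Q).comp j)

/-- Output of the innermost layer, with a source for each block. -/
def InQ {τ β : Type} (P : Type) [Fintype P] [DecidableEq P] (T : τ → UA A) (x y : β → UA A) :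
    Prop :=
  ∃ σ : P → UA A, (∀ p, ‖σ p‖ ≤ 1) ∧ ∃ w : β → P → UA A, (∀ b p, ‖w b p‖ ≤ 1) ∧
    ∃ G : ℕ → CA A, (∀ t, T t ∈ VS G) ∧
      (∀ p, σ p ∈ VS G ∧ 0 ≤ σ p ∧ σ p ∈ Cn (Set.range T)) ∧ ∑ p, σ p ≤ 1 ∧
      ∀ b p, uT G 1 * w b p = w b p ∧ y b * w b p = w b p ∧
        star (w b p) * w b p * ((1 - uT G 1) * x b) = (1 - uT G 1) * x b ∧
        ∀ p', σ p' * w b p = if p' = p then w b p else 0

end

end Pool.Agent.Lib.MP_30b5b4_an
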