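import Pool.Agent.Lib.MP_30b5b4_an.T.Bub
import Pool.Agent.Lib.MP_30b5b4_an.S.K

/-! Orthogonal full elements and coloured division. -/

open scoped CStarAlgebra ComplexOrder Topology
open Filter

set_option linter.unusedSectionVars false
set_option linter.style.haveILetI false
set_option linter.unusedVariables false
set_option linter.unusedSimpArgs false
set_option synthInstance.maxSize 1000000

namespace Pool.Agent.Lib.MP_30b5b4_an

universe u v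

variable {J : Type*} {A : Type u} [NonUnitalCStarAlgebra J] [PartialOrder J] [StarOrderedRing J]
  [CStarAlgebra A] [PartialOrder A] [StarOrderedRing A] {j : J →⋆ₙₐ[ℂ] A} {N : ℕ}

/-- orthogonal elements that survive in a given quotient -/
theorem NS.loc (hN : NS j) (hj : Idl j) (p : Pt A) {b b' : A} (hb : ∃ c, j c = b) (b0 : 0 ≤ b)
    (b1 : p.π b ≠ 0) (s' : IsSelfAdjoint b') (h' : b' * b = b) (n : ℕ) :
    ∃ (ζ : A) (f : Fin n → ℝ → ℝ), (∃ c, j c = ζ) ∧ IsSelfAdjoint ζ ∧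
      (∀ z, z * b' = 0 → z * ζ = 0) ∧
      (∀ l, Continuous (f l) ∧ f l 0 = 0 ∧ (∀ t, 0 ≤ f l t) ∧ p.π (cfc (f l) ζ) ≠ 0) ∧
      ∀ l m, l ≠ m → ∀ t, f l t * f m t = 0 := by
  obtain ⟨c, rfl⟩ := hb
  obtain ⟨z, z1, z2⟩ := (hN p).many n (b := p.π (j c)) ⟨c, rfl⟩ (hom_nonneg _ b0) b1
  choose a ha using fun l => (z1 l).1
  replace ha : ∀ l, p.π (j (a l)) = z l := ha
  have d : (0 : ℝ) < 1 / 4 := by norm_num
  have r0 : ∀ m, 0 < m → rp (1 / 4) m 0 = 0 := fun m hm => rp_zero d hm d.le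
  let y : Fin n → A := fun l => star (j (a l)) * j (a l)
  have y0 : ∀ l, 0 ≤ y l := fun l => star_mul_self_nonneg _
  have zs : ∀ l, star (z l) = z l := fun l => (z1 l).2.1.star_eq
  have y1 : ∀ l, p.π (y l) = z l * z l := fun l => by rw [map_mul, map_star, ha, zs]
  have u0 : ∀ l, 0 ≤ z l * z l := fun l => y1 l ▸ hom_nonneg _ (y0 l)
  have u1 : ∀ l m k k', 0 < k → 0 < k' → l ≠ m →
      cfc (rp (1 / 4) k) (z l * z l) * cfc (rp (1 / 4) k') (z m * z m) = 0 :=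
    fun l m k k' hk hk' hl => cfc_mul_eq_zero (u0 l).isSelfAdjoint (mul_cfc_eq_zero
      (u0 m).isSelfAdjoint (by rw [mul_assoc, ← mul_assoc (z l) (z m), z2 l m hl, zero_mul,
        mul_zero]) (rp_cont _ _) (r0 _ hk')) (rp_cont _ _) (r0 _ hk)
  have u2 : ∀ l, p.π b' * cfc (rp (1 / 4) 3) (z l * z l) = cfc (rp (1 / 4) 3) (z l * z l) :=
    fun l => by
      have := mul_cfc_eq_zero (u0 l).isSelfAdjoint (y := 1 - p.π b') (by
        rw [← mul_assoc, (z1 l).2.2.2 (1 - p.π b')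
          (by rw [sub_mul, ← map_mul, h', one_mul, sub_self]), zero_mul]) (rp_cont (1 / 4) 3) (r0 3 three_pos)
      rwa [sub_mul, one_mul, sub_eq_zero, eq_comm] at this
  let ζ : A := ∑ l : Fin n, (((l : ℕ) : ℝ) + 1) • cfc (rp (1 / 4) 2) (y l)
  have s0 : IsSelfAdjoint ζ := isSelfAdjoint_sum _ fun l _ =>
    (IsSelfAdjoint.all _).smul IsSelfAdjoint.cfc
  have s1 : IsSelfAdjoint (b' * ζ * b') := by
    simpa only [s'.star_eq] using s0.conjugate' b'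
  have m0 : ζ ∈ NonUnitalStarAlgHom.range j := sum_mem fun l _ => by
    rw [← Complex.coe_smul]
    exact SMulMemClass.smul_mem _ (hj.cfc_mem ⟨star (a l) * a l, by rw [map_mul, map_star]⟩
      (rp_cont _ _) (r0 2 two_pos))
  obtain ⟨c', hc'⟩ := m0
  replace hc' : j c' = ζ := hc'
  refine ⟨b' * ζ * b', fun l t => max (1 - 2 * |t - (((l : ℕ) : ℝ) + 1)|) 0,
    hc' ▸ hj.both b' b' c', s1, fun w hw => by rw [← mul_assoc, ← mul_assoc, hw, zero_mul, zero_mul],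
    fun l => ⟨by fun_prop, ?_, fun t => le_max_right _ _, fun h0 => ?_⟩, fun l m hl t => ?_⟩
  · have : (0 : ℝ) ≤ (l : ℕ) := Nat.cast_nonneg _
    beta_reduce
    rw [zero_sub, abs_neg, abs_of_nonneg (by positivity)]
    exact max_eq_right (by linarith)
  · have l0 : (0 : ℝ) < ((l : ℕ) : ℝ) + 1 := by positivity
    have e1 : p.π (b' * ζ * b') * cfc (rp (1 / 4) 3) (z l * z l) =
        (((l : ℕ) : ℝ) + 1) • cfc (rp (1 / 4) 3) (z l * z l) := by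
      rw [map_mul, map_mul, mul_assoc, u2, mul_assoc, map_sum, Finset.sum_mul,
        Finset.sum_eq_single l (fun m _ hm => ?_) (by simp)]
      · rw [hom_real_smul, hom_cfc _ (rp_cont _ _) (y0 l).isSelfAdjoint, y1, smul_mul_assoc,
          rp_tier (by norm_num), mul_smul_comm, u2]
      · rw [hom_real_smul, hom_cfc _ (rp_cont _ _) (y0 m).isSelfAdjoint, y1, smul_mul_assoc,
          u1 m l 2 3 two_pos three_pos hm, smul_zero]
    rw [hom_cfc _ (by fun_prop) s1] at h0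
    have s2 := s1.map p.π
    generalize p.π (b' * ζ * b') = X at e1 h0 s2
    have e2 := cfc_mul_eq_self (x := (((l : ℕ) : ℝ) + 1)⁻¹ • X) ((IsSelfAdjoint.all _).smul s2)
      (y := cfc (rp (1 / 4) 3) (z l * z l)) (by
        rw [smul_mul_assoc, e1, smul_smul, inv_mul_cancel₀ l0.ne', one_smul])
      (f := fun t => max (1 - 2 * |(((l : ℕ) : ℝ) + 1) • t - (((l : ℕ) : ℝ) + 1)|) 0)
      (by fun_prop) (by simp)
    rw [cfc_comp_smul (((l : ℕ) : ℝ) + 1) (fun t => max (1 - 2 * |t - (((l : ℕ) : ℝ) + 1)|) 0) _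
      (by fun_prop) ((IsSelfAdjoint.all _).smul s2), smul_smul, mul_inv_cancel₀ l0.ne', one_smul,
      h0, zero_mul] at e2
    refine rp_ne_zero d (u0 l) (m := 3) ?_ e2.symm
    rw [(z1 l).2.1.isSelfAdjoint.norm_mul_self, (z1 l).2.2.1]
    norm_num
  · by_contra h0
    obtain ⟨h1, h2⟩ := mul_ne_zero_iff.1 h0
    rw [ne_eq, max_eq_right_iff, not_le] at h1 h2
    have h3 := abs_lt.1 (show |t - (((l : ℕ) : ℝ) + 1)| < 1 / 2 by linarith)
    have h4 := abs_lt.1 (show |t - (((m : ℕ) : ℝ) + 1)| < 1 / 2 by linarith)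
    have h5 : (l : ℕ) < m + 1 := by exact_mod_cast (show ((l : ℕ) : ℝ) < (m : ℕ) + 1 by linarith)
    have h6 : (m : ℕ) < l + 1 := by exact_mod_cast (show ((m : ℕ) : ℝ) < (l : ℕ) + 1 by linarith)
    exact hl (Fin.ext (by omega))

lemma orth_step {n : ℕ} {X V v ζ : A} {f : Fin n → ℝ → ℝ} {Y : Fin n → A} (hV : Bub V) (hv : Bub v)
    (s0 : IsSelfAdjoint ζ) (hζ : (1 - X) * ζ = 0)
    (hf : ∀ l, Continuous (f l) ∧ f l 0 = 0 ∧ (∀ t, 0 ≤ f l t) ∧ Gen v (cfc (f l) ζ))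
    (ff : ∀ l m, l ≠ m → ∀ t, f l t * f m t = 0)
    (hY : ∀ l, Bub (Y l) ∧ Y l ≤ 1 ∧ (1 - X) * Y l = 0 ∧ Gen (Y l) V ∧ Gen V (Y l))
    (YY : ∀ l m, l ≠ m → Y l * Y m = 0) :
    ∃ Y' : Fin n → A, (∀ l, Bub (Y' l) ∧ Y' l ≤ 1 ∧ (1 - X) * Y' l = 0 ∧ Gen (Y' l) (v + V) ∧
      Gen (v + V) (Y' l)) ∧ ∀ l m, l ≠ m → Y' l * Y' m = 0 := by
  have d : (0 : ℝ) < 1 / 4 := by norm_num
  have r0 : ∀ m, 0 < m → rp (1 / 4) m 0 = 0 := fun m hm => rp_zero d hm d.le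
  have ys : ∀ l, IsSelfAdjoint (Y l) := fun l => (hY l).1.1.isSelfAdjoint
  have u1 : ∀ l m k k', 0 < k → 0 < k' → l ≠ m →
      cfc (rp (1 / 4) k) (Y l) * cfc (rp (1 / 4) k') (Y m) = 0 := fun l m k k' hk hk' hl =>
    cfc_mul_eq_zero (ys l) (mul_cfc_eq_zero (ys m) (YY l m hl) (rp_cont _ _) (r0 _ hk'))
      (rp_cont _ _) (r0 _ hk)
  have u2 : ∀ l k, 0 < k → (1 - X) * cfc (rp (1 / 4) k) (Y l) = 0 := fun l k hk =>
    mul_cfc_eq_zero (ys l) (hY l).2.2.1 (rp_cont _ _) (r0 _ hk)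
  set e := ∑ m, cfc (rp (1 / 4) 1) (Y m) with he
  have e0 : IsSelfAdjoint (1 - e) :=
    (IsSelfAdjoint.one A).sub (isSelfAdjoint_sum _ fun _ _ => IsSelfAdjoint.cfc)
  have s1 : IsSelfAdjoint ((1 - e) * ζ * (1 - e)) := by
    simpa only [e0.star_eq] using s0.conjugate' (1 - e)
  have a1 : ∀ l, (1 - e) * cfc (rp (1 / 4) 2) (Y l) = 0 := fun l => by
    rw [sub_mul, he, Finset.sum_mul, Finset.sum_eq_single l
      (fun m _ hm => u1 m l 1 2 one_pos two_pos hm) (by simp), rp_tier one_lt_two, one_mul, sub_self]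
  have a2 : (1 - X) * ((1 - e) * ζ * (1 - e)) = 0 := by
    rw [← mul_assoc, ← mul_assoc, mul_sub (1 - X), mul_one, he, Finset.mul_sum]
    simp only [u2 _ 1 one_pos, Finset.sum_const_zero, sub_zero, hζ, zero_mul]
  have a3 : ∀ p : Pt A, p.π V = 0 → p.π ((1 - e) * ζ * (1 - e)) = p.π ζ := fun p hp => by
    have : p.π e = 0 := by
      rw [he, map_sum]
      exact Finset.sum_eq_zero fun m _ => Gen.of_cfc (ys m) (rp_cont _ _) (r0 1 one_pos) p
        ((hY m).2.2.2.1 p hp)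
    rw [map_mul, map_mul, map_sub, this, map_one, sub_zero, one_mul, mul_one]
  generalize hξ : (1 - e) * ζ * (1 - e) = ξ at s1 a2 a3
  have a4 : ∀ l m, cfc (f m) ξ * cfc (rp (1 / 4) 2) (Y l) = 0 := fun l m =>
    cfc_mul_eq_zero s1 (by rw [← hξ, mul_assoc, a1, mul_zero]) (hf m).1 (hf m).2.1
  let z : Fin n → A := fun l => cfc (rp (1 / 4) 2) (Y l) + cfc (f l) ξ
  have f0 : ∀ l, 0 ≤ cfc (f l) ξ := fun l => cfc_nonneg fun t _ => (hf l).2.2.1 t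
  have z0 : ∀ l, IsSelfAdjoint (z l) := fun l => IsSelfAdjoint.cfc.add IsSelfAdjoint.cfc
  have zz : ∀ l m, l ≠ m → z l * z m = 0 := fun l m hl => by
    simp only [z]
    rw [add_mul, mul_add, mul_add, u1 l m 2 2 two_pos two_pos hl, a4,
      mul_eq_zero_comm_sa IsSelfAdjoint.cfc IsSelfAdjoint.cfc (a4 l m), cfc_mul' (hf l).1 (hf m).1]
    simp only [ff l m hl, zero_add]
    exact cfc_zero ℝ ξ
  have g1 : ∀ l, Gen (v + V) (z l) := fun l p hp => by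
    rw [map_add, add_eq_zero_iff_of_nonneg (hom_nonneg _ (rp_unit _ _ _).1)
      (hom_nonneg _ (f0 l))] at hp
    have b1 := (p.rp_eq_zero d 2 (hY l).1.1).1 hp.1
    have b2 : p.π (Y l) = 0 := by
      by_contra h0
      have := (hY l).1.2 p h0
      norm_num at b1
      linarith
    have b3 := (hY l).2.2.2.2 p b2
    rw [map_add, b3, add_zero]
    refine (hf l).2.2.2 p ?_
    rw [hom_cfc _ (hf l).1 s0, ← a3 p b3, ← hom_cfc _ (hf l).1 s1, hp.2]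
  choose Y' b1 b2 b3 b4 _ b6 using fun l => (hv.add hV).1.her (g1 l)
  refine ⟨Y', fun l => ⟨b1 l, b2 l, b6 l _ ?_, b3 l, b4 l⟩, fun l m hl => b6 m _
    (mul_eq_zero_comm_sa (z0 m) (b1 l).1.isSelfAdjoint (b6 l _ (zz m l hl.symm)))⟩
  rw [mul_add, u2 l 2 two_pos, mul_cfc_eq_zero s1 a2 (hf l).1 (hf l).2.1, add_zero]

theorem TD.orth (hT : TD j) (hN : NS j) (hj : Idl j) {b b' X x : A} (hb : ∃ c, j c = b)
    (b0 : 0 ≤ b) (s' : IsSelfAdjoint b') (h' : b' * b = b) (X0 : IsSelfAdjoint X)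
    (hX : X * b' = b') (x0 : 0 ≤ x) {η : ℝ} (hη : 0 < η)
    (h : ∀ p : Pt A, η ≤ ‖p.π x‖ → p.π b ≠ 0) (n : ℕ) :
    ∃ Y : Fin n → A, (∀ l, Bub (Y l) ∧ Y l ≤ 1 ∧ X * Y l = Y l ∧
      ∀ p : Pt A, η ≤ ‖p.π x‖ → p.π (Y l) ≠ 0) ∧ ∀ l m, l ≠ m → Y l * Y m = 0 := by
  classical
  let Λ := {q : A × (Fin n → ℝ → ℝ) × A // IsSelfAdjoint q.1 ∧ (1 - X) * q.1 = 0 ∧
    (∀ l, Continuous (q.2.1 l) ∧ q.2.1 l 0 = 0 ∧ (∀ t, 0 ≤ q.2.1 l t) ∧
      Gen q.2.2 (cfc (q.2.1 l) q.1)) ∧ (∀ l m, l ≠ m → ∀ t, q.2.1 l t * q.2.1 m t = 0) ∧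
    (∃ c, j c = q.2.2) ∧ 0 ≤ q.2.2}
  obtain ⟨F, v, v1, v2⟩ := hT.cover (fun q : Λ => q.1.2.2) (fun q => q.2.2.2.2.2) x0 hη
    fun p hp h1 => by
      obtain ⟨ζ, f, -, a2, a3, a4, a5⟩ := hN.loc hj p hb b0 (h p h1) s' h' n
      obtain ⟨w, w1, w2, w3, w4⟩ := hp.prod hj hb (h p h1) Finset.univ (fun l => cfc (f l) ζ)
        fun l _ => (a4 l).2.2.2
      exact ⟨⟨(ζ, f, w), a2, a3 _ (by rw [sub_mul, hX, one_mul, sub_self]), fun l =>
        ⟨(a4 l).1, (a4 l).2.1, (a4 l).2.2.1, w4 l (Finset.mem_univ l)⟩, a5, w1, w2⟩, w3⟩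
  have key : ∀ s : Finset Λ, ∃ Y : Fin n → A, (∀ l, Bub (Y l) ∧ Y l ≤ 1 ∧ (1 - X) * Y l = 0 ∧
      Gen (Y l) (∑ i ∈ s, v i) ∧ Gen (∑ i ∈ s, v i) (Y l)) ∧ ∀ l m, l ≠ m → Y l * Y m = 0 := by
    intro s
    induction s using Finset.induction_on with
    | empty => exact ⟨fun _ => 0, fun _ => ⟨Bub.zero, zero_le_one, mul_zero _, Gen.refl _,
        Gen.refl _⟩, fun _ _ _ => mul_zero _⟩
    | insert i s hi ih =>
      obtain ⟨Y, y1, y2⟩ := ih
      rw [Finset.sum_insert hi]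
      exact orth_step (Bub.sum s fun k _ => (v1 k).1).1 (v1 i).1 i.2.1 i.2.2.1 (fun l =>
        ⟨(i.2.2.2.1 l).1, (i.2.2.2.1 l).2.1, (i.2.2.2.1 l).2.2.1,
          (v1 i).2.trans (i.2.2.2.1 l).2.2.2⟩) i.2.2.2.2.1 y1 y2
  obtain ⟨Y, y1, y2⟩ := key F
  refine ⟨Y, fun l => ⟨(y1 l).1, (y1 l).2.1, ?_, fun p hp h0 => ?_⟩, y2⟩
  · have := (y1 l).2.2.1
    rwa [sub_mul, one_mul, sub_eq_zero, eq_comm] at this
  · obtain ⟨i, hi, h1⟩ := v2 p hp
    exact h1 ((Bub.sum F fun k _ => (v1 k).1).2 i hi p ((y1 l).2.2.2.2 p h0))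

theorem TD.ndiv (hT : TD j) (hN : NS j) (hj : Idl j) (hA : ApA A N) : NDiv j N := by
  intro δ hδ m hm b hb b0
  have hδ' := half_pos hδ
  have d : (0 : ℝ) < 1 / 4 := by norm_num
  have r0 : ∀ m, 0 < m → rp (1 / 4) m 0 = 0 := fun m hm => rp_zero d hm d.le
  have e : ∀ k, dg (cfc (rp δ k) b) = cfc (rp δ k) (dg b : UA A) := fun k =>
    hom_cfc _ (rp_cont _ _) b0.isSelfAdjoint
  obtain ⟨Y, y1, y2⟩ := hT.orth hN hj (b := cfc (rp (δ / 2) 7) b) (b' := cfc (rp (δ / 2) 6) b)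
    (X := cfc (rp δ 2) b) (x := b) (hj.cfc_mem hb (rp_cont _ _) (rp_zero hδ' (by norm_num) hδ'.le))
    (rp_unit _ _ _).1 IsSelfAdjoint.cfc (rp_tier (by norm_num) b) IsSelfAdjoint.cfc
    (rp_mix hδ hδ' (by push_cast; linarith) b) b0 (η := 4 * δ) (by positivity) (fun p hp h0 => by
      have := (p.rp_eq_zero hδ' 7 b0).1 h0
      push_cast at this
      linarith) (2 * ∑ i, m i)
  have ys : ∀ l, IsSelfAdjoint (Y l) := fun l => (y1 l).1.1.isSelfAdjoint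
  choose K V v1 v2 using fun l => Gen.sub (g' := cfc (rp δ 4) b) (z := cfc (rp (1 / 4) 3) (Y l))
    (fun p hp => (p.rp_eq_zero hδ 4 b0).2 (not_lt.1 fun h1 => by
      have h2 := (y1 l).1.2 p ((y1 l).2.2.2 p (by exact_mod_cast h1.le))
      have h3 := (p.rp_eq_zero d 3 (y1 l).1.1).1 hp
      norm_num at h3
      linarith)) (rp_unit δ 5 b).1 (rp_tier (by norm_num) b) (rp_tier (m' := 6) (by norm_num) b)
    (rp_tier (m := 2) (by norm_num) _)
  have one : ∀ {a : A}, a ≤ 1 → (dg a : UA A) ≤ 1 := fun h => by simpa using hom_mono dg h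
  obtain ⟨c, γ, ξ, h1, -, h3, h4, h5, h6, h7, h8⟩ := hA.ndiv m hm (ι := Fin (2 * ∑ i, m i))
    (fun i => by
      rw [Fintype.card_fin]
      exact Nat.mul_le_mul_left 2
        (Finset.single_le_sum (fun _ _ => Nat.zero_le _) (Finset.mem_univ i)))
    (hom_nonneg dg (rp_unit δ 6 b).1) (one (rp_unit δ 6 b).2) (hom_nonneg dg (rp_unit δ 2 b).1)
    (one (rp_unit δ 2 b).2) (by rw [← map_mul, rp_tier (by norm_num)])
    (fun l => dg (cfc (rp (1 / 4) 2) (Y l))) (fun l => dg (cfc (rp (1 / 4) 1) (Y l)))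
    (fun l => hom_nonneg _ (rp_unit _ _ _).1) (fun l => one (rp_unit _ _ _).2)
    (fun l => (hom_nonneg _ (rp_unit _ _ _).1).star_eq)
    (fun l => by rw [← map_mul, rp_tier one_lt_two])
    (fun l l' hl => by
      rw [← map_mul, cfc_mul_eq_zero (ys l) (mul_cfc_eq_zero (ys l') (y2 l l' hl) (rp_cont _ _)
        (r0 1 one_pos)) (rp_cont _ _) (r0 1 one_pos), map_zero])
    (fun l => by
      have := mul_cfc_eq_zero (ys l) (y := 1 - cfc (rp δ 2) b) (by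
        rw [sub_mul, (y1 l).2.2.1, one_mul, sub_self]) (rp_cont (1 / 4) 1) (r0 1 one_pos)
      rw [sub_mul, one_mul, sub_eq_zero] at this
      rw [← map_mul, ← this]) K (fun l k => dg (V l k))
    (fun l => by simp only [← map_star, ← map_mul, ← map_sum, v1])
    fun l k => by rw [← map_mul, v2]
  simp only [e] at h7 h8
  have s : ∀ k, star (cfc (rp δ k) (dg b : UA A)) = cfc (rp δ k) (dg b) := fun k =>
    IsSelfAdjoint.cfc.star_eq
  have a1 : ∑ i, ∑ t, star (ξ i t * cfc (rp δ 7) (dg b)) * (ξ i t * cfc (rp δ 7) (dg b)) =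
      star (cfc (rp δ 7) (dg b : UA A)) * (∑ i, ∑ t, star (ξ i t) * ξ i t) * cfc (rp δ 7) (dg b) := by
    simp only [Finset.mul_sum, Finset.sum_mul, star_mul, mul_assoc]
  have a2 := h8 (1 - cfc (rp δ 1) (dg b)) (by rw [sub_mul, rp_tier one_lt_two, one_mul, sub_self])
  simp only [sub_mul, one_mul, sub_eq_zero] at a2
  refine ⟨c, γ, fun i t => ξ i t * cfc (rp δ 7) (dg b), h3, h4, fun i => ?_,
    fun i t => by rw [← mul_assoc, h5], ?_, ?_, fun i l => ⟨(a2 i l).1.symm, ?_⟩, fun i t => ?_⟩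
  · rw [← h3 i ⟨0, hm i⟩]
    exact le_one_of_norm (star_mul_self_nonneg _) (by
      rw [CStarRing.norm_star_mul_self]; exact mul_le_one₀ (h1 _ _) (norm_nonneg _) (h1 _ _))
  · rw [a1, mul_assoc, rp_tier (by norm_num), mul_assoc, h7 _ (rp_tier (by norm_num) _), s,
      rp_tier (by norm_num)]
  · rw [a1]
    refine (star_left_conjugate_le_conjugate h6 _).trans ?_
    rw [mul_one, s]
    exact (mul_unit (rp_unit _ _ _).1 (rp_unit _ _ _).2 (rp_unit _ _ _).1 (rp_unit _ _ _).2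
      (Commute.refl _)).2
  · simpa [s] using congrArg star (a2 i l).2.symm
  · rw [mul_assoc, ← s 7, ← s 1, ← star_mul, rp_tier (by norm_num)]

end Pool.Agent.Lib.MP_30b5b4_an
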