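import Pool.Agent.Lib.MP_30b5b4_an.T.Pt
import Pool.Agent.Lib.MP_30b5b4_an.S1

/-! The inner layer with a source for each block. -/

open scoped CStarAlgebra ComplexOrder Topology
open Filter

set_option linter.unusedSectionVars false
set_option linter.style.haveILetI false
set_option linter.unusedVariables false
set_option linter.unusedSimpArgs false
set_option synthInstance.maxSize 1000000

namespace Pool.Agent.Lib.MP_30b5b4_an

universe u v

variable {J : Type*} {A : Type u} [NonUnitalCStarAlgebra J] [PartialOrder J] [StarOrderedRing J]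
  [CStarAlgebra A] [PartialOrder A] [StarOrderedRing A] {j : J →⋆ₙₐ[ℂ] A} {N : ℕ}

instance InQ.clo {τ β : Type} [Finite τ] [Finite β] (P : Type) [Fintype P] [DecidableEq P] :
    Clo fun g : (τ → UA A) × (β → UA A) × (β → UA A) => InQ P g.1 g.2.1 g.2.2 := by
  unfold InQ; infer_instance

lemma unit_cfc' {B : Type u} [CStarAlgebra B] [PartialOrder B] [StarOrderedRing B] {a y : B}
    (hy : IsSelfAdjoint y) (h : a * y = y) {f : ℝ → ℝ} (hf : Continuous f)
    (f0 : f 0 = 0) : a * cfc f y = cfc f y := by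
  have := mul_cfc_eq_zero hy (y := 1 - a) (by rw [sub_mul, h, one_mul, sub_self]) hf f0
  rw [sub_mul, one_mul, sub_eq_zero] at this
  exact this.symm

theorem innerQ {n : ℕ} (hA : Ap (NonUnitalStarAlgHom.id ℂ A) (n + 1) False)
    {τ β : Type} [Finite τ] [Finite β] (P : Type) [Fintype P] [DecidableEq P] [Nonempty P]
    (T : τ → A) {x : A} (x0 : 0 ≤ x) (x1 : x ≤ 1) (hs : HS (dg x)) (s y : β → A)
    (hx : ∀ b, x * s b = s b) (h : ∀ b, ∃ (K : ℕ) (V : Fin K → A),
      (∑ t, star (V t) * V t) * s b = s b ∧ ∀ t, y b * V t = V t) :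
    InQ P (fun t => dg (T t)) (fun b => dg (s b)) fun b => dg (y b) := by
  classical
  haveI := Fintype.ofFinite β
  choose K r r1 r2 using h
  let L := P × Option (Σ b, Fin (K b))
  let T0 := Option (Fin (n + 1) × Option (Option L × Option (Fin (n + 1) × Bool)))
  let T' : τ → UA A := fun t => ((‖T t‖ + 1 : ℝ) : ℂ)⁻¹ • dg (T t)
  have T1 : ∀ t, dg (T t) = ((‖T t‖ + 1 : ℝ) : ℂ) • T' t := fun t => by
    rw [smul_smul, mul_inv_cancel₀ (Complex.ofReal_ne_zero.2 (by positivity)), one_smul]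
  have T2 : ∀ t, ‖T' t‖ ≤ 1 := fun t => by
    rw [norm_smul, norm_inv, Complex.norm_real, Real.norm_of_nonneg (by positivity),
      inv_mul_le_iff₀ (by positivity)]
    linarith [hom_norm_le dg (T t)]
  let S0 : Set (UA A) :=
    insert (dg x) (Set.range T' ∪ Set.range fun p : Σ b, Fin (K b) => dg (r p.1 p.2))
  have f0 : S0.Finite := ((Set.finite_range _).union (Set.finite_range _)).insert _
  obtain ⟨c, xs, γ, sl, c0, xs0⟩ := hs (L × T0) (Fintype.one_lt_card_iff.2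
    ⟨((Classical.arbitrary P, none), none), ((Classical.arbitrary P, none), some (0, none)),
      by simp⟩) f0
  let μ : P → L → ℝ := fun p l => if l.1 = p then 1 else 0
  have μ0 : ∀ p l, 0 ≤ μ p l := fun p l => by simp only [μ]; split_ifs <;> simp
  have μ1 : ∀ p l, μ p l ≤ 1 := fun p l => by simp only [μ]; split_ifs <;> simp
  let σ : P → UA A := fun p => ∑ l, μ p l.1 • gr 3 (c l)
  have σ0 := fun p => sl.weight (fun l => μ p l.1) (fun l => μ0 _ _) fun l => μ1 _ _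
  have σ1 : ∀ p, ‖σ p‖ ≤ 1 := fun p => norm_le_one_of (σ0 p).1 (σ0 p).2.1
  have σ2 : ∀ p, σ p ∈ Cn S0 := fun p => sum_mem fun l _ => by
    rw [← Complex.coe_smul]; exact SMulMemClass.smul_mem _ (gr_mem (c0 l) 3)
  have X0 : 0 ≤ dg x := hom_nonneg _ x0
  let b : τ ⊕ Unit ⊕ P → UA A := Sum.elim T' (Sum.elim (fun _ => dg x) σ)
  have b1 : ∀ i, ‖b i‖ ≤ 1 := by
    rintro (t | _ | p)
    exacts [T2 t, norm_le_one_of X0 ((hom_mono dg x1).trans_eq (map_one dg)), σ1 p]
  let f : Option ((τ ⊕ Unit ⊕ P) × Fin 3) → UA A := fun o => o.elim 1 fun p =>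
    ![b p.1, star (b p.1) * b p.1, b p.1 * star (b p.1)] p.2
  have f1 : ∀ a ∈ Set.range f, ‖a‖ ≤ 1 := by
    rintro _ ⟨_ | ⟨i, l⟩, rfl⟩
    · exact norm_one_le' _
    · have := mul_le_one₀ (b1 i) (norm_nonneg _) (b1 i)
      fin_cases l
      exacts [b1 i, CStarRing.norm_star_mul_self.trans_le this,
        CStarRing.norm_self_mul_star.trans_le this]
  let S' := S0 ∪ (Set.range c ∪ Set.range xs ∪ Set.range f)
  obtain ⟨q, ρ', ρ, Z, R, st, hq⟩ := stack hA (Option L) hs (S := S') (F := Set.range f)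
    (f0.union (((Set.finite_range _).union (Set.finite_range _)).union (Set.finite_range _)))
    (Or.inl (Or.inl rfl)) (fun _ ha => Or.inr (Or.inr ha)) f1 (fun _ => 1)
    (fun _ => ⟨Or.inr (Or.inr ⟨none, rfl⟩), zero_le_one, le_rfl, fun a _ => Commute.one_left a⟩)
    (Finset.univ : Finset (Option (L × T0)))
  obtain ⟨V, v0, v1, v2, v3⟩ := st.finish (Or.inl (Or.inl rfl))
    (fun o => o.elim (none, none) fun p => (p.2, some p.1)) (by
      rintro (_ | p) (_ | p') hp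
      · rfl
      · simp at hp
      · simp at hp
      · simp only [Option.elim_some, Prod.mk.injEq, Option.some.injEq] at hp
        exact congrArg some (Prod.ext hp.2 hp.1))
  obtain ⟨v, w0, w1, w2, w3, w4⟩ := copies' sl Set.subset_union_left (Or.inl rfl) c0 xs0
    (fun l => Or.inr (Or.inl (Or.inl ⟨l, rfl⟩))) (fun l => Or.inr (Or.inl (Or.inr ⟨l, rfl⟩)))
    st.mq v0 v1 v2 v3
  obtain ⟨G, hG⟩ := (hq true).exact
  rw [mul_one] at hG
  have G1 : uT G 1 = q := (hG none).trans (mul_one q)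
  have G2 : ∀ i, b i ∈ VS G := fun i => mem_VS_iff.2 ⟨⟨G1 ▸ hG (some (i, 0)), G1 ▸
    (hG (some (i, 0))).trans (Cn_comm st.mq (Or.inr (Or.inr ⟨some (i, 0), rfl⟩))).eq⟩,
    G1 ▸ hG (some (i, 1)), G1 ▸ hG (some (i, 2))⟩
  let w : β → P → UA A := fun b p => ∑ k, v (p, some ⟨b, k⟩) * dg (r b k)
  have c1 : ∀ l b k, Commute (v l) (dg (r b k)) := fun l b k =>
    Cn_comm (w0 l) (Or.inr (Or.inr ⟨⟨b, k⟩, rfl⟩))
  have c2 : ∀ b k, Commute q (dg (r b k)) ∧ Commute q (star (dg (r b k))) := fun b k =>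
    ⟨Cn_comm st.mq (Or.inl (Or.inr (Or.inr ⟨⟨b, k⟩, rfl⟩))),
      Cn_comm' st.mq (Or.inl (Or.inr (Or.inr ⟨⟨b, k⟩, rfl⟩)))⟩
  have u1 : ∀ b p, star (w b p) * w b p * ((1 - q) * dg (s b)) = (1 - q) * dg (s b) :=
      fun b p => by
    have a1 : ∀ k, star (v (p, some ⟨b, k⟩) * dg (r b k)) * w b p * ((1 - q) * dg x) =
        (1 - q) * (star (dg (r b k)) * dg (r b k) * dg x) := fun k => by
      rw [Finset.mul_sum, Finset.sum_eq_single k (fun k' _ hk => by
        rw [star_mul, mul_assoc, ← mul_assoc (star (v _)), w3 _ _ (by simpa [L] using hk.symm),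
          zero_mul, mul_zero]) (by simp), star_mul]
      have a2 : Commute (star (v (p, some ⟨b, k⟩))) (dg (r b k)) :=
        Cn_comm (star_mem (w0 _)) (Or.inr (Or.inr ⟨⟨b, k⟩, rfl⟩))
      have a3 : Commute (1 - q) (star (dg (r b k)) * dg (r b k)) :=
        (Commute.one_left _).sub_left ((c2 b k).2.mul_right (c2 b k).1)
      rw [(c1 _ b k).eq, mul_assoc (star _) (star _),
        ← mul_assoc (star (v _)), a2.eq, mul_assoc (dg _), ← mul_assoc (star (dg _)), mul_assoc,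
        w2, ← mul_assoc, ← a3.eq, mul_assoc]
    have a4 : star (w b p) * w b p * ((1 - q) * dg x) =
        (1 - q) * ((∑ k, star (dg (r b k)) * dg (r b k)) * dg x) := by
      conv_lhs => enter [1, 1]; simp only [w, star_sum]
      rw [Finset.sum_mul, Finset.sum_mul]
      simp only [a1]
      rw [← Finset.mul_sum, ← Finset.sum_mul]
    have a5 : dg x * dg (s b) = dg (s b) := by rw [← map_mul, hx]
    conv_lhs => rw [← a5, ← mul_assoc (1 - q), ← mul_assoc _ (_ * _), a4, mul_assoc, mul_assoc, a5]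
    simp only [← map_star, ← map_mul, ← map_sum, r1]
  choose γ' k1 k2 k3 using fun b p => contract (w b p)
  refine ⟨σ, σ1, fun b p => w b p * γ' b p, k1, G, fun t => ?_,
    fun p => ⟨G2 (.inr (.inr p)), (σ0 p).1, mem_Cn.2 ?_⟩, ?_, fun b p => ⟨?_, ?_, ?_, fun p' => ?_⟩⟩
  · simp only [T1]; exact SMulMemClass.smul_mem _ (G2 (.inl t))
  · rintro _ ⟨t, rfl⟩
    have := mem_Cn.1 (σ2 p) _ (Or.inr (Or.inl ⟨t, rfl⟩))
    simp only [T1, star_smul]
    exact ⟨this.1.smul_left _, this.2.smul_left _⟩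
  · have := (sl.weight (fun _ => 1) (fun _ => zero_le_one) fun _ => le_rfl).2.1
    rw [Finset.sum_comm]
    simpa [← Finset.sum_smul, μ] using this
  · rw [G1, ← mul_assoc]
    simp only [w, Finset.mul_sum, ← mul_assoc, w1]
  · rw [← mul_assoc]
    simp only [w, Finset.mul_sum, (c1 _ _ _).eq, ← mul_assoc, ← map_mul, r2]
  · rw [G1]; exact k2 b p _ (u1 b p)
  · rw [← mul_assoc]
    simp only [w, Finset.mul_sum, ← mul_assoc, σ, w4 (μ p') (μ0 p') (μ1 p'), μ, eq_comm (a := p')]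
    split_ifs <;> simp

/-- the inner layer for sequences -/
theorem innerQ_seq (hj : Idl j) {n : ℕ} (hA : Ap (NonUnitalStarAlgHom.id ℂ A) (n + 1) False)
    (hs : ∀ a : A, (∃ c, j c = a) → 0 ≤ a → a ≤ 1 → HS (dg a))
    {τ β : Type} [Finite τ] [Finite β] (P : Type) [Fintype P] [DecidableEq P] [Nonempty P]
    (T : τ → UA A) {t : BA A} (ht : t ∈ Lf j) (t0 : 0 ≤ t) (t1 : t ≤ 1) (a a' : β → A)
    (a0 : ∀ b, 0 ≤ a b) (a1 : ∀ b, 0 ≤ a' b)
    (h : ∀ᶠ k in (om : Filter ℕ), ∀ b,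
        Gen (cfc (rp (1 / 4) 1) (cfc (rp (1 / 16) 2) (Bdd.ev k t) * a b *
            cfc (rp (1 / 16) 2) (Bdd.ev k t)))
          (cfc (rp (1 / 4) 2) (cfc (rp (1 / 16) 15) (Bdd.ev k t) * a' b *
            cfc (rp (1 / 16) 15) (Bdd.ev k t)))) :
    InQ P T (fun b => cfc (rp (1 / 4) 3) (cfc (rp (1 / 16) 2) (Ult.mk t) * dg (a b) *
        cfc (rp (1 / 16) 2) (Ult.mk t)))
      fun b => cfc (rp (1 / 4) 1) (cfc (rp (1 / 16) 15) (Ult.mk t) * dg (a' b) *
        cfc (rp (1 / 16) 15) (Ult.mk t)) := by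
  choose T' hT using fun l => Ult.surj (T l)
  have sa : ∀ {B : Type u} [CStarAlgebra B] {c d : B}, IsSelfAdjoint c → IsSelfAdjoint d →
      IsSelfAdjoint (c * d * c) :=
    fun hc hd => by rw [IsSelfAdjoint, star_mul, star_mul, hc.star_eq, hd.star_eq, mul_assoc]
  have ts := t0.isSelfAdjoint
  have c1 : ∀ {c : A}, 0 ≤ c → IsSelfAdjoint (cst c : BA A) := fun hc =>
    (hom_nonneg cst hc).isSelfAdjoint
  have := transfer (fun g : (τ → UA A) × (β → UA A) × (β → UA A) => InQ P g.1 g.2.1 g.2.2)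
    ((Stage.pi fun l => Stage.mk (T' l)).prod
      ((Stage.pi fun b => Stage.mk (cfc (rp (1 / 4) 3) (cfc (rp (1 / 16) 2) t * cst (a b) *
        cfc (rp (1 / 16) 2) t))).prod
      (Stage.pi fun b => Stage.mk (cfc (rp (1 / 4) 1) (cfc (rp (1 / 16) 15) t * cst (a' b) *
        cfc (rp (1 / 16) 15) t))))) (h.mono fun k hk => by
      have c0 : ∀ m, 0 < m → ∀ δ, 0 < δ → rp δ m 0 = 0 := fun m hm δ hδ => rp_zero hδ hm hδ.le
      simp only [fun b => hom_cfc (Bdd.ev k) (rp_cont (1 / 4) 3)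
          (sa (IsSelfAdjoint.cfc (f := rp (1 / 16) 2) (a := t)) (c1 (a0 b))),
        fun b => hom_cfc (Bdd.ev k) (rp_cont (1 / 4) 1)
          (sa (IsSelfAdjoint.cfc (f := rp (1 / 16) 15) (a := t)) (c1 (a1 b))),
        map_mul, hom_cfc _ (rp_cont _ _) ts]
      exact innerQ hA P _ (x := cfc (rp (1 / 16) 1) (Bdd.ev k t)) (rp_unit _ _ _).1
        (rp_unit _ _ _).2
        (hs _ (hj.cfc_mem (ht k) (rp_cont _ _) (c0 _ (by norm_num) _ (by norm_num)))
          (rp_unit _ _ _).1 (rp_unit _ _ _).2) _ _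
        (fun b => unit_cfc' (sa IsSelfAdjoint.cfc (a0 b).isSelfAdjoint)
          (by rw [← mul_assoc, ← mul_assoc, rp_tier (by norm_num)]) (rp_cont _ _)
          (c0 _ (by norm_num) _ (by norm_num)))
        fun b => (hk b).sub (g := cfc (rp (1 / 4) 2) _) (rp_unit _ _ _).1
          (rp_tier (by norm_num) _) (rp_tier (by norm_num) _) (rp_tier (by norm_num) _))
  simpa only [hT, fun b => hom_cfc Ult.mk (rp_cont (1 / 4) 3)
      (sa (IsSelfAdjoint.cfc (f := rp (1 / 16) 2) (a := t)) (c1 (a0 b))),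
    fun b => hom_cfc Ult.mk (rp_cont (1 / 4) 1)
      (sa (IsSelfAdjoint.cfc (f := rp (1 / 16) 15) (a := t)) (c1 (a1 b))),
    map_mul, hom_cfc _ (rp_cont _ _) ts, dg_apply] using this

end Pool.Agent.Lib.MP_30b5b4_an
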