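import Pool.Agent.Lib.MP_30b5b4_an.T.NV1

/-! A central system whose cores are full in given compact ideals. -/

open scoped CStarAlgebra ComplexOrder Topology
open Filter

set_option linter.unusedSectionVars false
set_option linter.style.haveILetI false
set_option linter.unusedVariables false
set_option linter.unusedSimpArgs false
set_option synthInstance.maxSize 1000000

namespace Pool.Agent.Lib.MP_30b5b4_an

universe u v

variable {J : Type*} {A : Type u} [NonUnitalCStarAlgebra J] [PartialOrder J] [StarOrderedRing J]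
  [CStarAlgebra A] [PartialOrder A] [StarOrderedRing A] {j : J →⋆ₙₐ[ℂ] A} {N : ℕ}

theorem TD.nv (hT : TD j) (hj : Idl j) {κ : Type} [Fintype κ] {e : UA A} (hd : DivP κ e) {n : ℕ}
    (hn : 0 < n) {S : Set (UA A)} (hS : S.Finite) {β : Type} [Finite β] (u : β → A)
    (u0 : ∀ b, ∃ c, j c = u b) (u1 : ∀ b, Bub (u b)) (u2 : ∀ b, dg (u b) ∈ S)
    (u3 : ∀ b, e * dg (u b) = dg (u b)) :
    ∃ (Φ : Fin n → Fin n → UA A) (w : UA A), Sys Φ w ∧ (∀ l m, Φ l m ∈ Cn S) ∧
      ∀ b l, ∃ z, Big (u b) (dg (u b) * z) ∧ Φ l l * (dg (u b) * z) = dg (u b) * z := by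
  classical
  have key : ∀ s : Finset β, ∃ (Φ : Fin n → Fin n → UA A) (w : UA A), Sys Φ w ∧
      (∀ l m, Φ l m ∈ Cn S) ∧
      ∀ b ∈ s, ∃ z, Big (u b) (dg (u b) * z) ∧ w * (dg (u b) * z) = dg (u b) * z := by
    intro s
    induction s using Finset.induction_on with
    | empty => exact ⟨_, _, Sys.nil, fun _ _ => zero_mem _, by simp⟩
    | insert a s ha ih =>
      obtain ⟨Φ, w, h, m, hz⟩ := ih
      obtain ⟨Φ', w', h', m', z, z1, z2⟩ := hT.nv1 hj hd hn
        (hS.union (Set.finite_range fun p : Fin n × Fin n => Φ p.1 p.2)) (u0 a) (u1 a)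
        (Or.inl (u2 a)) (u3 a)
      have hc : ∀ l m l' m', Commute (Φ l m) (Φ' l' m') := fun l k l' k' =>
        (Cn_comm (m' l' k') (Or.inr ⟨(l, k), rfl⟩)).symm
      obtain ⟨Ψ, hΨ, mΨ⟩ := h.rot h' hc
      refine ⟨Ψ, _, hΨ, mΨ S m fun l k => Cn_mono Set.subset_union_left (m' l k), fun b hb => ?_⟩
      rcases Finset.mem_insert.1 hb with rfl | hb
      · exact ⟨z, z1, rot_fix_r h'.w0.isSelfAdjoint z2⟩
      · obtain ⟨z, z1, z2⟩ := hz b hb
        exact ⟨z, z1, rot_fix_l h.w0.isSelfAdjoint h'.w0.isSelfAdjoint (h.comm_w h' hc) z2⟩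
  haveI := Fintype.ofFinite β
  obtain ⟨Φ, w, h, m, hz⟩ := key Finset.univ
  refine ⟨Φ, w, h, m, fun b l => ?_⟩
  obtain ⟨z, z1, z2⟩ := hz b (Finset.mem_univ _)
  have h4 : ∀ k, dg (u b) * (Φ l k * z) = Φ l k * (dg (u b) * z) := fun k => by
    rw [← mul_assoc, ← (Cn_comm (m l k) (u2 b)).eq, mul_assoc]
  have e : dg (u b) * ∑ k, Φ l k * z * star (Φ l k * (dg (u b) * z)) =
      ∑ k, Φ l k * (dg (u b) * z) * star (Φ l k * (dg (u b) * z)) := by
    rw [Finset.mul_sum]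
    exact Finset.sum_congr rfl fun k _ => by rw [← mul_assoc, h4]
  refine ⟨∑ k, Φ l k * z * star (Φ l k * (dg (u b) * z)), ?_, ?_⟩
  · rw [e]
    refine z1.mono _ one_pos (le_of_eq ?_)
    generalize dg (u b) * z = Y at z2
    have a1 : ∀ k, star (Φ l k * Y) * (Φ l k * Y) = star Y * (Φ k k * Y) := fun k => by
      rw [star_mul, h.st, mul_assoc, ← mul_assoc (Φ k l), h.mul, (h.comm k k).eq, mul_assoc, z2]
    simp only [one_smul, a1, ← Finset.mul_sum, ← Finset.sum_mul, h.sum, z2]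
  · rw [e, Finset.mul_sum]
    refine Finset.sum_congr rfl fun k _ => ?_
    rw [← mul_assoc, ← mul_assoc (Φ l l), h.mul, (h.comm l k).eq, mul_assoc (Φ l k), z2]

end Pool.Agent.Lib.MP_30b5b4_an
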