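import Pool.Agent.Lib.MP_30b5b4_an.T.Pt
import Pool.Agent.Lib.MP_30b5b4_an.S.G2

/-! Uniform survival of sequences in quotients, and gluing of systems. -/

open scoped CStarAlgebra ComplexOrder Topology
open Filter

set_option linter.unusedSectionVars false
set_option linter.style.haveILetI false
set_option linter.unusedVariables false
set_option linter.unusedSimpArgs false
set_option synthInstance.maxSize 1000000

namespace Pool.Agent.Lib.MP_30b5b4_an

universe u v

variable {J : Type*} {A : Type u} [NonUnitalCStarAlgebra J] [PartialOrder J] [StarOrderedRing J]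
  [CStarAlgebra A] [PartialOrder A] [StarOrderedRing A] {j : J →⋆ₙₐ[ℂ] A} {N : ℕ}

lemma Bub.big {u : A} (hu : Bub u) : Big u (dg u) :=
  ⟨1, one_pos, cst u, rfl, Eventually.of_forall fun _ => hu.2⟩

theorem Big.mono {u : A} {Y : UA A} (h : Big u Y) {T : Type*} [Fintype T] (Z : T → UA A) {R : ℝ}
    (hR : 0 < R) (hZ : star Y * Y ≤ R • ∑ t, star (Z t) * Z t) :
    Big u (∑ t, Z t * star (Z t)) := by
  obtain ⟨r, hr, y, rfl, hy⟩ := h
  choose z hz using fun t => Ult.surj (Z t)
  obtain ⟨d, d0, d1⟩ := Ult.nonneg_lift (sub_nonneg.2 hZ)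
  have e : Ult.mk (star y * y + d - R • ∑ t, star (z t) * z t) = 0 := by
    rw [map_sub, map_add, d1, hom_real_smul]
    simp only [map_mul, map_star, map_sum, hz, add_sub_cancel, sub_self]
  have c0 : (0 : ℝ) < Fintype.card T + 1 := by positivity
  refine ⟨r * r / 2 / (R * (Fintype.card T + 1)), by positivity, ∑ t, z t * star (z t),
    by simp only [map_sum, map_mul, map_star, hz], (hy.and (Ult.eventually_lt (r := r * r / 2)
      (((congrArg norm e).trans norm_zero).trans_lt (by positivity)))).mono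
      fun k ⟨h1, h2⟩ p hp => ?_⟩
  have a1 := p.mono (star_mul_self_nonneg (Bdd.ev k y))
    (le_add_of_nonneg_right (hom_nonneg (Bdd.ev k) d0))
  have a2 := (hom_norm_le p.π _).trans_lt h2
  rw [map_sub, map_sub, hom_real_smul, hom_real_smul, map_add, map_mul, map_star] at a2
  rw [map_mul, map_star, CStarRing.norm_star_mul_self] at a1
  have a3 := norm_sub_norm_le (p.π (star (Bdd.ev k y) * Bdd.ev k y + Bdd.ev k d))
    (R • p.π (Bdd.ev k (∑ t, star (z t) * z t)))
  have a4 : ‖p.π (Bdd.ev k (∑ t, star (z t) * z t))‖ ≤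
      Fintype.card T * ‖p.π (Bdd.ev k (∑ t, z t * star (z t)))‖ := by
    rw [map_sum, map_sum, ← nsmul_eq_mul]
    refine (norm_sum_le _ _).trans (Finset.sum_le_card_nsmul _ _ _ fun t _ => ?_)
    refine le_trans (le_of_eq ?_) (p.mono (hom_nonneg _ (mul_star_self_nonneg (z t)))
      (hom_mono _ (Finset.single_le_sum (f := fun t => z t * star (z t))
        (fun t _ => mul_star_self_nonneg _) (Finset.mem_univ t))))
    simp only [map_mul, map_star, CStarRing.norm_star_mul_self, CStarRing.norm_self_mul_star]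
  rw [norm_smul, Real.norm_of_nonneg hR.le] at a3
  rw [div_le_iff₀ (by positivity)]
  nlinarith [mul_self_le_mul_self hr.le (h1 p hp), mul_le_mul_of_nonneg_left a4 hR.le,
    mul_nonneg hR.le (norm_nonneg (p.π (Bdd.ev k (∑ t, z t * star (z t)))))]

/-- the bound holds, halved, for every lift -/
lemma Big.lift {u : A} {Y : UA A} (h : Big u Y) : ∃ r : ℝ, 0 < r ∧ ∀ y : BA A, Ult.mk y = Y →
    ∀ᶠ k in (om : Filter ℕ), ∀ p : Pt A, p.π u ≠ 0 → r ≤ ‖p.π (Bdd.ev k y)‖ := by
  obtain ⟨r, hr, y, rfl, hy⟩ := h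
  refine ⟨r / 2, half_pos hr, fun y' h => (hy.and (Ult.eventually_lt (x := y - y') (r := r / 2)
    (by rw [map_sub, h, sub_self, norm_zero]; exact half_pos hr))).mono fun k ⟨h1, h2⟩ p hp => ?_⟩
  have := (hom_norm_le p.π _).trans_lt h2
  rw [map_sub, map_sub] at this
  linarith [norm_sub_norm_le (p.π (Bdd.ev k y)) (p.π (Bdd.ev k y')), h1 p hp]

lemma Big.of_gen {u u' : A} {Y : UA A} (h : Big u Y) (hu : Gen u' u) : Big u' Y := by
  obtain ⟨r, hr, y, h1, h2⟩ := h
  exact ⟨r, hr, y, h1, h2.mono fun k hk p hp => hk p fun h0 => hp (hu p h0)⟩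

lemma Sys.glue {B : Type u} [CStarAlgebra B] [PartialOrder B] [StarOrderedRing B] {K : Type}
    [Fintype K] {Φ Φ' : K → K → B} {w w' f g : B} (h : Sys Φ w) (h' : Sys Φ' w') (f0 : 0 ≤ f)
    (f1 : f ≤ 1) (g0 : 0 ≤ g) (g1 : g ≤ 1) (fg : f * g = 0)
    (cf : ∀ l m, Commute f (Φ l m) ∧ Commute f (Φ' l m))
    (cg : ∀ l m, Commute g (Φ l m) ∧ Commute g (Φ' l m)) :
    Sys (fun l m => f * Φ l m + g * Φ' l m) (f * w + g * w') := by
  have gf : g * f = 0 := by rw [← g0.star_eq, ← f0.star_eq, ← star_mul, fg, star_zero]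
  have c1 : Commute f w := h.sum ▸ Commute.sum_right _ _ _ fun l _ => (cf l l).1
  have c2 : Commute g w := h.sum ▸ Commute.sum_right _ _ _ fun l _ => (cg l l).1
  have c3 : Commute f w' := h'.sum ▸ Commute.sum_right _ _ _ fun l _ => (cf l l).2
  have c4 : Commute g w' := h'.sum ▸ Commute.sum_right _ _ _ fun l _ => (cg l l).2
  have key : ∀ {x x' y y' : B}, Commute f x → Commute g x → Commute f x' → Commute g x' →
      (f * x + g * x') * (f * y + g * y') = f * f * (x * y) + g * g * (x' * y') :=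
    fun a1 a2 a3 a4 => by
      rw [add_mul, mul_add, mul_add, a1.symm.mul_mul_mul_comm, a2.symm.mul_mul_mul_comm,
        a3.symm.mul_mul_mul_comm, a4.symm.mul_mul_mul_comm, fg, gf, zero_mul, zero_mul, add_zero,
        zero_add]
  have u1 := mul_unit f0 f1 h.w0 h.w1 c1
  have u2 := mul_unit g0 g1 h'.w0 h'.w1 c4
  refine ⟨fun l m => ?_, fun l m m' => ?_, fun l m l' m' hl => ?_, ?_, add_nonneg u1.1 u2.1, ?_⟩
  · rw [star_add, star_mul, star_mul, h.st, h'.st, f0.star_eq, g0.star_eq, (cf m l).1.eq,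
      (cg m l).2.eq]
  · rw [key (cf _ _).1 (cg _ _).1 (cf _ _).2 (cg _ _).2, key c1 c2 c3 c4, h.mul, h'.mul]
  · rw [key (cf _ _).1 (cg _ _).1 (cf _ _).2 (cg _ _).2, h.zero _ _ _ _ hl, h'.zero _ _ _ _ hl,
      mul_zero, mul_zero, add_zero]
  · rw [Finset.sum_add_distrib, ← Finset.mul_sum, ← Finset.mul_sum, h.sum, h'.sum]
  · have c : Commute (1 - f) (1 - g) := (Commute.one_left _).sub_left
      ((Commute.one_right _).sub_right (fg.trans gf.symm))
    have a1 := c.mul_nonneg (sub_nonneg.2 f1) (sub_nonneg.2 g1)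
    rw [sub_mul, one_mul, mul_sub, mul_one, fg, sub_zero, sub_sub, sub_nonneg, add_comm] at a1
    exact (add_le_add (mul_le_of_commute f0 h.w1 c1) (mul_le_of_commute g0 h'.w1 c4)).trans a1

end Pool.Agent.Lib.MP_30b5b4_an
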