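import Pool.Agent.Lib.MP_30b5b4_an.T.NV0
import Pool.Agent.Lib.MP_30b5b4_an.T.Bub
import Pool.Agent.Lib.MP_30b5b4_an.S.L1

/-! A central system whose core is full in one compact ideal. -/

open scoped CStarAlgebra ComplexOrder Topology
open Filter

set_option linter.unusedSectionVars false
set_option linter.style.haveILetI false
set_option linter.unusedVariables false
set_option linter.unusedSimpArgs false
set_option synthInstance.maxSize 1000000

namespace Pool.Agent.Lib.MP_30b5b4_an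

universe u v

variable {J : Type*} {A : Type u} [NonUnitalCStarAlgebra J] [PartialOrder J] [StarOrderedRing J]
  [CStarAlgebra A] [PartialOrder A] [StarOrderedRing A] {j : J →⋆ₙₐ[ℂ] A} {N : ℕ}

namespace NV1

lemma stage {Y v t : A} (hY : Bub Y) (hv : Bub v) (ht : Gen t Y) (t0 : 0 ≤ t) :
    Bub (Y + v * (1 - cfc (rp (1 / 4) 1) t) * v) ∧
      Gen Y (Y + v * (1 - cfc (rp (1 / 4) 1) t) * v) ∧
      Gen v (Y + v * (1 - cfc (rp (1 / 4) 1) t) * v) := by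
  have h0 : 0 ≤ v * (1 - cfc (rp (1 / 4) 1) t) * v := by
    have := star_left_conjugate_nonneg (sub_nonneg.2 (rp_mem (1 / 4) 1 t).2) v
    rwa [hv.1.star_eq] at this
  have h1 : Y ≤ Y + v * (1 - cfc (rp (1 / 4) 1) t) * v := le_add_of_nonneg_right h0
  have h2 : ∀ p : Pt A, p.π Y = 0 →
      ‖p.π (Y + v * (1 - cfc (rp (1 / 4) 1) t) * v)‖ = ‖p.π v‖ * ‖p.π v‖ := by
    intro p hp
    have h3 : p.π (cfc (rp (1 / 4) 1) t) = 0 := by
      rw [p.rp_eq_zero (by norm_num) 1 t0, ht p hp, norm_zero]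
      norm_num
    rw [map_add, hp, zero_add, map_mul, map_mul, map_sub, map_one, h3, sub_zero, mul_one]
    rw [← CStarRing.norm_star_mul_self, (hom_nonneg p.π hv.1).star_eq]
  have h4 : Gen Y (Y + v * (1 - cfc (rp (1 / 4) 1) t) * v) := fun p hp => by
    have := p.mono hY.1 h1
    rwa [hp, norm_zero, norm_le_zero_iff] at this
  refine ⟨⟨hY.1.trans h1, fun p hp => ?_⟩, h4, fun p hp => ?_⟩
  · by_cases h : p.π Y = 0
    · have h5 : p.π v ≠ 0 := fun h5 => hp (by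
        rw [← norm_eq_zero, h2 p h, h5, norm_zero, mul_zero])
      rw [h2 p h]
      nlinarith [hv.2 p h5]
    · exact (hY.2 p h).trans (p.mono hY.1 h1)
  · have := h2 p (h4 p hp)
    rw [hp, norm_zero] at this
    exact norm_eq_zero.1 (mul_self_eq_zero.1 this.symm)

lemma fix {B : Type u} [CStarAlgebra B] [PartialOrder B] [StarOrderedRing B] {w w' T Y v : B}
    (T0 : IsSelfAdjoint T) (c1 : Commute T w) (c2 : Commute T w') (c3 : Commute T v)
    (h1 : T * Y = Y) (h2 : w * Y = Y) (h3 : w' * v = v) :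
    (cfc (rp (1 / 4) 3) T * w + (1 - cfc (rp (1 / 4) 2) T) * w') *
      (Y + v * (1 - cfc (rp (1 / 4) 1) T) * v) = Y + v * (1 - cfc (rp (1 / 4) 1) T) * v := by
  have e3 : cfc (rp (1 / 4) 3) T * Y = Y :=
    cfc_mul_eq_self T0 h1 (rp_cont _ _) (cl_of_one_le (by norm_num))
  have e2 : cfc (rp (1 / 4) 2) T * Y = Y :=
    cfc_mul_eq_self T0 h1 (rp_cont _ _) (cl_of_one_le (by norm_num))
  have d3 : Commute (cfc (rp (1 / 4) 3) T) w := c1.cfc_real _
  have d2 : Commute (1 - cfc (rp (1 / 4) 2) T) w' := (Commute.one_left _).sub_left (c2.cfc_real _)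
  have d1 : Commute (1 - cfc (rp (1 / 4) 1) T) w' := (Commute.one_left _).sub_left (c2.cfc_real _)
  have d0 : Commute (1 - cfc (rp (1 / 4) 1) T) v := (Commute.one_left _).sub_left (c3.cfc_real _)
  have t31 : cfc (rp (1 / 4) 3) T * (1 - cfc (rp (1 / 4) 1) T) = 0 := by
    rw [mul_sub, mul_one, (rp_tier2 (1 / 4) (by norm_num : 1 < 3) T).2, sub_self]
  have t21 : (1 - cfc (rp (1 / 4) 2) T) * (1 - cfc (rp (1 / 4) 1) T) =
      1 - cfc (rp (1 / 4) 1) T := by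
    rw [sub_mul, one_mul, mul_sub, mul_one, (rp_tier2 (1 / 4) (by norm_num : 1 < 2) T).2, sub_self,
      sub_zero]
  have a1 : cfc (rp (1 / 4) 3) T * w * Y = Y := by rw [mul_assoc, h2, e3]
  have a2 : (1 - cfc (rp (1 / 4) 2) T) * w' * Y = 0 := by
    rw [d2.eq, mul_assoc, sub_mul, one_mul, e2, sub_self, mul_zero]
  have a3 : cfc (rp (1 / 4) 3) T * w * (v * (1 - cfc (rp (1 / 4) 1) T) * v) = 0 := by
    rw [d3.eq, ← d0.eq, mul_assoc w, mul_assoc _ v v, ← mul_assoc (cfc _ T), t31, zero_mul,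
      mul_zero]
  have a4 : (1 - cfc (rp (1 / 4) 2) T) * w' * (v * (1 - cfc (rp (1 / 4) 1) T) * v) =
      v * (1 - cfc (rp (1 / 4) 1) T) * v := by
    rw [mul_assoc _ w', ← mul_assoc w', ← mul_assoc w', h3, ← d0.eq, ← mul_assoc, ← mul_assoc, t21]
  rw [add_mul, mul_add, mul_add, a1, a2, a3, a4, add_zero, zero_add]

lemma bubble (hT : TD j) (hj : Idl j) {Z : BA A} (Z0 : 0 ≤ Z) (hZ : ∀ k, ∃ c, j c = Bdd.ev k Z)
    {ρ : ℝ} (hρ : 0 < ρ) : ∃ v : BA A, (∀ k, Bub (Bdd.ev k v)) ∧ (∃ z, Ult.mk v = Ult.mk Z * z) ∧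
      ∀ k (p : Pt A), 3 * ρ ≤ ‖p.π (Bdd.ev k Z)‖ → p.π (Bdd.ev k v) ≠ 0 := by
  have Z1 : ∀ k, 0 ≤ Bdd.ev k Z := fun k => hom_nonneg _ Z0
  have key : ∀ k, ∃ v : A, Bub v ∧ v ≤ 1 ∧ cfc (rp ρ 1) (Bdd.ev k Z) * v = v ∧
      ∀ p : Pt A, 3 * ρ ≤ ‖p.π (Bdd.ev k Z)‖ → p.π v ≠ 0 := by
    intro k
    obtain ⟨v0, b0, g0, h0⟩ := hT (cfc (rp ρ 2) (Bdd.ev k Z))
      ((Gen.of_cfc (Z1 k).isSelfAdjoint (rp_cont _ _) (rp_zero hρ two_pos hρ.le)).mem hj (hZ k))
      (rp_mem _ _ _).1 1 one_pos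
    obtain ⟨v, b1, v1, -, g1, -, h1⟩ := b0.her g0
    refine ⟨v, b1, v1, ?_, fun p hp h => ?_⟩
    · have := h1 (1 - cfc (rp ρ 1) (Bdd.ev k Z)) (by
        rw [sub_mul, one_mul, (rp_tier2 ρ (by norm_num : 1 < 2) _).1, sub_self])
      rw [sub_mul, one_mul, sub_eq_zero] at this
      exact this.symm
    · exact h0 p (p.rp_one hρ 2 (Z1 k) (by push_cast; linarith)) (g1 p h)
  choose v b1 v1 h1 h2 using key
  let V : BA A := Bdd.of v 1 fun k => (CStarAlgebra.norm_le_one_iff_of_nonneg _ (b1 k).1).2 (v1 k)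
  have hV : cfc (rp ρ 1) Z * V = V := Bdd.ext fun k => by
    rw [map_mul, hom_cfc _ (rp_cont _ _) Z0.isSelfAdjoint]
    exact h1 k
  obtain ⟨q, hq⟩ := rp_fac hρ one_pos Z0.isSelfAdjoint
  refine ⟨V, b1, ⟨Ult.mk (q * V), ?_⟩, h2⟩
  rw [← map_mul, ← mul_assoc, ← hq, hV]

lemma join {κ : Type} {K : Type} [Fintype K] {S : Set (UA A)} (hS : S.Finite) {y : UA A}
    (Φ : κ → K → K → UA A) (w : κ → UA A) (v : κ → BA A) (h : ∀ a, Sys (Φ a) (w a))
    (m : ∀ a l l', Φ a l l' ∈ Cn S) (b : ∀ a k, Bub (Bdd.ev k (v a)))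
    (h1 : ∀ a, w a * Ult.mk (v a) = Ult.mk (v a)) (h2 : ∀ a, ∃ z, Ult.mk (v a) = y * z)
    (s : Finset κ) : ∃ (Ψ : K → K → UA A) (W : UA A) (Y : BA A), Sys Ψ W ∧
      (∀ l l', Ψ l l' ∈ Cn S) ∧ (∀ k, Bub (Bdd.ev k Y)) ∧ W * Ult.mk Y = Ult.mk Y ∧
      (∃ z, Ult.mk Y = y * z) ∧ ∀ a ∈ s, ∀ k, Gen (Bdd.ev k (v a)) (Bdd.ev k Y) := by
  classical
  induction s using Finset.induction_on with
  | empty =>
    exact ⟨_, _, 0, Sys.nil, fun _ _ => zero_mem _, fun k => by rw [map_zero]; exact Bub.zero,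
      by rw [map_zero, mul_zero], ⟨0, by rw [map_zero, mul_zero]⟩, by simp⟩
  | insert a s ha ih =>
    obtain ⟨Ψ, W, Y, H, M, bY, fY, ⟨z, hz⟩, gY⟩ := ih
    haveI : Finite S := hS
    obtain ⟨t, t0, t1, tg, tc, tY⟩ := tierG (fun k => Bdd.ev k Y)
      (ι := S ⊕ (K × K) ⊕ (K × K) ⊕ Unit) (κ := Unit)
      (Sum.elim Subtype.val (Sum.elim (fun p => Ψ p.1 p.2) (Sum.elim (fun p => Φ a p.1 p.2)
        fun _ => Ult.mk (v a)))) (fun _ => Y) fun _ _ => Gen.refl _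
    have T0 : 0 ≤ Ult.mk t := hom_nonneg _ t0
    have TS : Ult.mk t ∈ Cn S := Cn_mono (fun x hx => by exact ⟨.inl ⟨x, hx⟩, rfl⟩) tc
    have c1 : ∀ l l', Commute (Ult.mk t) (Ψ l l') := fun l l' =>
      Cn_comm tc ⟨.inr (.inl (l, l')), rfl⟩
    have c2 : ∀ l l', Commute (Ult.mk t) (Φ a l l') := fun l l' =>
      Cn_comm tc ⟨.inr (.inr (.inl (l, l'))), rfl⟩
    have c3 : Commute (Ult.mk t) (Ult.mk (v a)) := Cn_comm tc ⟨.inr (.inr (.inr ())), rfl⟩
    have cw : Commute (Ult.mk t) W := by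
      rw [← H.sum]; exact Commute.sum_right _ _ _ fun l _ => c1 l l
    have cw' : Commute (Ult.mk t) (w a) := by
      rw [← (h a).sum]; exact Commute.sum_right _ _ _ fun l _ => c2 l l
    have G := Sys.glue H (h a) (f := cfc (rp (1 / 4) 3) (Ult.mk t))
      (g := 1 - cfc (rp (1 / 4) 2) (Ult.mk t)) (rp_mem _ _ _).1 (rp_mem _ _ _).2
      (sub_nonneg.2 (rp_mem _ _ _).2) (sub_le_self _ (rp_mem _ _ _).1)
      (by rw [mul_sub, mul_one, (rp_tier2 (1 / 4) (by norm_num : 2 < 3) _).2, sub_self])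
      (fun l l' => ⟨(c1 l l').cfc_real _, (c2 l l').cfc_real _⟩)
      (fun l l' => ⟨(Commute.one_left _).sub_left ((c1 l l').cfc_real _),
        (Commute.one_left _).sub_left ((c2 l l').cfc_real _)⟩)
    have e1 : Ult.mk (Y + v a * (1 - cfc (rp (1 / 4) 1) t) * v a) =
        Ult.mk Y + Ult.mk (v a) * (1 - cfc (rp (1 / 4) 1) (Ult.mk t)) * Ult.mk (v a) := by
      rw [map_add, map_mul, map_mul, map_sub, map_one, hom_cfc _ (rp_cont _ _) t0.isSelfAdjoint]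
    have e2 : ∀ k, Bdd.ev k (Y + v a * (1 - cfc (rp (1 / 4) 1) t) * v a) = Bdd.ev k Y +
        Bdd.ev k (v a) * (1 - cfc (rp (1 / 4) 1) (Bdd.ev k t)) * Bdd.ev k (v a) := fun k => by
      rw [map_add, map_mul, map_mul, map_sub, map_one, hom_cfc _ (rp_cont _ _) t0.isSelfAdjoint]
    have st := fun k => stage (bY k) (b a k) (tg k) (hom_nonneg (Bdd.ev k) t0)
    obtain ⟨z', hz'⟩ := h2 a
    refine ⟨_, _, Y + v a * (1 - cfc (rp (1 / 4) 1) t) * v a, G, fun l l' => add_mem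
      (mul_mem (cfc_mem_cl (Cn_closed S) _ TS) (M l l'))
      (mul_mem (sub_mem (one_mem _) (cfc_mem_cl (Cn_closed S) _ TS)) (m a l l')),
      fun k => ?_, ?_, ⟨z + z' * (1 - cfc (rp (1 / 4) 1) (Ult.mk t)) * Ult.mk (v a), ?_⟩,
      fun c hc k => ?_⟩
    · rw [e2]; exact (st k).1
    · rw [e1]; exact fix T0.isSelfAdjoint cw cw' c3 (tY ()) fY (h1 a)
    · rw [e1, mul_add, ← hz, ← mul_assoc, ← mul_assoc, ← hz']
    · rw [e2]
      rcases Finset.mem_insert.1 hc with rfl | hc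
      · exact (st k).2.2
      · exact (gY c hc k).trans (st k).2.1

end NV1

theorem TD.nv1 (hT : TD j) (hj : Idl j) {κ : Type} [Fintype κ] {e : UA A} (hd : DivP κ e) {n : ℕ}
    (hn : 0 < n) {S : Set (UA A)} (hS : S.Finite) {u : A} (u0 : ∃ c, j c = u) (u1 : Bub u)
    (u2 : dg u ∈ S) (u3 : e * dg u = dg u) :
    ∃ (Φ : Fin n → Fin n → UA A) (w : UA A), Sys Φ w ∧ (∀ l m, Φ l m ∈ Cn S) ∧
      ∃ z, Big u (dg u * z) ∧ w * (dg u * z) = dg u * z := by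
  classical
  obtain ⟨c, γ, x, mc, mx, h1, h2, h3, h4, h5⟩ := hd (fun _ => n) (fun _ => hn) S hS
  have y0 : star (dg u : UA A) = dg u := (hom_nonneg dg u1.1).star_eq
  have cX : ∀ a t, Commute (c a ⟨0, hn⟩ * x a t) (dg u) := fun a t =>
    Cn_comm (mul_mem (mc a _) (mx a t)) u2
  choose X hX using fun a t => Ult.surj (c a ⟨0, hn⟩ * x a t)
  let Z : κ → BA A := fun a => ∑ t, cst u * X a t * star (cst u * X a t)
  have Z0 : ∀ a, 0 ≤ Z a := fun a => Finset.sum_nonneg fun t _ => mul_star_self_nonneg _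
  have Z1 : ∀ a, Ult.mk (Z a) =
      ∑ t, dg u * (c a ⟨0, hn⟩ * x a t) * star (dg u * (c a ⟨0, hn⟩ * x a t)) := fun a => by
    simp only [Z, map_sum, map_mul, map_star, hX, ← dg_apply]
  have Z2 : ∀ a k, ∃ b, j b = Bdd.ev k (Z a) := fun a k => by
    refine Gen.mem hj (y := u) (fun p hp => ?_) u0
    have : Bdd.ev k (cst u) = u := rfl
    simp only [Z, map_sum, map_mul, this, hp, zero_mul, Finset.sum_const_zero]
  have hB : Big u (∑ q : κ × Fin (4 * n), dg u * (c q.1 ⟨0, hn⟩ * x q.1 q.2) *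
      star (dg u * (c q.1 ⟨0, hn⟩ * x q.1 q.2))) := by
    refine u1.big.mono (fun q : κ × Fin (4 * n) => dg u * (c q.1 ⟨0, hn⟩ * x q.1 q.2)) one_pos
      (le_of_eq ?_)
    have h6 : (∑ a, ∑ t, star (x a t) * x a t) * dg u = dg u := by
      rw [← u3, ← mul_assoc, h5]
    rw [one_smul, Fintype.sum_prod_type, y0]
    conv_lhs => rw [← h6]
    rw [h6]
    conv_lhs => rhs; rw [← h6]
    rw [Finset.sum_mul, Finset.mul_sum]
    refine Finset.sum_congr rfl fun a _ => ?_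
    rw [Finset.sum_mul, Finset.mul_sum]
    refine Finset.sum_congr rfl fun t _ => ?_
    rw [← (cX a t).eq, star_mul, star_mul, y0]
    simp only [mul_assoc]
    rw [← mul_assoc (star (c a _)), h1, ← mul_assoc (γ a), h4]
  obtain ⟨r, r0, hr⟩ := hB.lift
  have hr' := hr (∑ a, Z a) (by rw [map_sum, Fintype.sum_prod_type]; simp only [Z1])
  have hρ : 0 < r / (3 * (Fintype.card κ + 1)) := by positivity
  choose v b1 b2 b3 using fun a => NV1.bubble hT hj (Z0 a) (Z2 a) hρ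
  obtain ⟨Ψ, W, Y, H, M, bY, fY, ⟨z, hz⟩, gY⟩ := NV1.join hS (y := dg u)
    (fun a l m => c a l * star (c a m)) (fun a => ∑ l, c a l * star (c a l)) v
    (fun a => Sys.of (c a) (h1 a) (h2 a) (h3 a))
    (fun a l m => mul_mem (mc a l) (star_mem (mc a m))) b1 (fun a => by
      obtain ⟨z, hz⟩ := b2 a
      rw [hz, ← mul_assoc, Z1, Finset.mul_sum]
      refine congrArg (· * z) (Finset.sum_congr rfl fun t _ => ?_)
      rw [← (cX a t).eq, ← mul_assoc, ← mul_assoc, Sys.of_fix (c a) (h1 a) (h2 a) (h4 a t)])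
    (fun a => by
      obtain ⟨z, hz⟩ := b2 a
      refine ⟨(∑ t, c a ⟨0, hn⟩ * x a t * star (dg u * (c a ⟨0, hn⟩ * x a t))) * z, ?_⟩
      rw [hz, Z1, ← mul_assoc, Finset.mul_sum]
      simp only [mul_assoc]) Finset.univ
  refine ⟨Ψ, W, H, M, z, ⟨1, one_pos, Y, hz, hr'.mono fun k hk p hp => ?_⟩, by rw [← hz, fY]⟩
  have h7 : ∃ a, 3 * (r / (3 * (Fintype.card κ + 1))) ≤ ‖p.π (Bdd.ev k (Z a))‖ := by
    by_contra h7
    push Not at h7
    have h8 := hk p hp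
    rw [map_sum, map_sum] at h8
    have h9 := h8.trans ((norm_sum_le _ _).trans (Finset.sum_le_sum fun a _ => (h7 a).le))
    rw [Finset.sum_const, Finset.card_univ, nsmul_eq_mul] at h9
    have h10 : 3 * (r / (3 * (Fintype.card κ + 1))) * (Fintype.card κ + 1) = r := by field_simp
    nlinarith
  obtain ⟨a, ha⟩ := h7
  exact (bY k).2 p fun h => b3 a k p ha (gY a (Finset.mem_univ _) k p h)

end Pool.Agent.Lib.MP_30b5b4_an
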